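import Pool.Agent.Helper38.CP.Bound

open MeasureTheory Measure Set Metric Filter
open scoped ENNReal Topology

namespace Pool.Agent.Helper38.CP

lemma disj_of_side {P Q : Set Plane} {a b : Plane} (hab : a ≠ b)
    (hP : ∀ x ∈ P, side a b x ≤ 0) (hQ : ∀ x ∈ Q, 0 ≤ side a b x) :
    Disjoint (interior P) (interior Q) := by
  rw [disjoint_left]
  intro x hx hx'
  have h1 : (interior (P ∩ Q)).Nonempty := by rw [interior_inter]; exact ⟨x, hx, hx'⟩
  obtain ⟨y, hy, hy'⟩ := exists_side_ne h1 hab
  exact hy' (le_antisymm (hP y hy.1) (hQ y hy.2))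

lemma disj_of_functional {P Q : Set Plane} {f : Plane →L[ℝ] ℝ} (hf : f ≠ 0) {c : ℝ}
    (hP : ∀ x ∈ P, f x ≤ c) (hQ : ∀ x ∈ Q, c ≤ f x) :
    Disjoint (interior P) (interior Q) := by
  rw [disjoint_left]
  intro x hx hx'
  have h1 : (interior (P ∩ Q)).Nonempty := by rw [interior_inter]; exact ⟨x, hx, hx'⟩
  have hopen := f.isOpenMap_of_ne_zero hf _ (isOpen_interior (s := P ∩ Q))
  have hsub : f '' interior (P ∩ Q) ⊆ {c} := by
    rintro _ ⟨y, hy, rfl⟩
    have hy' := interior_subset hy
    exact le_antisymm (hP y hy'.1) (hQ y hy'.2)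
  obtain ⟨y, hy⟩ := h1
  have h2 : f y ∈ interior ({c} : Set ℝ) := interior_maximal hsub hopen ⟨y, hy, rfl⟩
  rw [interior_singleton] at h2
  exact h2

lemma body_of_volume_pos {K : Set Plane} (h1 : IsCompact K) (h2 : Convex ℝ K) (h3 : 0 < volume K) :
    IsConvexBody K := by
  refine ⟨h1, h2, ?_⟩
  by_contra hne
  rw [not_nonempty_iff_eq_empty] at hne
  have h4 : K ⊆ frontier K := by
    intro x hx
    refine ⟨subset_closure hx, ?_⟩
    rw [hne]; simp
  have h5 := measure_mono (μ := volume) h4
  rw [h2.addHaar_frontier volume] at h5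
  exact absurd h3 (not_lt.2 h5)

/-- Splitting the volume along a line. -/
lemma split_volume {K : Set Plane} (hK : MeasurableSet K) {f : Plane →L[ℝ] ℝ} (hf : f ≠ 0) (c : ℝ) :
    volume K = volume {x ∈ K | c ≤ f x} + volume {x ∈ K | f x ≤ c} := by
  have e : K = {x ∈ K | c ≤ f x} ∪ {x ∈ K | f x ≤ c} := by
    ext x
    simp only [mem_union, mem_ofPred_eq]
    constructor
    · intro h
      rcases le_total c (f x) with h' | h'
      · exact Or.inl ⟨h, h'⟩
      · exact Or.inr ⟨h, h'⟩
    · rintro (h | h) <;> exact h.1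
  conv_lhs => rw [e]
  apply measure_union₀
  · exact (hK.inter (isClosed_le f.continuous continuous_const).measurableSet).nullMeasurableSet
  · apply measure_mono_null _ (null_level hf c)
    rintro x ⟨hx1, hx2⟩
    exact le_antisymm hx2.2 hx1.2

/-- `side a b`, up to a constant, as a continuous linear functional. -/
noncomputable def sideL (a b : Plane) : Plane →L[ℝ] ℝ :=
  (b 0 - a 0) • EuclideanSpace.proj (𝕜 := ℝ) (ι := Fin 2) (1 : Fin 2)
    - (b 1 - a 1) • EuclideanSpace.proj (𝕜 := ℝ) (ι := Fin 2) (0 : Fin 2)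

lemma sideL_apply (a b x : Plane) : sideL a b x - sideL a b a = side a b x := by
  simp [sideL, side]; ring

lemma sideL_eq (a b : Plane) : sideL a b a = sideL a b b := by
  have := sideL_apply a b b
  rw [side_right] at this
  linarith

lemma sideL_ne {a b : Plane} (h : a ≠ b) : sideL a b ≠ 0 := by
  intro h0
  obtain ⟨x, -, hx⟩ := exists_side_ne (P := univ) (by simp) h
  rw [← sideL_apply, h0] at hx
  simp at hx

/-! ### The pentagon -/

lemma pV_mem : pV ∈ penta := subset_convexHull ℝ _ (by simp)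
lemma pX_mem : pX ∈ penta := subset_convexHull ℝ _ (by simp)
lemma pA_mem : pA ∈ penta := subset_convexHull ℝ _ (by simp)
lemma pB_mem : pB ∈ penta := subset_convexHull ℝ _ (by simp)
lemma pY_mem : pY ∈ penta := subset_convexHull ℝ _ (by simp)

lemma side_VYB : side pV pY pB = 6534840 := by
  simp only [side, pV0, pV1, pY0, pY1, pB0, pB1]; norm_num
lemma side_VBA : side pV pB pA = 6534840 := by
  simp only [side, pV0, pV1, pA0, pA1, pB0, pB1]; norm_num
lemma side_VAX : side pV pA pX = 6534840 := by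
  simp only [side, pV0, pV1, pA0, pA1, pX0, pX1]; norm_num
lemma side_VYX : side pV pY pX = 13069680 := by
  simp only [side, pV0, pV1, pY0, pY1, pX0, pX1]; norm_num

lemma penta_ineq {x : Plane} (hx : x ∈ penta) :
    0 ≤ side pV pY x ∧ 0 ≤ side pY pB x ∧ 0 ≤ side pB pA x ∧ 0 ≤ side pA pX x ∧
      0 ≤ side pX pV x := by
  have key : ∀ a b : Plane, 0 ≤ side a b pV → 0 ≤ side a b pX → 0 ≤ side a b pA →
      0 ≤ side a b pB → 0 ≤ side a b pY → 0 ≤ side a b x := by
    intro a b h1 h2 h3 h4 h5
    have : penta ⊆ {x | 0 ≤ side a b x} := by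
      apply convexHull_min _ (convex_side_nonneg a b)
      rintro y (rfl | rfl | rfl | rfl | rfl) <;> assumption
    exact this hx
  refine ⟨?_, ?_, ?_, ?_, ?_⟩ <;> apply key <;>
    simp only [side, pV0, pV1, pA0, pA1, pB0, pB1, pX0, pX1, pY0, pY1] <;> norm_num

/-- right, middle, left triangles -/
noncomputable def T1 : Set Plane := tri pV pY pB
noncomputable def T2 : Set Plane := tri pV pB pA
noncomputable def T3 : Set Plane := tri pV pA pX
/-- the part below the diagonal -/
noncomputable def lowT : Set Plane := tri pV pY pX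
/-- the part above the diagonal -/
noncomputable def upU : Set Plane := {x ∈ penta | 0 ≤ side pX pY x}

lemma tri_sub {a b c : Plane} (ha : a ∈ penta) (hb : b ∈ penta) (hc : c ∈ penta) :
    tri a b c ⊆ penta := by
  apply convexHull_min _ (convex_convexHull ℝ _)
  rintro y (rfl | rfl | rfl) <;> assumption

lemma body1 : IsConvexBody T1 := isConvexBody_tri (by rw [side_VYB]; norm_num)
lemma body2 : IsConvexBody T2 := isConvexBody_tri (by rw [side_VBA]; norm_num)
lemma body3 : IsConvexBody T3 := isConvexBody_tri (by rw [side_VAX]; norm_num)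
lemma bodyLow : IsConvexBody lowT := isConvexBody_tri (by rw [side_VYX]; norm_num)

lemma vol1 : volume T1 = ENNReal.ofReal 3267420 := by
  rw [T1, volume_tri (by rw [side_VYB]; norm_num), side_VYB]; norm_num
lemma vol2 : volume T2 = ENNReal.ofReal 3267420 := by
  rw [T2, volume_tri (by rw [side_VBA]; norm_num), side_VBA]; norm_num
lemma vol3 : volume T3 = ENNReal.ofReal 3267420 := by
  rw [T3, volume_tri (by rw [side_VAX]; norm_num), side_VAX]; norm_num
lemma volLow : volume lowT = ENNReal.ofReal 6534840 := by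
  rw [lowT, volume_tri (by rw [side_VYX]; norm_num), side_VYX]; norm_num

lemma bodyC : IsConvexBody penta := by
  refine ⟨(Set.toFinite _).isCompact_convexHull ℝ, convex_convexHull ℝ _, ?_⟩
  exact body1.2.2.mono (interior_mono (tri_sub pV_mem pY_mem pB_mem))

lemma mem1 (x : Plane) : x ∈ T1 ↔ 0 ≤ side pV pY x ∧ 0 ≤ side pY pB x ∧ 0 ≤ side pB pV x :=
  mem_tri (by rw [side_VYB]; norm_num)
lemma mem2 (x : Plane) : x ∈ T2 ↔ 0 ≤ side pV pB x ∧ 0 ≤ side pB pA x ∧ 0 ≤ side pA pV x :=
  mem_tri (by rw [side_VBA]; norm_num)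
lemma mem3 (x : Plane) : x ∈ T3 ↔ 0 ≤ side pV pA x ∧ 0 ≤ side pA pX x ∧ 0 ≤ side pX pV x :=
  mem_tri (by rw [side_VAX]; norm_num)
lemma memLow (x : Plane) : x ∈ lowT ↔ 0 ≤ side pV pY x ∧ 0 ≤ side pY pX x ∧ 0 ≤ side pX pV x :=
  mem_tri (by rw [side_VYX]; norm_num)

lemma cover : T3 ∪ T2 ∪ T1 = penta := by
  apply Subset.antisymm
  · rintro x ((h | h) | h)
    · exact tri_sub pV_mem pA_mem pX_mem h
    · exact tri_sub pV_mem pB_mem pA_mem h
    · exact tri_sub pV_mem pY_mem pB_mem h
  · intro x hx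
    obtain ⟨h1, h2, h3, h4, h5⟩ := penta_ineq hx
    rcases le_or_gt 0 (side pV pA x) with h6 | h6
    · left; left; rw [mem3]; exact ⟨h6, h4, h5⟩
    · rcases le_or_gt 0 (side pV pB x) with h7 | h7
      · left; right; rw [mem2]
        refine ⟨h7, h3, ?_⟩
        rw [side_swap]; linarith
      · right; rw [mem1]
        refine ⟨h1, h2, ?_⟩
        rw [side_swap]; linarith

lemma VA_ne : pV ≠ pA := by
  intro h
  have := congrArg (fun p : Plane => p 1) h
  simp at this

lemma VB_ne : pV ≠ pB := by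
  intro h
  have := congrArg (fun p : Plane => p 1) h
  simp at this

lemma XY_ne : pX ≠ pY := by
  intro h
  have := congrArg (fun p : Plane => p 0) h
  simp at this
  norm_num at this

lemma disj32 : Disjoint (interior T3) (interior T2) := by
  apply (disj_of_side VA_ne (P := T2) (Q := T3) _ _).symm
  · intro x hx
    have := ((mem2 x).1 hx).2.2
    rw [side_swap] at this
    linarith
  · intro x hx
    exact ((mem3 x).1 hx).1

lemma disj21 : Disjoint (interior T2) (interior T1) := by
  apply (disj_of_side VB_ne (P := T1) (Q := T2) _ _).symm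
  · intro x hx
    have := ((mem1 x).1 hx).2.2
    rw [side_swap] at this
    linarith
  · intro x hx
    exact ((mem2 x).1 hx).1

lemma disj31 : Disjoint (interior T3) (interior T1) := by
  apply (disj_of_side VA_ne (P := T1) (Q := T3) _ _).symm
  · have : T1 ⊆ {x | side pV pA x ≤ 0} := by
      apply convexHull_min _ (convex_side_nonpos pV pA)
      rintro y (rfl | rfl | rfl) <;>
        simp only [mem_ofPred_eq, side, pV0, pV1, pA0, pA1, pB0, pB1, pX0, pX1, pY0, pY1] <;>
        norm_num
    exact this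
  · intro x hx
    exact ((mem3 x).1 hx).1

lemma part0 : Part T3 T2 T1 :=
  ⟨body3, body2, body1, disj32, disj31, disj21, cover, vol3, vol2, vol1⟩

lemma aedisj {P Q : Set Plane} (hP : IsConvexBody P) (hQ : IsConvexBody Q)
    (h : Disjoint (interior P) (interior Q)) : AEDisjoint volume P Q := by
  have h1 : P ∩ Q ⊆ frontier P := by
    rintro x ⟨hx1, hx2⟩
    refine ⟨subset_closure hx1, fun hx3 => ?_⟩
    exact disjoint_left.1 (disjoint_interior_left hQ h) hx3 hx2
  exact measure_mono_null h1 (hP.2.1.addHaar_frontier volume)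

lemma Part.vol {P Q R : Set Plane} (h : Part P Q R) : volume penta = ENNReal.ofReal 9802260 := by
  have d1 := aedisj h.hP h.hQ h.hPQ
  have d2 : AEDisjoint volume (P ∪ Q) R := by
    apply AEDisjoint.union_left (aedisj h.hP h.hR h.hPR) (aedisj h.hQ h.hR h.hQR)
  rw [← h.cov, measure_union₀ h.hR.1.measurableSet.nullMeasurableSet d2,
    measure_union₀ h.hQ.1.measurableSet.nullMeasurableSet d1, h.vP, h.vQ, h.vR,
    ← ENNReal.ofReal_add (by norm_num) (by norm_num),
    ← ENNReal.ofReal_add (by norm_num) (by norm_num)]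
  norm_num

lemma vol_penta : volume penta = ENNReal.ofReal 9802260 := part0.vol

lemma vol_third : volume penta / (3 : ℕ) = ENNReal.ofReal 3267420 := by
  rw [vol_penta, ← ENNReal.ofReal_natCast 3, ← ENNReal.ofReal_div_of_pos (by norm_num)]
  norm_num

lemma lowT_eq : lowT = {x ∈ penta | side pX pY x ≤ 0} := by
  apply Subset.antisymm
  · intro x hx
    refine ⟨tri_sub pV_mem pY_mem pX_mem hx, ?_⟩
    have := ((memLow x).1 hx).2.1
    rw [side_swap] at this
    linarith
  · rintro x ⟨hx, hx'⟩
    obtain ⟨h1, h2, h3, h4, h5⟩ := penta_ineq hx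
    rw [memLow]
    refine ⟨h1, ?_, h5⟩
    rw [side_swap]; linarith

lemma upU_eq : upU = {x ∈ penta | sideL pX pY pX ≤ sideL pX pY x} := by
  ext x
  simp only [upU, mem_ofPred_eq, ← sideL_apply pX pY x, sub_nonneg]

lemma lowT_eq' : lowT = {x ∈ penta | sideL pX pY x ≤ sideL pX pY pX} := by
  rw [lowT_eq]
  ext x
  simp only [mem_ofPred_eq, ← sideL_apply pX pY x, sub_nonpos]

lemma volUp : volume upU = ENNReal.ofReal 3267420 := by
  have h := split_volume bodyC.1.measurableSet (sideL_ne XY_ne) (sideL pX pY pX)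
  rw [← upU_eq, ← lowT_eq', vol_penta, volLow] at h
  have h2 : ENNReal.ofReal 9802260 = ENNReal.ofReal 3267420 + ENNReal.ofReal 6534840 := by
    rw [← ENNReal.ofReal_add (by norm_num) (by norm_num)]; norm_num
  rw [h2] at h
  exact ((ENNReal.add_left_inj ENNReal.ofReal_ne_top).1 h).symm

lemma upU_compact : IsCompact upU := by
  have : upU = penta ∩ {x | 0 ≤ side pX pY x} := rfl
  rw [this]
  exact bodyC.1.inter_right (isClosed_side_nonneg _ _)

lemma upU_convex : Convex ℝ upU := bodyC.2.1.inter (convex_side_nonneg _ _)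

lemma bodyUp : IsConvexBody upU :=
  body_of_volume_pos upU_compact upU_convex (by rw [volUp]; simp)

lemma up_low_disj : Disjoint (interior upU) (interior lowT) := by
  apply (disj_of_side XY_ne (P := lowT) (Q := upU) _ _).symm
  · intro x hx; rw [lowT_eq] at hx; exact hx.2
  · intro x hx; exact hx.2

lemma up_union_low : upU ∪ lowT = penta := by
  rw [lowT_eq]
  ext x
  simp only [upU, mem_union, mem_ofPred_eq]
  constructor
  · rintro (h | h) <;> exact h.1
  · intro h
    rcases le_total 0 (side pX pY x) with h' | h'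
    · exact Or.inl ⟨h, h'⟩
    · exact Or.inr ⟨h, h'⟩

end Pool.Agent.Helper38.CP
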