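import Pool.Agent.Helper38.CP.Defs

open MeasureTheory Set Metric
open scoped ENNReal Topology

namespace Pool.Agent.Helper38.CP

/-- Twice the signed area of the triangle `a b x`. -/
def side (a b x : Plane) : ℝ := (b 0 - a 0) * (x 1 - a 1) - (b 1 - a 1) * (x 0 - a 0)

lemma side_combo (a b x y : Plane) {s t : ℝ} (hst : s + t = 1) :
    side a b (s • x + t • y) = s * side a b x + t * side a b y := by
  have hs : s = 1 - t := by linarith
  subst hs
  simp only [side, PiLp.add_apply, PiLp.smul_apply, smul_eq_mul]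
  ring

@[simp] lemma side_left (a b : Plane) : side a b a = 0 := by simp [side]
@[simp] lemma side_right (a b : Plane) : side a b b = 0 := by simp [side]; ring

lemma side_swap (a b x : Plane) : side b a x = - side a b x := by simp only [side]; ring
lemma side_rot (a b x : Plane) : side b x a = side a b x := by simp only [side]; ring

lemma continuous_side (a b : Plane) : Continuous (side a b) := by
  unfold side
  fun_prop

lemma convex_side_nonneg (a b : Plane) : Convex ℝ {x | 0 ≤ side a b x} := by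
  intro x hx y hy s t hs ht hst
  simp only [mem_ofPred_eq] at *
  rw [side_combo _ _ _ _ hst]
  positivity

lemma convex_side_nonpos (a b : Plane) : Convex ℝ {x | side a b x ≤ 0} := by
  intro x hx y hy s t hs ht hst
  simp only [mem_ofPred_eq] at *
  rw [side_combo _ _ _ _ hst]
  nlinarith

lemma isClosed_side_nonneg (a b : Plane) : IsClosed {x | 0 ≤ side a b x} :=
  isClosed_le continuous_const (continuous_side a b)

lemma isClosed_side_nonpos (a b : Plane) : IsClosed {x | side a b x ≤ 0} :=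
  isClosed_le (continuous_side a b) continuous_const

lemma plane_ext {x y : Plane} (h0 : x 0 = y 0) (h1 : x 1 = y 1) : x = y := by
  ext i; fin_cases i <;> assumption

lemma ne_iff_coord {x y : Plane} (h : x ≠ y) : 0 < (y 0 - x 0) ^ 2 + (y 1 - x 1) ^ 2 := by
  by_contra hcon
  push Not at hcon
  apply h
  have h1 : (y 0 - x 0) ^ 2 = 0 := by nlinarith [sq_nonneg (y 0 - x 0), sq_nonneg (y 1 - x 1)]
  have h2 : (y 1 - x 1) ^ 2 = 0 := by nlinarith [sq_nonneg (y 0 - x 0), sq_nonneg (y 1 - x 1)]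
  apply plane_ext
  · have := pow_eq_zero_iff (two_ne_zero) |>.1 h1; linarith
  · have := pow_eq_zero_iff (two_ne_zero) |>.1 h2; linarith

lemma dist_sq (x y : Plane) : dist x y ^ 2 = (x 0 - y 0) ^ 2 + (x 1 - y 1) ^ 2 := by
  rw [EuclideanSpace.dist_eq, Real.sq_sqrt (by positivity)]
  simp [Fin.sum_univ_two, Real.dist_eq, sq_abs]

/-- A functional with equal values at `u ≠ v` is a multiple of `side u v` (plus a constant). -/
lemma functional_eq_side (f : StrongDual ℝ Plane) {u v : Plane} (huv : u ≠ v) (h : f u = f v) :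
    ∃ κ : ℝ, (∀ x, f x - f u = κ * side u v x) ∧ (f ≠ 0 → κ ≠ 0) := by
  have hrep : ∀ x : Plane, f x = f (EuclideanSpace.single 0 1) * x 0
      + f (EuclideanSpace.single 1 1) * x 1 := by
    intro x
    have hx : x = (x 0) • (EuclideanSpace.single 0 1 : Plane)
        + (x 1) • (EuclideanSpace.single 1 1 : Plane) := by
      apply plane_ext <;> simp
    conv_lhs => rw [hx]
    rw [map_add, map_smul, map_smul, smul_eq_mul, smul_eq_mul]
    ring
  set f0 := f (EuclideanSpace.single 0 1)
  set f1 := f (EuclideanSpace.single 1 1)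
  have hn := ne_iff_coord huv
  set w0 := v 0 - u 0 with hw0
  set w1 := v 1 - u 1 with hw1
  have hfw : f0 * w0 + f1 * w1 = 0 := by
    have h1 := hrep u
    have h2 := hrep v
    rw [hw0, hw1]
    linarith
  set n := w0 ^ 2 + w1 ^ 2 with hn'
  have hn0 : n ≠ 0 := ne_of_gt hn
  set κ := (f1 * w0 - f0 * w1) / n with hκ
  have e0 : f0 = - κ * w1 := by
    rw [hκ]; field_simp; rw [hn']; linear_combination (w0) * hfw
  have e1 : f1 = κ * w0 := by
    rw [hκ]; field_simp; rw [hn']; linear_combination (w1) * hfw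
  refine ⟨κ, ?_, ?_⟩
  · intro x
    rw [hrep x, hrep u, side, e0, e1]
    ring
  · intro hf hk
    apply hf
    ext x
    rw [hrep x, e0, e1, hk]
    simp

lemma exists_side_ne {P : Set Plane} (hP : (interior P).Nonempty) {u v : Plane} (huv : u ≠ v) :
    ∃ x ∈ P, side u v x ≠ 0 := by
  obtain ⟨x, hx⟩ := hP
  by_cases h : side u v x = 0
  · set n : Plane := !₂[-(v 1 - u 1), v 0 - u 0] with hn
    have hcont : Continuous (fun t : ℝ => x + t • n) := by fun_prop
    have h0 : (fun t : ℝ => x + t • n) 0 ∈ interior P := by simpa using hx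
    have hev : ∀ᶠ t in 𝓝 (0 : ℝ), x + t • n ∈ interior P :=
      hcont.continuousAt.eventually (isOpen_interior.mem_nhds h0)
    have hev2 : ∀ᶠ t in 𝓝[>] (0 : ℝ), x + t • n ∈ interior P := hev.filter_mono nhdsWithin_le_nhds
    obtain ⟨t, ht, ht0⟩ := (hev2.and self_mem_nhdsWithin).exists
    refine ⟨x + t • n, interior_subset ht, ?_⟩
    have hpos := ne_iff_coord huv
    have : side u v (x + t • n) = side u v x + t * ((v 0 - u 0) ^ 2 + (v 1 - u 1) ^ 2) := by
      simp only [side, hn, PiLp.add_apply, PiLp.smul_apply, smul_eq_mul]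
      simp
      ring
    rw [this, h, zero_add]
    have ht0' : 0 < t := ht0
    positivity
  · exact ⟨x, interior_subset hx, h⟩

lemma disjoint_interior_left {P Q : Set Plane} (hQ : IsConvexBody Q)
    (h : Disjoint (interior P) (interior Q)) : Disjoint (interior P) Q := by
  have h1 : Disjoint (interior P) (closure (interior Q)) := h.closure_right isOpen_interior
  rw [hQ.2.1.closure_interior_eq_closure_of_nonempty_interior hQ.2.2] at h1
  exact h1.mono_right subset_closure

/-- The line through two common points separates two bodies. -/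
lemma sep {P Q : Set Plane} (hP : IsConvexBody P) (hQ : IsConvexBody Q)
    (h : Disjoint (interior P) (interior Q)) {u v : Plane} (huv : u ≠ v)
    (hu : u ∈ P ∩ Q) (hv : v ∈ P ∩ Q) :
    ((∀ x ∈ P, side u v x ≤ 0) ∧ (∀ x ∈ Q, 0 ≤ side u v x)) ∨
    ((∀ x ∈ P, 0 ≤ side u v x) ∧ (∀ x ∈ Q, side u v x ≤ 0)) := by
  obtain ⟨f, c, hf, hfP, hfQ⟩ := geometric_hahn_banach_of_nonempty_interior hP.2.1 hQ.2.1
    (disjoint_interior_left hQ h) hP.2.2 ⟨u, hu.2⟩
  have e1 : f u = c := le_antisymm (hfP u hu.1) (hfQ u hu.2)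
  have e2 : f v = c := le_antisymm (hfP v hv.1) (hfQ v hv.2)
  obtain ⟨κ, hκ, hκ0⟩ := functional_eq_side f huv (e1.trans e2.symm)
  rcases lt_or_gt_of_ne (hκ0 hf) with hneg | hpos
  · right
    constructor
    · intro x hx
      have h1 := hκ x
      have h2 := hfP x hx
      have h3 : κ * side u v x ≤ 0 := by rw [← h1, e1]; linarith
      by_contra h4
      push Not at h4
      nlinarith
    · intro x hx
      have h1 := hκ x
      have h2 := hfQ x hx
      have h3 : 0 ≤ κ * side u v x := by rw [← h1, e1]; linarith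
      by_contra h4
      push Not at h4
      nlinarith
  · left
    constructor
    · intro x hx
      have h1 := hκ x
      have h2 := hfP x hx
      have h3 : κ * side u v x ≤ 0 := by rw [← h1, e1]; linarith
      by_contra h4
      push Not at h4
      nlinarith
    · intro x hx
      have h1 := hκ x
      have h2 := hfQ x hx
      have h3 : 0 ≤ κ * side u v x := by rw [← h1, e1]; linarith
      by_contra h4
      push Not at h4
      nlinarith

/-- Points strictly between two common points of two pieces are interior to the big body. -/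
lemma mem_interior_of_openSegment {C P Q : Set Plane} (hC : IsConvexBody C)
    (hP : IsConvexBody P) (hQ : IsConvexBody Q) (hPC : P ⊆ C) (hQC : Q ⊆ C)
    (h : Disjoint (interior P) (interior Q)) {u v m : Plane} (huv : u ≠ v)
    (hu : u ∈ P ∩ Q) (hv : v ∈ P ∩ Q) (hm : m ∈ openSegment ℝ u v) : m ∈ interior C := by
  by_contra hmC
  obtain ⟨g, hg, hgC⟩ := geometric_hahn_banach_of_nonempty_interior_point hC.2.1 hmC hC.2.2
  obtain ⟨s, t, hs, ht, hst, rfl⟩ := hm
  have h1 := hgC u (hPC hu.1)
  have h2 := hgC v (hPC hv.1)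
  rw [map_add, map_smul, map_smul, smul_eq_mul, smul_eq_mul] at h1 h2
  have hs' : s = 1 - t := by linarith
  have h3 : g u = g v := by
    apply le_antisymm
    · by_contra hcon
      push Not at hcon
      rw [hs'] at h1
      nlinarith
    · by_contra hcon
      push Not at hcon
      rw [hs'] at h2
      nlinarith
  obtain ⟨κ, hκ, hκ0⟩ := functional_eq_side g huv h3
  have hκ1 := hκ0 hg
  have h4 : ∀ x ∈ C, κ * side u v x ≤ 0 := by
    intro x hx
    rw [← hκ x]
    have := hgC x hx
    rw [map_add, map_smul, map_smul, smul_eq_mul, smul_eq_mul, ← h3, hs'] at this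
    linarith
  obtain ⟨p, hp, hp'⟩ := exists_side_ne hP.2.2 huv
  obtain ⟨q, hq, hq'⟩ := exists_side_ne hQ.2.2 huv
  have h5 := h4 p (hPC hp)
  have h6 := h4 q (hQC hq)
  rcases sep hP hQ h huv hu hv with ⟨h7, h8⟩ | ⟨h7, h8⟩
  · have h9 := lt_of_le_of_ne (h7 p hp) hp'
    have h10 := lt_of_le_of_ne (h8 q hq) (Ne.symm hq')
    rcases lt_or_gt_of_ne hκ1 with hneg | hpos
    · nlinarith
    · nlinarith
  · have h9 := lt_of_le_of_ne (h7 p hp) (Ne.symm hp')
    have h10 := lt_of_le_of_ne (h8 q hq) hq'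
    rcases lt_or_gt_of_ne hκ1 with hneg | hpos
    · nlinarith
    · nlinarith

/-- The common part of two pieces is empty or a segment. -/
lemma inter_eq_segment {P Q : Set Plane} (hP : IsConvexBody P) (hQ : IsConvexBody Q)
    (h : Disjoint (interior P) (interior Q)) (hne : (P ∩ Q).Nonempty) :
    ∃ a b, a ∈ P ∩ Q ∧ b ∈ P ∩ Q ∧ P ∩ Q = segment ℝ a b := by
  have hK : IsCompact (P ∩ Q) := hP.1.inter hQ.1
  have hconv : Convex ℝ (P ∩ Q) := hP.2.1.inter hQ.2.1
  have hcont : ContinuousOn (fun p : Plane × Plane => dist p.1 p.2) ((P ∩ Q) ×ˢ (P ∩ Q)) :=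
    continuous_dist.continuousOn
  obtain ⟨p, hp, hmax⟩ := (hK.prod hK).exists_isMaxOn (hne.prod hne) hcont
  obtain ⟨a, b⟩ := p
  have ha : a ∈ P ∩ Q := hp.1
  have hb : b ∈ P ∩ Q := hp.2
  have hmax' : ∀ x ∈ P ∩ Q, ∀ y ∈ P ∩ Q, dist x y ≤ dist a b := by
    intro x hx y hy
    have := isMaxOn_iff.1 hmax (x, y) ⟨hx, hy⟩
    exact this
  refine ⟨a, b, ha, hb, Subset.antisymm ?_ (hconv.segment_subset ha hb)⟩
  intro z hz
  by_cases hab : a = b
  · subst hab
    have := hmax' a ha z hz
    rw [dist_self] at this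
    have : dist a z = 0 := le_antisymm this dist_nonneg
    rw [dist_eq_zero] at this
    rw [this]
    exact left_mem_segment ℝ z z
  · have hs : side a b z = 0 := by
      rcases sep hP hQ h hab ha hb with ⟨h1, h2⟩ | ⟨h1, h2⟩
      · exact le_antisymm (h1 z hz.1) (h2 z hz.2)
      · exact le_antisymm (h2 z hz.2) (h1 z hz.1)
    have hn := ne_iff_coord hab
    set w0 := b 0 - a 0 with hw0
    set w1 := b 1 - a 1 with hw1
    set n := w0 ^ 2 + w1 ^ 2 with hn'
    have hn0 : n ≠ 0 := ne_of_gt hn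
    set t := ((z 0 - a 0) * w0 + (z 1 - a 1) * w1) / n with ht
    have hs' : w0 * (z 1 - a 1) - w1 * (z 0 - a 0) = 0 := hs
    have e0 : z 0 - a 0 = t * w0 := by
      rw [ht]; field_simp; rw [hn']; linear_combination (- w1) * hs'
    have e1 : z 1 - a 1 = t * w1 := by
      rw [ht]; field_simp; rw [hn']; linear_combination (w0) * hs'
    have hab2 : dist a b ^ 2 = n := by
      rw [dist_sq, hn', hw0, hw1]; ring
    have hza := hmax' z hz a ha
    have hzb := hmax' z hz b hb
    have hza2 : dist z a ^ 2 ≤ n := by rw [← hab2]; gcongr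
    have hzb2 : dist z b ^ 2 ≤ n := by rw [← hab2]; gcongr
    rw [dist_sq] at hza2 hzb2
    have e0' : z 0 - b 0 = (t - 1) * w0 := by rw [hw0] at e0 ⊢; linarith
    have e1' : z 1 - b 1 = (t - 1) * w1 := by rw [hw1] at e1 ⊢; linarith
    rw [e0, e1] at hza2
    rw [e0', e1'] at hzb2
    have h1 : t ^ 2 * n ≤ 1 * n := by rw [hn'] at hza2 ⊢; nlinarith
    have h2 : (t - 1) ^ 2 * n ≤ 1 * n := by rw [hn'] at hzb2 ⊢; nlinarith
    have h1' : t ^ 2 ≤ 1 := le_of_mul_le_mul_right h1 hn
    have h2' : (t - 1) ^ 2 ≤ 1 := le_of_mul_le_mul_right h2 hn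
    have ht1 : t ≤ 1 := by nlinarith
    have ht0 : 0 ≤ t := by nlinarith
    refine ⟨1 - t, t, by linarith, ht0, by ring, ?_⟩
    apply plane_ext
    · simp only [PiLp.add_apply, PiLp.smul_apply, smul_eq_mul]
      rw [hw0] at e0
      linarith
    · simp only [PiLp.add_apply, PiLp.smul_apply, smul_eq_mul]
      rw [hw1] at e1
      linarith

/-- Three pieces with pairwise disjoint interiors have at most one common point. -/
lemma triple_subsingleton {P Q R : Set Plane} (hP : IsConvexBody P) (hQ : IsConvexBody Q)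
    (hR : IsConvexBody R) (hPQ : Disjoint (interior P) (interior Q))
    (hPR : Disjoint (interior P) (interior R)) (hQR : Disjoint (interior Q) (interior R)) :
    (P ∩ Q ∩ R).Subsingleton := by
  intro u hu v hv
  by_contra huv
  obtain ⟨p, hp, hp'⟩ := exists_side_ne hP.2.2 huv
  obtain ⟨q, hq, hq'⟩ := exists_side_ne hQ.2.2 huv
  obtain ⟨r, hr, hr'⟩ := exists_side_ne hR.2.2 huv
  have h1 := sep hP hQ hPQ huv ⟨hu.1.1, hu.1.2⟩ ⟨hv.1.1, hv.1.2⟩
  have h2 := sep hP hR hPR huv ⟨hu.1.1, hu.2⟩ ⟨hv.1.1, hv.2⟩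
  have h3 := sep hQ hR hQR huv ⟨hu.1.2, hu.2⟩ ⟨hv.1.2, hv.2⟩
  rcases h1 with ⟨a1, a2⟩ | ⟨a1, a2⟩ <;> rcases h2 with ⟨b1, b2⟩ | ⟨b1, b2⟩ <;>
    rcases h3 with ⟨c1, c2⟩ | ⟨c1, c2⟩
  · exact hq' (le_antisymm (c1 q hq) (a2 q hq))
  · exact hr' (le_antisymm (c2 r hr) (b2 r hr))
  · exact hp' (le_antisymm (a1 p hp) (b1 p hp))
  · exact hp' (le_antisymm (a1 p hp) (b1 p hp))
  · exact hp' (le_antisymm (b1 p hp) (a1 p hp))
  · exact hp' (le_antisymm (b1 p hp) (a1 p hp))
  · exact hr' (le_antisymm (b2 r hr) (c2 r hr))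
  · exact hq' (le_antisymm (a2 q hq) (c1 q hq))

end Pool.Agent.Helper38.CP
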