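import Pool.Agent.Helper38.CP.Over

open MeasureTheory Measure Set Metric Filter
open scoped ENNReal Topology

namespace Pool.Agent.Helper38.CP

/-- A convex equipartition of the pentagon into three pieces. -/
structure Part (P Q R : Set Plane) : Prop where
  hP : IsConvexBody P
  hQ : IsConvexBody Q
  hR : IsConvexBody R
  hPQ : Disjoint (interior P) (interior Q)
  hPR : Disjoint (interior P) (interior R)
  hQR : Disjoint (interior Q) (interior R)
  cov : P ∪ Q ∪ R = penta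
  vP : volume P = ENNReal.ofReal 3267420
  vQ : volume Q = ENNReal.ofReal 3267420
  vR : volume R = ENNReal.ofReal 3267420

lemma Part.sP {P Q R : Set Plane} (h : Part P Q R) : P ⊆ penta := by
  rw [← h.cov]; intro x hx; exact Or.inl (Or.inl hx)

lemma Part.sQ {P Q R : Set Plane} (h : Part P Q R) : Q ⊆ penta := by
  rw [← h.cov]; intro x hx; exact Or.inl (Or.inr hx)

lemma Part.sR {P Q R : Set Plane} (h : Part P Q R) : R ⊆ penta := by
  rw [← h.cov]; intro x hx; exact Or.inr hx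

lemma Part.swap12 {P Q R : Set Plane} (h : Part P Q R) : Part Q P R :=
  ⟨h.hQ, h.hP, h.hR, h.hPQ.symm, h.hQR, h.hPR, by rw [union_comm Q P]; exact h.cov,
    h.vQ, h.vP, h.vR⟩

lemma Part.swap23 {P Q R : Set Plane} (h : Part P Q R) : Part P R Q :=
  ⟨h.hP, h.hR, h.hQ, h.hPR, h.hPQ, h.hQR.symm, by
    rw [union_assoc, union_comm R Q, ← union_assoc]; exact h.cov, h.vP, h.vR, h.vQ⟩

lemma Part.contra {P Q R : Set Plane} (h : Part P Q R)
    (nP : ∃ a ∈ P, ∃ b ∈ P, NXY 30 a b) (nQ : ∃ a ∈ Q, ∃ b ∈ Q, NXY 30 a b)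
    (nR : ∃ a ∈ R, ∃ b ∈ R, NXY 30 a b) : False :=
  three_contra h.hP h.hQ h.hR h.hPQ h.hPR h.hQR h.sP h.sQ h.sR h.vP h.vQ h.vR nP nQ nR

lemma len_or {P Q : Set Plane} (hP : IsConvexBody P) (hQ : IsConvexBody Q)
    (h : Disjoint (interior P) (interior Q)) :
    μH[1] (P ∩ Q) = 0 ∨ ∃ a b, a ∈ P ∩ Q ∧ b ∈ P ∩ Q ∧
      μH[1] (P ∩ Q) = ENNReal.ofReal (dist a b) := by
  rcases (P ∩ Q).eq_empty_or_nonempty with he | hne
  · left; rw [he]; simp
  · right
    obtain ⟨a, b, ha, hb, hab⟩ := inter_eq_segment hP hQ h hne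
    exact ⟨a, b, ha, hb, by rw [hab, hausdorffMeasure_segment, edist_dist]⟩

lemma dist_lt_D {x y : Plane} (hx : x ∈ penta) (hy : y ∈ penta) : dist x y ≤ 4262.02 :=
  (dist_penta_le hx hy).trans dXY_le

/-- Two common segments of a middle piece have total length at most `2 * 4261`. -/
lemma two_segments {P Q R : Set Plane} (h : Part P Q R) {a b c d : Plane}
    (ha : a ∈ P ∩ Q) (hb : b ∈ P ∩ Q) (hc : c ∈ Q ∩ R) (hd : d ∈ Q ∩ R) :
    dist a b + dist c d ≤ 8522 := by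
  by_contra hcon
  push Not at hcon
  have a1 := dist_lt_D (h.sP ha.1) (h.sP hb.1)
  have a2 := dist_lt_D (h.sR hc.2) (h.sR hd.2)
  have main : ∀ {P Q R : Set Plane}, Part P Q R → ∀ {a b c d : Plane}, a ∈ P ∩ Q → b ∈ P ∩ Q →
      c ∈ Q ∩ R → d ∈ Q ∩ R → 4261 < dist a b → 4259 < dist c d → False := by
    intro P Q R h a b c d ha hb hc hd h1 h2
    have n1 := (very_long (h.sP ha.1) (h.sP hb.1) h1).mono (by norm_num : (26 : ℝ) ≤ 30)
    rcases long_dichotomy (h.sR hc.2) (h.sR hd.2) h2 with n2 | ⟨n2, -⟩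
    · have n2' := n2.mono (by norm_num : (26 : ℝ) ≤ 30)
      exact h.contra ⟨a, ha.1, b, hb.1, n1⟩ ⟨a, ha.2, b, hb.2, n1⟩ ⟨c, hc.2, d, hd.2, n2'⟩
    · exact no_cross h.hQ h.hP h.hPQ.symm h.sQ (a := a) (b := b) ⟨ha.2, ha.1⟩ ⟨hb.2, hb.1⟩ n1
        hc.1 hd.1 n2
  rcases le_or_gt (dist a b) 4261 with h1 | h1
  · exact main h.swap12.swap23.swap12 (a := c) (b := d) (c := a) (d := b) ⟨hc.2, hc.1⟩
      ⟨hd.2, hd.1⟩ ⟨ha.2, ha.1⟩ ⟨hb.2, hb.1⟩ (by linarith) (by linarith)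
  · exact main h ha hb hc hd h1 (by linarith)

lemma two_len {P Q R : Set Plane} (h : Part P Q R) :
    μH[1] (P ∩ Q) + μH[1] (Q ∩ R) ≤ ENNReal.ofReal 8522 := by
  rcases len_or h.hP h.hQ h.hPQ with h1 | ⟨a, b, ha, hb, h1⟩ <;>
    rcases len_or h.hQ h.hR h.hQR with h2 | ⟨c, d, hc, hd, h2⟩
  · rw [h1, h2]; simp
  · rw [h1, h2, zero_add]
    apply ENNReal.ofReal_le_ofReal
    have := dist_lt_D (h.sQ hc.1) (h.sQ hd.1)
    linarith
  · rw [h1, h2, add_zero]
    apply ENNReal.ofReal_le_ofReal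
    have := dist_lt_D (h.sQ ha.2) (h.sQ hb.2)
    linarith
  · rw [h1, h2, ← ENNReal.ofReal_add dist_nonneg dist_nonneg]
    exact ENNReal.ofReal_le_ofReal (two_segments h ha hb hc hd)

lemma null_of_subsingleton {S : Set Plane} (h : S.Subsingleton) : μH[1] S = 0 :=
  null_of_finite h.finite

/-- Total length of the cuts for non-crossing partitions. -/
lemma len_noncrossing {P Q R : Set Plane} (h : Part P Q R)
    (hn : ¬ ∃ x ∈ interior penta, x ∈ P ∧ x ∈ Q ∧ x ∈ R) (hC : IsConvexBody penta) :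
    μH[1] (P ∩ Q) + μH[1] (P ∩ R) + μH[1] (Q ∩ R) ≤ ENNReal.ofReal 8522 := by
  have hnt : ¬ ((P ∩ Q).Nontrivial ∧ (P ∩ R).Nontrivial ∧ (Q ∩ R).Nontrivial) := by
    rintro ⟨h1, h2, h3⟩
    exact hn (exists_triple_point hC h.hP h.hQ h.hR h.hPQ h.hPR h.hQR h.cov h1 h2 h3)
  by_cases h1 : (P ∩ Q).Nontrivial
  · by_cases h2 : (P ∩ R).Nontrivial
    · have h3 : ¬ (Q ∩ R).Nontrivial := fun h3 => hnt ⟨h1, h2, h3⟩
      rw [null_of_subsingleton (not_nontrivial_iff.1 h3), add_zero]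
      have := two_len h.swap12
      rwa [inter_comm Q P] at this
    · rw [null_of_subsingleton (not_nontrivial_iff.1 h2), add_zero]
      exact two_len h
  · rw [null_of_subsingleton (not_nontrivial_iff.1 h1), zero_add]
    have := two_len h.swap23
    rwa [inter_comm R Q] at this

/-- extension argument -/
lemma near_of_interior {p q : Plane} (hp : p ∈ interior penta) (hq : q ∈ penta)
    (h : 4261 ≤ dist p q) : NXY 27 p q := by
  have hcont : Continuous (fun t : ℝ => p + t • (p - q)) := by fun_prop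
  have h0 : (fun t : ℝ => p + t • (p - q)) 0 = p := by simp
  have hev : ∀ᶠ t in 𝓝 (0 : ℝ), p + t • (p - q) ∈ interior penta :=
    hcont.continuousAt.eventually (by rw [h0]; exact isOpen_interior.mem_nhds hp)
  have hev' : ∀ᶠ t in 𝓝 (0 : ℝ), p + t • (p - q) ∈ ball p 1 :=
    hcont.continuousAt.eventually (by rw [h0]; exact ball_mem_nhds p one_pos)
  have hev2 : ∀ᶠ t in 𝓝[>] (0 : ℝ), p + t • (p - q) ∈ interior penta ∧
      p + t • (p - q) ∈ ball p 1 := (hev.and hev').filter_mono nhdsWithin_le_nhds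
  obtain ⟨t, ⟨ht, ht1⟩, ht0⟩ := (hev2.and self_mem_nhdsWithin).exists
  have ht0' : 0 < t := ht0
  have hd : dist (p + t • (p - q)) q = (1 + t) * dist p q := by
    have : p + t • (p - q) - q = (1 + t) • (p - q) := by module
    rw [dist_eq_norm, dist_eq_norm, this, norm_smul, Real.norm_of_nonneg (by positivity)]
  have hlong : 4261 < dist (p + t • (p - q)) q := by
    rw [hd]
    have : 0 < t * dist p q := mul_pos ht0' (by linarith)
    linarith
  have hn := very_long (interior_subset ht) hq hlong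
  have hclose : dist p (p + t • (p - q)) ≤ 1 := by
    rw [dist_comm]; exact (mem_ball.1 ht1).le
  rcases hn with ⟨h1, h2⟩ | ⟨h1, h2⟩
  · left
    refine ⟨?_, by linarith⟩
    have := dist_triangle p (p + t • (p - q)) pX
    linarith
  · right
    refine ⟨?_, by linarith⟩
    have := dist_triangle p (p + t • (p - q)) pY
    linarith

lemma NXY.coords {ε : ℝ} {x y : Plane} (h : NXY ε x y) (hε : ε ≤ 30) :
    (3031 ≤ x 1 ∧ x 1 ≤ 3102 ∧ 3031 ≤ y 1 ∧ y 1 ≤ 3102) ∧
    ((x 0 ≤ -2102 ∧ 2100 ≤ y 0) ∨ (2100 ≤ x 0 ∧ y 0 ≤ -2102)) := by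
  rcases h with ⟨h1, h2⟩ | ⟨h1, h2⟩
  · obtain ⟨a1, a2, a3, a4⟩ := nearX (h1.trans hε)
    obtain ⟨b1, b2, b3, b4⟩ := nearY (h2.trans hε)
    exact ⟨⟨by linarith, by linarith, by linarith, by linarith⟩, Or.inl ⟨a2, b1⟩⟩
  · obtain ⟨a1, a2, a3, a4⟩ := nearY (h1.trans hε)
    obtain ⟨b1, b2, b3, b4⟩ := nearX (h2.trans hε)
    exact ⟨⟨by linarith, by linarith, by linarith, by linarith⟩, Or.inr ⟨a1, b2⟩⟩

lemma not_NXY_VAB {x y z : Plane} (h1 : NXY 26 x y) (h2 : VAB y z) : False := by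
  obtain ⟨⟨-, -, h3, h4⟩, -⟩ := h1.coords (by norm_num)
  rcases h2 with ⟨h5, h6⟩ | ⟨h5, h6⟩ <;> linarith

lemma not_all_long {q r s : Plane} (hq : q ∈ penta) (hr : r ∈ penta) (hs : s ∈ penta)
    (h1 : 4259 < dist q r) (h2 : 4259 < dist q s) (h3 : 4259 < dist r s) : False := by
  rcases long_dichotomy hq hr h1 with n1 | ⟨n1, -⟩ <;>
    rcases long_dichotomy hq hs h2 with n2 | ⟨n2, -⟩ <;>
    rcases long_dichotomy hr hs h3 with n3 | ⟨n3, -⟩
  · obtain ⟨-, c1⟩ := n1.coords (by norm_num)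
    obtain ⟨-, c2⟩ := n2.coords (by norm_num)
    obtain ⟨-, c3⟩ := n3.coords (by norm_num)
    rcases c1 with ⟨c1, c1'⟩ | ⟨c1, c1'⟩ <;> rcases c2 with ⟨c2, c2'⟩ | ⟨c2, c2'⟩ <;>
      rcases c3 with ⟨c3, c3'⟩ | ⟨c3, c3'⟩ <;> linarith
  · exact not_NXY_VAB n1 n3
  · exact not_NXY_VAB n1.symm n2
  · exact not_NXY_VAB n1 n3
  · exact not_NXY_VAB n2.symm n1
  · exact not_NXY_VAB n2.symm n1
  · exact not_NXY_VAB n3.symm n1.symm
  · rcases n1 with ⟨c1, c1'⟩ | ⟨c1, c1'⟩ <;> rcases n2 with ⟨c2, c2'⟩ | ⟨c2, c2'⟩ <;>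
      rcases n3 with ⟨c3, c3'⟩ | ⟨c3, c3'⟩ <;> linarith

/-- distances from a convex combination -/
lemma dist_combo {p q r s : Plane} {a b c : ℝ} (_ha : 0 ≤ a) (hb : 0 ≤ b) (hc : 0 ≤ c)
    (hsum : a + b + c = 1) (hp : p = a • q + b • r + c • s) :
    dist p q ≤ b * dist q r + c * dist q s := by
  have e : p - q = b • (r - q) + c • (s - q) := by
    have : a = 1 - b - c := by linarith
    rw [hp, this]; module
  rw [dist_eq_norm, e]
  refine (norm_add_le _ _).trans ?_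
  rw [norm_smul, norm_smul, Real.norm_of_nonneg hb, Real.norm_of_nonneg hc,
    ← dist_eq_norm, ← dist_eq_norm, dist_comm r q, dist_comm s q]

/-- case `4261 < dist q s` -/
lemma crossing_aux {P Q R : Set Plane} (h : Part P Q R) {p q r s : Plane}
    (hpP : p ∈ P) (hqP : q ∈ P) (hqQ : q ∈ Q) (_hrP : r ∈ P) (hrR : r ∈ R) (hsQ : s ∈ Q) (hsR : s ∈ R)
    {a b c : ℝ} (ha : 0 ≤ a) (hb : 0 ≤ b) (hc : 0 ≤ c)
    (hsum : a + b + c = 1) (hp : p = a • q + b • r + c • s) (hqr : dist q r ≤ 4259)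
    (hT : 8522 ≤ dist p q + dist p r + dist p s) (hqs : 4261 < dist q s) : False := by
  have d1 := dist_combo ha hb hc hsum hp
  have d2 := dist_combo (q := r) (r := q) (s := s) hb ha hc (by linarith)
    (by rw [hp]; abel : p = b • r + a • q + c • s)
  have d3 := dist_combo (q := s) (r := q) (s := r) hc ha hb (by linarith)
    (by rw [hp]; abel : p = c • s + a • q + b • r)
  rw [dist_comm r q] at d2
  rw [dist_comm s q, dist_comm s r] at d3
  have b1 : dist q s ≤ 4262.02 := dist_lt_D (h.sP hqP) (h.sR hsR)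
  have b2 : dist r s ≤ 4262.02 := dist_lt_D (h.sR hrR) (h.sR hsR)
  have n1 := very_long (h.sP hqP) (h.sR hsR) hqs
  -- products
  have m1 : a * dist q r ≤ a * 4259 := mul_le_mul_of_nonneg_left hqr ha
  have m2 : b * dist q r ≤ b * 4259 := mul_le_mul_of_nonneg_left hqr hb
  have m3 : a * dist q s ≤ a * 4262.02 := mul_le_mul_of_nonneg_left b1 ha
  have m4 : c * dist q s ≤ c * 4262.02 := mul_le_mul_of_nonneg_left b1 hc
  have hlong : 4259 < dist r s := by
    by_contra hcon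
    push Not at hcon
    have m5 : b * dist r s ≤ b * 4259 := mul_le_mul_of_nonneg_left hcon hb
    have m6 : c * dist r s ≤ c * 4259 := mul_le_mul_of_nonneg_left hcon hc
    linarith
  have n2 : NXY 26 r s := by
    rcases long_dichotomy (h.sR hrR) (h.sR hsR) hlong with n2 | ⟨n2, -⟩
    · exact n2
    · exact absurd (not_NXY_VAB n1 n2.symm) id
  have hqr' : dist q r ≤ 52 := by
    have h1 := dist_triangle_right q r pX
    have h2 := dist_triangle_right q r pY
    have h3 := dist_triangle_left pX pY s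
    have h4 := le_dXY
    rcases n1 with ⟨e1, e2⟩ | ⟨e1, e2⟩ <;> rcases n2 with ⟨f1, f2⟩ | ⟨f1, f2⟩
    · linarith
    · linarith
    · linarith
    · linarith
  have m1' : a * dist q r ≤ a * 52 := mul_le_mul_of_nonneg_left hqr' ha
  have m2' : b * dist q r ≤ b * 52 := mul_le_mul_of_nonneg_left hqr' hb
  have m5 : b * dist r s ≤ b * 4262.02 := mul_le_mul_of_nonneg_left b2 hb
  have m6 : c * dist r s ≤ c * 4262.02 := mul_le_mul_of_nonneg_left b2 hc
  have hc' : 1 - c ≤ 0.0005 := by linarith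
  have hps : dist p s ≤ 2.2 := by linarith
  have n3 : NXY 30 q p := by
    have h1 := dist_triangle p s pX
    have h2 := dist_triangle p s pY
    rcases n1 with ⟨e1, e2⟩ | ⟨e1, e2⟩
    · exact Or.inl ⟨by linarith, by linarith⟩
    · exact Or.inr ⟨by linarith, by linarith⟩
  exact h.contra ⟨q, hqP, p, hpP, n3⟩ ⟨q, hqQ, s, hsQ, n1.mono (by norm_num)⟩
    ⟨r, hrR, s, hsR, n2.mono (by norm_num)⟩

/-- crossing case with one short side -/
lemma crossing_one {P Q R : Set Plane} (h : Part P Q R) {p q r s : Plane}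
    (hpi : p ∈ interior penta)
    (hpP : p ∈ P) (hqP : q ∈ P) (hqQ : q ∈ Q) (hrP : r ∈ P) (hrR : r ∈ R) (hsQ : s ∈ Q) (hsR : s ∈ R)
    {a b c : ℝ} (ha : 0 ≤ a) (hb : 0 ≤ b) (hc : 0 ≤ c)
    (hsum : a + b + c = 1) (hp : p = a • q + b • r + c • s) (hqr : dist q r ≤ 4259) :
    dist p q + dist p r + dist p s < 8522 := by
  by_contra hT
  push Not at hT
  rcases lt_or_ge 4261 (dist q s) with hqs | hqs
  · exact crossing_aux h hpP hqP hqQ hrP hrR hsQ hsR ha hb hc hsum hp hqr hT hqs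
  rcases lt_or_ge 4261 (dist r s) with hrs | hrs
  · exact crossing_aux h.swap23 hpP hrP hrR hqP hqQ hsR hsQ hb ha hc (by linarith)
      (by rw [hp]; abel) (by rw [dist_comm]; exact hqr) (by linarith) hrs
  have d1 := dist_combo ha hb hc hsum hp
  have d2 := dist_combo (q := r) (r := q) (s := s) hb ha hc (by linarith)
    (by rw [hp]; abel : p = b • r + a • q + c • s)
  have d3 := dist_combo (q := s) (r := q) (s := r) hc ha hb (by linarith)
    (by rw [hp]; abel : p = c • s + a • q + b • r)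
  rw [dist_comm r q] at d2
  rw [dist_comm s q, dist_comm s r] at d3
  have m1 : a * dist q r ≤ a * 4259 := mul_le_mul_of_nonneg_left hqr ha
  have m2 : b * dist q r ≤ b * 4259 := mul_le_mul_of_nonneg_left hqr hb
  have m3 : a * dist q s ≤ a * 4261 := mul_le_mul_of_nonneg_left hqs ha
  have m4 : c * dist q s ≤ c * 4261 := mul_le_mul_of_nonneg_left hqs hc
  have m5 : b * dist r s ≤ b * 4261 := mul_le_mul_of_nonneg_left hrs hb
  have m6 : c * dist r s ≤ c * 4261 := mul_le_mul_of_nonneg_left hrs hc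
  have hc1 : 1 ≤ c := by linarith
  have ha0 : a = 0 := by linarith
  have hb0 : b = 0 := by linarith
  have hc0 : c = 1 := by linarith
  have hps : p = s := by rw [hp, ha0, hb0, hc0]; simp
  rw [hps, dist_self] at hT
  rw [dist_comm s q, dist_comm s r] at hT
  have n1 : NXY 27 p q := near_of_interior hpi (h.sP hqP) (by rw [hps, dist_comm]; linarith)
  have n2 : NXY 27 p r := near_of_interior hpi (h.sP hrP) (by rw [hps, dist_comm]; linarith)
  have hpQ : p ∈ Q := hps ▸ hsQ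
  have hpR : p ∈ R := hps ▸ hsR
  exact h.contra ⟨p, hpP, q, hqP, n1.mono (by norm_num)⟩ ⟨p, hpQ, q, hqQ, n1.mono (by norm_num)⟩
    ⟨p, hpR, r, hrR, n2.mono (by norm_num)⟩

/-- Total length of the cuts for crossing partitions. -/
lemma len_crossing {P Q R : Set Plane} (h : Part P Q R)
    (hx : ∃ x ∈ interior penta, x ∈ P ∧ x ∈ Q ∧ x ∈ R) :
    μH[1] (P ∩ Q) + μH[1] (P ∩ R) + μH[1] (Q ∩ R) < ENNReal.ofReal 8522 := by
  obtain ⟨p, hpi, hpP, hpQ, hpR⟩ := hx
  obtain ⟨q, hqP, hqQ, hq⟩ := inter_eq_segment_of_triple h.hP h.hQ h.hR h.hPQ h.hPR h.hQR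
    hpP hpQ hpR
  obtain ⟨r, hrP, hrR, hr⟩ := inter_eq_segment_of_triple h.hP h.hR h.hQ h.hPR h.hPQ h.hQR.symm
    hpP hpR hpQ
  obtain ⟨s, hsQ, hsR, hs⟩ := inter_eq_segment_of_triple h.hQ h.hR h.hP h.hQR h.hPQ.symm
    h.hPR.symm hpQ hpR hpP
  have hhull := triple_mem_convexHull h.hP h.hQ h.hR h.hPQ h.hPR h.hQR h.cov hpi hpP hpQ hpR hq hr hs
  rw [hq, hr, hs, hausdorffMeasure_segment, hausdorffMeasure_segment, hausdorffMeasure_segment,
    edist_dist, edist_dist, edist_dist, ← ENNReal.ofReal_add dist_nonneg dist_nonneg,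
    ← ENNReal.ofReal_add (add_nonneg dist_nonneg dist_nonneg) dist_nonneg,
    ENNReal.ofReal_lt_ofReal_iff (by norm_num)]
  rw [convexHull_insert (by simp), convexHull_pair] at hhull
  obtain ⟨q', hq', m, hm, hpm⟩ := mem_convexJoin.1 hhull
  rw [mem_singleton_iff] at hq'
  subst hq'
  obtain ⟨u, v, hu, hv, huv, rfl⟩ := hm
  obtain ⟨a, t, ha, ht, hat, hp⟩ := hpm
  have hp' : p = a • q' + (t * u) • r + (t * v) • s := by
    rw [← hp, smul_add, smul_smul, smul_smul, add_assoc]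
  have hsum : a + t * u + t * v = 1 := by rw [add_assoc, ← mul_add, huv, mul_one, hat]
  have hb : 0 ≤ t * u := mul_nonneg ht hu
  have hc : 0 ≤ t * v := mul_nonneg ht hv
  rcases le_or_gt (dist q' r) 4259 with h1 | h1
  · exact crossing_one h hpi hpP hqP hqQ hrP hrR hsQ hsR ha hb hc hsum hp' h1
  rcases le_or_gt (dist q' s) 4259 with h2 | h2
  · have := crossing_one h.swap12 hpi hpQ hqQ hqP hsQ hsR hrP hrR ha hc hb (by linarith)
      (by rw [hp']; abel) h2
    linarith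
  rcases le_or_gt (dist r s) 4259 with h3 | h3
  · have := crossing_one h.swap23.swap12 hpi hpR hrR hrP hsR hsQ hqP hqQ hb hc ha (by linarith)
      (by rw [hp']; abel) h3
    linarith
  exact absurd (not_all_long (h.sP hqP) (h.sP hrP) (h.sQ hsQ) h1 h2 h3) id

end Pool.Agent.Helper38.CP
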