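import Pool.Agent.Helper38.CP.Tri

open MeasureTheory Measure Set Metric Filter
open scoped ENNReal Topology

namespace Pool.Agent.Helper38.CP

lemma null_level {f : Plane →L[ℝ] ℝ} (hf : f ≠ 0) (c : ℝ) : volume {x | f x = c} = 0 := by
  set S : Set Plane := {x | f x = c} with hS
  have hconv : Convex ℝ S := by
    intro a ha b hb s t _ _ hst
    simp only [hS, mem_ofPred_eq] at *
    rw [map_add, map_smul, map_smul, ha, hb, smul_eq_mul, smul_eq_mul, ← add_mul, hst, one_mul]
  have hcl : IsClosed S := isClosed_eq f.continuous continuous_const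
  have hint : interior S = ∅ := by
    by_contra hne
    obtain ⟨x, hx⟩ := nonempty_iff_ne_empty.2 hne
    have hopen := f.isOpenMap_of_ne_zero hf _ (isOpen_interior (s := S))
    have hsub : f '' interior S ⊆ {c} := by
      rintro _ ⟨y, hy, rfl⟩
      have hy' : y ∈ S := interior_subset hy
      exact hy'
    have h1 : f x ∈ interior ({c} : Set ℝ) := interior_maximal hsub hopen ⟨x, hx, rfl⟩
    rw [interior_singleton] at h1
    exact h1
  have hfr : S = frontier S := by
    rw [frontier, hcl.closure_eq, hint, sdiff_empty]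
  rw [hfr]
  exact hconv.addHaar_frontier volume

/-- area of the part of `K` in a half-plane -/
noncomputable def capArea (K : Set Plane) (p : Plane × ℝ) : ℝ :=
  volume.real {x ∈ K | p.2 ≤ inner ℝ p.1 x}

lemma continuousAt_capArea {K : Set Plane} (hK : IsCompact K) (p : Plane × ℝ) (hp : p.1 ≠ 0) :
    ContinuousAt (capArea K) p := by
  have hKm : MeasurableSet K := hK.measurableSet
  have hrep : capArea K = fun q : Plane × ℝ =>
      ∫ x in K, ({x : Plane | q.2 ≤ inner ℝ q.1 x}).indicator (fun _ => (1 : ℝ)) x := by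
    funext q
    have hm : MeasurableSet {x : Plane | q.2 ≤ inner ℝ q.1 x} :=
      (isClosed_le continuous_const (by fun_prop)).measurableSet
    rw [integral_indicator_const _ hm]
    simp only [capArea, smul_eq_mul, mul_one]
    rw [measureReal_restrict_apply hm]
    congr 1
    ext x
    simp [and_comm]
  rw [hrep]
  have hfin : IsFiniteMeasure (volume.restrict K) := ⟨by
    rw [Measure.restrict_apply_univ]; exact hK.measure_lt_top⟩
  apply continuousAt_of_dominated (bound := fun _ => (1 : ℝ))
  · filter_upwards with q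
    have hm : MeasurableSet {x : Plane | q.2 ≤ inner ℝ q.1 x} :=
      (isClosed_le continuous_const (by fun_prop)).measurableSet
    exact (measurable_const.indicator hm).aestronglyMeasurable
  · filter_upwards with q
    filter_upwards with x
    by_cases h : x ∈ {x : Plane | q.2 ≤ inner ℝ q.1 x}
    · rw [indicator_of_mem h]; simp
    · rw [indicator_of_notMem h]; simp
  · exact integrable_const 1
  · have hne : (innerSL ℝ p.1 : Plane →L[ℝ] ℝ) ≠ 0 := by
      intro h
      apply hp
      have := congrArg (fun g : Plane →L[ℝ] ℝ => g p.1) h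
      simp only [innerSL_apply_apply, _root_.zero_apply] at this
      exact inner_self_eq_zero.1 this
    have hnull : volume {x : Plane | inner ℝ p.1 x = p.2} = 0 := by
      have := null_level hne p.2
      simpa [innerSL_apply_apply] using this
    have hnull' : (volume.restrict K) {x : Plane | inner ℝ p.1 x = p.2} = 0 :=
      le_antisymm ((Measure.restrict_le_self _).trans hnull.le) (zero_le)
    have hae : ∀ᵐ x ∂(volume.restrict K), inner ℝ p.1 x ≠ p.2 := by
      rw [ae_iff]; simpa using hnull'
    filter_upwards [hae] with x hx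
    have hc : Continuous (fun q : Plane × ℝ => (inner ℝ q.1 x : ℝ) - q.2) := by fun_prop
    rcases lt_or_gt_of_ne hx with h | h
    · have h1 : ∀ᶠ q in 𝓝 p, (inner ℝ q.1 x : ℝ) - q.2 < 0 :=
        hc.continuousAt.eventually_lt continuousAt_const (by simpa using h)
      have h2 : (fun q : Plane × ℝ => ({x : Plane | q.2 ≤ inner ℝ q.1 x}).indicator
          (fun _ => (1 : ℝ)) x) =ᶠ[𝓝 p] fun _ => 0 := by
        filter_upwards [h1] with q hq
        apply indicator_of_notMem
        simp only [mem_ofPred_eq, not_le]
        linarith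
      exact (continuousAt_const (y := (0 : ℝ))).congr h2.symm
    · have h1 : ∀ᶠ q in 𝓝 p, 0 < (inner ℝ q.1 x : ℝ) - q.2 :=
        continuousAt_const.eventually_lt hc.continuousAt (by simpa using h)
      have h2 : (fun q : Plane × ℝ => ({x : Plane | q.2 ≤ inner ℝ q.1 x}).indicator
          (fun _ => (1 : ℝ)) x) =ᶠ[𝓝 p] fun _ => 1 := by
        filter_upwards [h1] with q hq
        apply indicator_of_mem
        simp only [mem_ofPred_eq]
        linarith
      exact (continuousAt_const (y := (1 : ℝ))).congr h2.symm

/-- Existence of a longest chord cutting off a prescribed area. -/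
theorem exists_longestCut {K : Set Plane} (hK : IsConvexBody K) {α : ℝ≥0∞} (h0 : 0 < α)
    (h1 : α < volume K) : ∃ a b P K', IsLongestCut K α a b P K' := by
  have hKfin : volume K < ∞ := hK.1.measure_lt_top
  have hαfin : α ≠ ∞ := (h1.trans hKfin).ne
  have h0' : 0 < α.toReal := ENNReal.toReal_pos h0.ne' hαfin
  have h1' : α.toReal < volume.real K := (ENNReal.toReal_lt_toReal hαfin hKfin.ne).2 h1
  -- the compact set of admissible chords
  let s : Set (Plane × Plane × Plane) := K ×ˢ (K ×ˢ sphere (0 : Plane) 1)
  have hs : IsCompact s := hK.1.prod (hK.1.prod (isCompact_sphere 0 1))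
  let F : Plane × Plane × Plane → ℝ × ℝ := fun q =>
    (inner ℝ q.2.2 q.1 - inner ℝ q.2.2 q.2.1, capArea K (q.2.2, inner ℝ q.2.2 q.1))
  have hF : ContinuousOn F s := by
    apply ContinuousOn.prodMk
    · apply Continuous.continuousOn
      fun_prop
    · intro q hq
      have hq2 : q.2.2 ≠ 0 := by
        intro h
        have := hq.2.2
        rw [h] at this
        simp at this
      apply ContinuousAt.continuousWithinAt
      exact ContinuousAt.comp (f := fun q : Plane × Plane × Plane =>
          ((q.2.2, inner ℝ q.2.2 q.1) : Plane × ℝ))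
        (g := capArea K) (continuousAt_capArea hK.1 _ hq2)
        (Continuous.continuousAt (by fun_prop))
  let Z : Set (Plane × Plane × Plane) := s ∩ F ⁻¹' {(0, α.toReal)}
  have hZ : IsCompact Z := hs.of_isClosed_subset
    (hF.preimage_isClosed_of_isClosed hs.isClosed isClosed_singleton) inter_subset_left
  have hZmem : ∀ a b u, (a, b, u) ∈ Z ↔ a ∈ K ∧ b ∈ K ∧ ‖u‖ = 1 ∧
      (inner ℝ u a : ℝ) = inner ℝ u b ∧ capArea K (u, inner ℝ u a) = α.toReal := by
    intro a b u
    simp only [Z, s, F, mem_inter_iff, mem_prod, mem_sphere_iff_norm, sub_zero, mem_preimage,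
      mem_singleton_iff, Prod.mk.injEq, sub_eq_zero]
    tauto
  -- a nondegenerate admissible chord
  have hne : ∃ a b u, (a, b, u) ∈ Z ∧ a ≠ b := by
    set u : Plane := EuclideanSpace.single 0 1 with hu
    set w : Plane := EuclideanSpace.single 1 1 with hw
    have hun : ‖u‖ = 1 := by simp [hu]
    have huw : (inner ℝ u w : ℝ) = 0 := by
      rw [hu, hw, EuclideanSpace.inner_single_left]; simp
    have hwne : w ≠ 0 := by simp [hw]
    have hfne : (innerSL ℝ u : Plane →L[ℝ] ℝ) ≠ 0 := by
      intro h
      have := congrArg (fun g : Plane →L[ℝ] ℝ => g u) h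
      simp only [innerSL_apply_apply, _root_.zero_apply] at this
      have h2 := inner_self_eq_zero.1 this
      rw [h2] at hun
      simp at hun
    have hnl : ∀ c : ℝ, volume {x : Plane | (inner ℝ u x : ℝ) = c} = 0 := by
      intro c
      have := null_level hfne c
      simpa [innerSL_apply_apply] using this
    have hcont : Continuous (fun c : ℝ => capArea K (u, c)) := by
      rw [continuous_iff_continuousAt]
      intro c
      have hune : u ≠ 0 := by intro h; rw [h] at hun; simp at hun
      exact ContinuousAt.comp (f := fun c : ℝ => ((u, c) : Plane × ℝ)) (g := capArea K)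
        (continuousAt_capArea hK.1 (u, c) hune) (by fun_prop)
    have hKne : K.Nonempty := hK.2.2.mono interior_subset
    have hic : ContinuousOn (fun x : Plane => (inner ℝ u x : ℝ)) K := by
      apply Continuous.continuousOn; fun_prop
    obtain ⟨xm, hxm, hmin⟩ := hK.1.exists_isMinOn hKne hic
    obtain ⟨xM, hxM, hmax⟩ := hK.1.exists_isMaxOn hKne hic
    have hg1 : capArea K (u, inner ℝ u xm) = volume.real K := by
      simp only [capArea]
      congr 1
      ext x
      simp only [mem_ofPred_eq, and_iff_left_iff_imp]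
      intro hx
      exact isMinOn_iff.1 hmin x hx
    have hg2 : capArea K (u, inner ℝ u xM) = 0 := by
      simp only [capArea, measureReal_def]
      rw [measure_mono_null _ (hnl (inner ℝ u xM))]
      · simp
      · rintro x ⟨hx, hx2⟩
        exact le_antisymm (isMaxOn_iff.1 hmax x hx) hx2
    have hmM : (inner ℝ u xm : ℝ) ≤ inner ℝ u xM := isMinOn_iff.1 hmin xM hxM
    have hivt := intermediate_value_Icc' hmM hcont.continuousOn
    have hmem : α.toReal ∈ Icc (capArea K (u, inner ℝ u xM)) (capArea K (u, inner ℝ u xm)) := by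
      rw [hg1, hg2]; exact ⟨h0'.le, h1'.le⟩
    obtain ⟨c, -, hc⟩ := hivt hmem
    simp only at hc
    -- points strictly on both sides
    have hx1 : ∃ x ∈ K, c < inner ℝ u x := by
      by_contra hcon
      push Not at hcon
      have : capArea K (u, c) = 0 := by
        simp only [capArea, measureReal_def]
        rw [measure_mono_null _ (hnl c)]
        · simp
        · rintro x ⟨hx, hx2⟩
          exact le_antisymm (hcon x hx) hx2
      rw [hc] at this
      exact h0'.ne' this
    have hx2 : ∃ x ∈ K, (inner ℝ u x : ℝ) < c := by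
      by_contra hcon
      push Not at hcon
      have : capArea K (u, c) = volume.real K := by
        simp only [capArea]
        congr 1
        ext x
        simp only [mem_ofPred_eq, and_iff_left_iff_imp]
        intro hx
        exact hcon x hx
      rw [hc] at this
      exact h1'.ne this
    obtain ⟨x1, hx1, hx1'⟩ := hx1
    obtain ⟨x2, hx2, hx2'⟩ := hx2
    obtain ⟨z, hz⟩ := hK.2.2
    -- an interior point on the line
    have hy : ∃ y ∈ interior K, (inner ℝ u y : ℝ) = c := by
      have cross : ∀ x ∈ K, ((inner ℝ u z : ℝ) < c ∧ c < inner ℝ u x) ∨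
          (c < (inner ℝ u z : ℝ) ∧ (inner ℝ u x : ℝ) < c) → ∃ y ∈ interior K,
          (inner ℝ u y : ℝ) = c := by
        intro x hx h
        set d : ℝ := inner ℝ u x - inner ℝ u z with hd
        have hdne : d ≠ 0 := by
          rcases h with ⟨h1, h2⟩ | ⟨h1, h2⟩
          · exact ne_of_gt (by rw [hd]; linarith)
          · exact ne_of_lt (by rw [hd]; linarith)
        set t : ℝ := (c - inner ℝ u z) / d with ht
        have ht0 : 0 < t := by
          rcases h with ⟨h1, h2⟩ | ⟨h1, h2⟩
          · exact div_pos (by linarith) (by rw [hd]; linarith)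
          · exact div_pos_of_neg_of_neg (by linarith) (by rw [hd]; linarith)
        have ht1 : t < 1 := by
          rcases h with ⟨h1, h2⟩ | ⟨h1, h2⟩
          · rw [ht, div_lt_one (by rw [hd]; linarith), hd]; linarith
          · rw [ht, div_lt_one_of_neg (by rw [hd]; linarith), hd]; linarith
        refine ⟨(1 - t) • z + t • x, ?_, ?_⟩
        · exact hK.2.1.openSegment_interior_self_subset_interior hz hx
            ⟨1 - t, t, by linarith, ht0, by ring, rfl⟩
        · rw [inner_add_right, inner_smul_right, inner_smul_right]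
          have : t * d = c - inner ℝ u z := by rw [ht]; field_simp
          rw [hd] at this
          linarith
      rcases lt_trichotomy (inner ℝ u z : ℝ) c with h | h | h
      · exact cross x1 hx1 (Or.inl ⟨h, hx1'⟩)
      · exact ⟨z, hz, h⟩
      · exact cross x2 hx2 (Or.inr ⟨h, hx2'⟩)
    obtain ⟨y, hy, hyc⟩ := hy
    have hcont2 : Continuous (fun t : ℝ => y + t • w) := by fun_prop
    have hev : ∀ᶠ t in 𝓝 (0 : ℝ), y + t • w ∈ interior K :=
      hcont2.continuousAt.eventually (by simpa using isOpen_interior.mem_nhds hy)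
    have hev2 : ∀ᶠ t in 𝓝[>] (0 : ℝ), y + t • w ∈ interior K := hev.filter_mono nhdsWithin_le_nhds
    obtain ⟨t, ht, ht0⟩ := (hev2.and self_mem_nhdsWithin).exists
    have ht0' : 0 < t := ht0
    have e1 : (inner ℝ u (y + t • w) : ℝ) = c := by
      rw [inner_add_right, inner_smul_right, huw, mul_zero, add_zero, hyc]
    refine ⟨y + t • w, y, u, ?_, ?_⟩
    · rw [hZmem]
      refine ⟨interior_subset ht, interior_subset hy, hun, by rw [e1, hyc], ?_⟩
      rw [e1, hc]
    · intro h
      have : t • w = 0 := by simpa using h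
      rcases smul_eq_zero.1 this with h | h
      · exact ht0'.ne' h
      · exact hwne h
  obtain ⟨a0, b0, u0, hz0, hab0⟩ := hne
  have hdc : ContinuousOn (fun q : Plane × Plane × Plane => dist q.1 q.2.1) Z := by
    apply Continuous.continuousOn; fun_prop
  have hZne : Z.Nonempty := ⟨_, hz0⟩
  obtain ⟨q, hq, hmax⟩ := hZ.exists_isMaxOn hZne hdc
  rcases q with ⟨a, b, u⟩
  have hmax' : ∀ a' b' u', (a', b', u') ∈ Z → dist a' b' ≤ dist a b := by
    intro a' b' u' h
    have h3 := isMaxOn_iff.1 hmax (a', b', u') h
    exact h3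
  obtain ⟨haK, hbK, hun, hab, hcap⟩ := (hZmem a b u).1 hq
  have hpos : 0 < dist a b := lt_of_lt_of_le (dist_pos.2 hab0) (hmax' _ _ _ hz0)
  have hne : a ≠ b := dist_pos.1 hpos
  have hune : u ≠ 0 := by intro h; rw [h] at hun; simp at hun
  -- extending an endpoint lying in the interior
  have ext : ∀ a b : Plane, a ∈ interior K → (inner ℝ u a : ℝ) = inner ℝ u b → a ≠ b →
      ∃ a' ∈ K, (inner ℝ u a' : ℝ) = inner ℝ u a ∧ dist a b < dist a' b := by
    intro a b ha hab hne
    have hcont2 : Continuous (fun t : ℝ => a + t • (a - b)) := by fun_prop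
    have hev : ∀ᶠ t in 𝓝 (0 : ℝ), a + t • (a - b) ∈ interior K :=
      hcont2.continuousAt.eventually (by simpa using isOpen_interior.mem_nhds ha)
    have hev2 : ∀ᶠ t in 𝓝[>] (0 : ℝ), a + t • (a - b) ∈ interior K :=
      hev.filter_mono nhdsWithin_le_nhds
    obtain ⟨t, ht, ht0⟩ := (hev2.and self_mem_nhdsWithin).exists
    have ht0' : 0 < t := ht0
    refine ⟨a + t • (a - b), interior_subset ht, ?_, ?_⟩
    · rw [inner_add_right, inner_smul_right, inner_sub_right, hab]; ring
    · have : a + t • (a - b) - b = (1 + t) • (a - b) := by module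
      rw [dist_eq_norm, dist_eq_norm, this, norm_smul, Real.norm_of_nonneg (by positivity)]
      have : 0 < ‖a - b‖ := norm_pos_iff.2 (sub_ne_zero.2 hne)
      nlinarith
  have haf : a ∈ frontier K := by
    refine ⟨subset_closure haK, fun hint => ?_⟩
    obtain ⟨a', ha', he, hlt⟩ := ext a b hint hab hne
    have := hmax' a' b u ((hZmem _ _ _).2 ⟨ha', hbK, hun, by rw [he, hab], by rw [he, hcap]⟩)
    linarith
  have hbf : b ∈ frontier K := by
    refine ⟨subset_closure hbK, fun hint => ?_⟩
    obtain ⟨b', hb', he, hlt⟩ := ext b a hint hab.symm hne.symm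
    have := hmax' a b' u ((hZmem _ _ _).2 ⟨haK, hb', hun, by rw [he, hab], hcap⟩)
    rw [dist_comm b a, dist_comm b' a] at hlt
    linarith
  have hfne : (innerSL ℝ u : Plane →L[ℝ] ℝ) ≠ 0 := by
    intro h
    apply hune
    have := congrArg (fun g : Plane →L[ℝ] ℝ => g u) h
    simp only [innerSL_apply_apply, _root_.zero_apply] at this
    exact inner_self_eq_zero.1 this
  have hvol : ∀ {S : Set Plane}, S ⊆ K → volume.real S = α.toReal → volume S = α := by
    intro S hS h
    have : volume S ≠ ∞ := ((measure_mono hS).trans_lt hKfin).ne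
    exact (ENNReal.toReal_eq_toReal_iff' this hαfin).1 h
  refine ⟨a, b, {x ∈ K | inner ℝ u a ≤ inner ℝ u x}, {x ∈ K | inner ℝ u x ≤ inner ℝ u a},
    ⟨haf, hbf, hne, innerSL ℝ u, hfne, ?_, ?_, ?_⟩, ?_, ?_⟩
  · simpa [innerSL_apply_apply] using hab
  · simp [innerSL_apply_apply]
  · simp [innerSL_apply_apply]
  · exact hvol (fun x hx => hx.1) hcap
  · rintro a' b' P' K'' ⟨ha', hb', hne', f, hf, hfab, hP', -⟩ hv
    have haK' : a' ∈ K := hK.1.isClosed.frontier_subset ha'
    have hbK' : b' ∈ K := hK.1.isClosed.frontier_subset hb'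
    set g : Plane := (InnerProductSpace.toDual ℝ Plane).symm f with hg
    have hgx : ∀ x, (inner ℝ g x : ℝ) = f x := by
      intro x; rw [hg]; exact InnerProductSpace.toDual_symm_apply
    have hgne : g ≠ 0 := by
      intro h
      apply hf
      ext x
      rw [← hgx x, h]
      simp
    have hgn : 0 < ‖g‖ := norm_pos_iff.2 hgne
    have hux : ∀ x, (inner ℝ (‖g‖⁻¹ • g) x : ℝ) = ‖g‖⁻¹ * f x := by
      intro x
      rw [inner_smul_left, hgx]; simp
    apply hmax' a' b' (‖g‖⁻¹ • g)
    rw [hZmem]
    refine ⟨haK', hbK', ?_, ?_, ?_⟩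
    · rw [norm_smul, norm_inv, norm_norm, inv_mul_cancel₀ hgn.ne']
    · rw [hux, hux, hfab]
    · rw [← hv, hP']
      simp only [capArea, measureReal_def]
      congr 2
      ext x
      simp only [mem_ofPred_eq, hux]
      constructor
      · rintro ⟨h1, h2⟩
        exact ⟨h1, le_of_mul_le_mul_left h2 (by positivity)⟩
      · rintro ⟨h1, h2⟩
        exact ⟨h1, by gcongr⟩

end Pool.Agent.Helper38.CP
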