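import Mathlib

open MeasureTheory Measure Set
open scoped ENNReal

namespace Pool.Agent.Helper38.CP

/-- The Euclidean plane. -/
abbrev Plane := EuclideanSpace ℝ (Fin 2)

/-- A convex body: compact, convex, with nonempty interior. -/
def IsConvexBody (K : Set Plane) : Prop := IsCompact K ∧ Convex ℝ K ∧ (interior K).Nonempty

/-- A convex equipartition of `C` into `n` pieces: convex bodies `P i` with pairwise disjoint
interiors, with union `C`, each of area `area(C) / n`. -/
structure IsConvexEquipartition (C : Set Plane) (n : ℕ) (P : Fin n → Set Plane) : Prop where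
  isConvexBody : ∀ i, IsConvexBody (P i)
  disjoint_interior : ∀ i j, i ≠ j → Disjoint (interior (P i)) (interior (P j))
  iUnion_eq : ⋃ i, P i = C
  area_eq : ∀ i, volume (P i) = volume C / n

/-- The total perimeter: the sum over the pieces of the length (one-dimensional Hausdorff measure)
of the boundary. -/
noncomputable def totalPerimeter {n : ℕ} (P : Fin n → Set Plane) : ℝ≥0∞ :=
  ∑ i, μH[1] (frontier (P i))

/-- `P` is a convex equipartition of `C` into `n` pieces with maximum total perimeter. -/
def IsMaxEquipartition (C : Set Plane) (n : ℕ) (P : Fin n → Set Plane) : Prop :=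
  IsConvexEquipartition C n P ∧
    ∀ Q : Fin n → Set Plane, IsConvexEquipartition C n Q → totalPerimeter Q ≤ totalPerimeter P

/-- Non-crossing: no interior point of `C` belongs to three different pieces. -/
def IsNonCrossing (C : Set Plane) {n : ℕ} (P : Fin n → Set Plane) : Prop :=
  ∀ x ∈ interior C, ¬ ∃ i j k, i ≠ j ∧ i ≠ k ∧ j ≠ k ∧ x ∈ P i ∧ x ∈ P j ∧ x ∈ P k

/-- The chord of `K` with endpoints `a ≠ b` on the boundary of `K` splits `K` into the two pieces
`P` and `K'`: these are the parts of `K` in the two closed half-planes bounded by the line through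
`a` and `b` (the line is the level set of a nonzero linear functional `f` with `f a = f b`). -/
def ChordSplits (K : Set Plane) (a b : Plane) (P K' : Set Plane) : Prop :=
  a ∈ frontier K ∧ b ∈ frontier K ∧ a ≠ b ∧
    ∃ f : Plane →L[ℝ] ℝ, f ≠ 0 ∧ f a = f b ∧
      P = {x ∈ K | f a ≤ f x} ∧ K' = {x ∈ K | f x ≤ f a}

/-- The chord with endpoints `a`, `b` splits `K` into `P` and `K'`, where `P` has area `α`, and it
has maximum length among all chords of `K` splitting off a piece of area `α`. -/
def IsLongestCut (K : Set Plane) (α : ℝ≥0∞) (a b : Plane) (P K' : Set Plane) : Prop :=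
  ChordSplits K a b P K' ∧ volume P = α ∧
    ∀ a' b' P' K'', ChordSplits K a' b' P' K'' → volume P' = α → dist a' b' ≤ dist a b

/-- `P 0, ..., P (n-1)` is a greedy partition of `C` into `n` pieces: there are `K 0 = C`,
`K 1, ..., K (n-1)` such that a longest chord of `K i` among those cutting off area `area(C) / n`
splits `K i` into the piece `P i` of this area and the rest `K (i+1)`, and the last piece is
`P (n-1) = K (n-1)`. -/
def IsGreedyPartition (C : Set Plane) (n : ℕ) (P : Fin n → Set Plane) : Prop :=
  ∃ K : Fin n → Set Plane,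
    (∀ j : Fin n, (j : ℕ) = 0 → K j = C) ∧
    (∀ i j : Fin n, (j : ℕ) = i + 1 →
      ∃ a b, IsLongestCut (K i) (volume C / n) a b (P i) (K j)) ∧
    (∀ j : Fin n, (j : ℕ) + 1 = n → P j = K j)

end Pool.Agent.Helper38.CP
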