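import Pool.Agent.Helper38.CP.Greedy

open MeasureTheory Measure Set Metric Filter
open scoped ENNReal Topology

namespace Pool.Agent.Helper38.CP

lemma part_of_equi {P : Fin 3 → Set Plane} (h : IsConvexEquipartition penta 3 P) :
    Part (P 0) (P 1) (P 2) := by
  have hv : ∀ i, volume (P i) = ENNReal.ofReal 3267420 := fun i => (h.area_eq i).trans vol_third
  refine ⟨h.1 0, h.1 1, h.1 2, h.2 0 1 (by decide), h.2 0 2 (by decide), h.2 1 2 (by decide), ?_,
    hv 0, hv 1, hv 2⟩
  rw [← h.iUnion_eq]
  ext x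
  simp only [mem_union, mem_iUnion, Fin.exists_fin_succ, Fin.exists_fin_zero]
  simp [or_assoc]

lemma equi_of_part {P : Fin 3 → Set Plane} (h : Part (P 0) (P 1) (P 2)) :
    IsConvexEquipartition penta 3 P := by
  refine ⟨?_, ?_, ?_, ?_⟩
  · intro i; fin_cases i
    · exact h.hP
    · exact h.hQ
    · exact h.hR
  · intro i j hij
    fin_cases i <;> fin_cases j
    · exact absurd rfl hij
    · exact h.hPQ
    · exact h.hPR
    · exact h.hPQ.symm
    · exact absurd rfl hij
    · exact h.hQR
    · exact h.hPR.symm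
    · exact h.hQR.symm
    · exact absurd rfl hij
  · rw [← h.cov]
    ext x
    simp only [mem_union, mem_iUnion, Fin.exists_fin_succ, Fin.exists_fin_zero]
    simp [or_assoc]
  · intro i
    rw [vol_third]
    fin_cases i
    · exact h.vP
    · exact h.vQ
    · exact h.vR

/-- the total length of the cuts -/
noncomputable def cuts (P Q R : Set Plane) : ℝ≥0∞ :=
  μH[1] (P ∩ Q) + μH[1] (P ∩ R) + μH[1] (Q ∩ R)

lemma total_eq {P : Fin 3 → Set Plane} (h : Part (P 0) (P 1) (P 2)) :
    totalPerimeter P = μH[1] (frontier penta) + 2 * cuts (P 0) (P 1) (P 2) := by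
  rw [totalPerimeter, Fin.sum_univ_three]
  exact total_perimeter bodyC h.hP h.hQ h.hR h.hPQ h.hPR h.hQR h.cov

lemma cuts_le {P Q R : Set Plane} (h : Part P Q R) : cuts P Q R ≤ ENNReal.ofReal 8522 := by
  by_cases hx : ∃ x ∈ interior penta, x ∈ P ∧ x ∈ Q ∧ x ∈ R
  · exact (len_crossing h hx).le
  · exact len_noncrossing h hx bodyC

lemma perimeter_fin : μH[1] (frontier penta) < ∞ := by
  have h1 : frontier penta ⊆ frontier T3 ∪ frontier T2 ∪ frontier T1 := by
    intro x hx
    have hxC : x ∈ penta := bodyC.1.isClosed.frontier_subset hx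
    have key : ∀ {T : Set Plane}, T ⊆ penta → x ∈ T → x ∈ frontier T := by
      intro T hT hxT
      exact ⟨subset_closure hxT, fun h => hx.2 (interior_mono hT h)⟩
    rw [← cover] at hxC
    rcases hxC with (h | h) | h
    · exact Or.inl (Or.inl (key part0.sP h))
    · exact Or.inl (Or.inr (key part0.sQ h))
    · exact Or.inr (key part0.sR h)
  refine (measure_mono h1).trans_lt ?_
  refine (measure_union_le _ _).trans_lt ?_
  refine (add_le_add_left (measure_union_le _ _) _).trans_lt ?_
  rw [ENNReal.add_lt_top, ENNReal.add_lt_top]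
  exact ⟨⟨perimeter_tri_lt_top (by rw [side_VAX]; norm_num),
    perimeter_tri_lt_top (by rw [side_VBA]; norm_num)⟩,
    perimeter_tri_lt_top (by rw [side_VYB]; norm_num)⟩

lemma dVA : dist pV pA = 4261 := by
  have h := dist_sq pV pA
  rw [pV0, pV1, pA0, pA1] at h
  have h2 : dist pV pA ^ 2 = 4261 ^ 2 := by rw [h]; norm_num
  exact (pow_left_inj₀ dist_nonneg (by norm_num) two_ne_zero).1 h2

lemma dVB : dist pV pB = 4261 := by
  have h := dist_sq pV pB
  rw [pV0, pV1, pB0, pB1] at h
  have h2 : dist pV pB ^ 2 = 4261 ^ 2 := by rw [h]; norm_num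
  exact (pow_left_inj₀ dist_nonneg (by norm_num) two_ne_zero).1 h2

lemma cuts_opt : ENNReal.ofReal 8522 ≤ cuts T3 T2 T1 := by
  have h1 : ENNReal.ofReal 4261 ≤ μH[1] (T3 ∩ T2) := by
    have : segment ℝ pV pA ⊆ T3 ∩ T2 := by
      apply (body3.2.1.inter body2.2.1).segment_subset
      · exact ⟨subset_convexHull ℝ _ (by simp), subset_convexHull ℝ _ (by simp)⟩
      · exact ⟨subset_convexHull ℝ _ (by simp), subset_convexHull ℝ _ (by simp)⟩
    refine le_trans ?_ (measure_mono this)
    rw [hausdorffMeasure_segment, edist_dist, dVA]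
  have h2 : ENNReal.ofReal 4261 ≤ μH[1] (T2 ∩ T1) := by
    have : segment ℝ pV pB ⊆ T2 ∩ T1 := by
      apply (body2.2.1.inter body1.2.1).segment_subset
      · exact ⟨subset_convexHull ℝ _ (by simp), subset_convexHull ℝ _ (by simp)⟩
      · exact ⟨subset_convexHull ℝ _ (by simp), subset_convexHull ℝ _ (by simp)⟩
    refine le_trans ?_ (measure_mono this)
    rw [hausdorffMeasure_segment, edist_dist, dVB]
  calc ENNReal.ofReal 8522 = ENNReal.ofReal 4261 + ENNReal.ofReal 4261 := by
        rw [← ENNReal.ofReal_add (by norm_num) (by norm_num)]; norm_num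
    _ ≤ μH[1] (T3 ∩ T2) + μH[1] (T2 ∩ T1) := add_le_add h1 h2
    _ ≤ cuts T3 T2 T1 := by
        rw [cuts]
        exact add_le_add_left le_self_add _

/-- The optimal partition. -/
noncomputable def opt : Fin 3 → Set Plane := ![T3, T2, T1]

lemma opt_equi : IsConvexEquipartition penta 3 opt := equi_of_part part0

lemma opt_total : μH[1] (frontier penta) + 2 * ENNReal.ofReal 8522 ≤ totalPerimeter opt := by
  rw [total_eq (P := opt) part0]
  exact add_le_add_right (mul_le_mul_right cuts_opt 2) _

lemma total_le {Q : Fin 3 → Set Plane} (hQ : IsConvexEquipartition penta 3 Q) :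
    totalPerimeter Q ≤ μH[1] (frontier penta) + 2 * ENNReal.ofReal 8522 := by
  have h := part_of_equi hQ
  rw [total_eq h]
  exact add_le_add_right (mul_le_mul_right (cuts_le h) 2) _

lemma opt_max : IsMaxEquipartition penta 3 opt :=
  ⟨opt_equi, fun _ hQ => (total_le hQ).trans opt_total⟩

lemma total_lt {Q : Fin 3 → Set Plane} (hQ : Part (Q 0) (Q 1) (Q 2))
    (hlt : cuts (Q 0) (Q 1) (Q 2) < ENNReal.ofReal 8522) :
    totalPerimeter Q < μH[1] (frontier penta) + 2 * ENNReal.ofReal 8522 := by
  rw [total_eq hQ]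
  apply ENNReal.add_lt_add_left perimeter_fin.ne
  exact ENNReal.mul_lt_mul_right (by norm_num) (by norm_num) hlt

lemma max_noncrossing {P : Fin 3 → Set Plane} (hP : IsMaxEquipartition penta 3 P) :
    IsNonCrossing penta P := by
  rintro x hx ⟨i, j, k, hij, hik, hjk, hi, hj, hk⟩
  have hpart := part_of_equi hP.1
  have hall : x ∈ P 0 ∧ x ∈ P 1 ∧ x ∈ P 2 := by
    have key : ∀ l : Fin 3, x ∈ P l := by
      intro l
      have gen : ∀ i j k l : Fin 3, i ≠ j → i ≠ k → j ≠ k → l = i ∨ l = j ∨ l = k := by decide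
      have := gen i j k l hij hik hjk
      rcases this with rfl | rfl | rfl <;> assumption
    exact ⟨key 0, key 1, key 2⟩
  have hlt := total_lt hpart (len_crossing hpart ⟨x, hx, hall⟩)
  have h2 := hP.2 opt opt_equi
  exact absurd (opt_total.trans h2) (not_le.2 hlt)

/-- every greedy partition is suboptimal -/
lemma greedy_sub {G : Fin 3 → Set Plane} (hG : IsGreedyPartition penta 3 G) :
    IsConvexEquipartition penta 3 G ∧
      ∀ P : Fin 3 → Set Plane, IsMaxEquipartition penta 3 P →
        totalPerimeter G < totalPerimeter P := by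
  obtain ⟨K, hK0, hK, hlast⟩ := hG
  have h0 : K 0 = penta := hK0 0 rfl
  obtain ⟨a, b, hab⟩ := hK 0 1 rfl
  obtain ⟨c, d, hcd⟩ := hK 1 2 rfl
  have h2 : G 2 = K 2 := hlast 2 rfl
  rw [vol_third] at hab hcd
  rw [h0] at hab
  obtain ⟨e0, e1⟩ := greedy_first hab
  rw [e1] at hcd
  obtain ⟨hpart, hlt⟩ := greedy_part hcd.1 hcd.2.1
  have hpart' : Part (G 0) (G 1) (G 2) := by rw [e0, h2]; exact hpart
  refine ⟨equi_of_part hpart', fun P hP => ?_⟩
  have hlt' : cuts (G 0) (G 1) (G 2) < ENNReal.ofReal 8522 := by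
    rw [e0, h2]; exact hlt
  exact (total_lt hpart' hlt').trans_le (opt_total.trans (hP.2 opt opt_equi))

lemma exists_greedy : ∃ G : Fin 3 → Set Plane, IsGreedyPartition penta 3 G := by
  obtain ⟨c, d, P, K, h⟩ := exists_longestCut bodyLow (α := ENNReal.ofReal 3267420) (by simp)
    (by rw [volLow, ENNReal.ofReal_lt_ofReal_iff (by norm_num)]; norm_num)
  refine ⟨![upU, P, K], ![penta, lowT, K], ?_, ?_, ?_⟩
  · intro j hj
    have : j = 0 := Fin.ext hj
    rw [this]; rfl
  · intro i j hij
    rw [vol_third]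
    fin_cases i
    · have : j = 1 := Fin.ext (by simpa using hij)
      rw [this]
      exact ⟨pX, pY, longest_XY⟩
    · have : j = 2 := Fin.ext (by simpa using hij)
      rw [this]
      exact ⟨c, d, h⟩
    · exfalso
      have := j.2
      simp at hij
      omega
  · intro j hj
    have : j = 2 := Fin.ext (by have : (j : ℕ) = 2 := by omega
                                simpa using this)
    rw [this]; rfl

end Pool.Agent.Helper38.CP
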