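import Pool.Agent.Helper38.CP.Area

open MeasureTheory Measure Set Metric Filter
open scoped ENNReal Topology

namespace Pool.Agent.Helper38.CP

lemma exists_farther {K : Set Plane} {p q : Plane} (hp : p ∈ interior K) (hne : p ≠ q) :
    ∃ p' ∈ K, dist p q < dist p' q := by
  have hcont : Continuous (fun t : ℝ => p + t • (p - q)) := by fun_prop
  have h0 : (fun t : ℝ => p + t • (p - q)) 0 = p := by simp
  have hev : ∀ᶠ t in 𝓝 (0 : ℝ), p + t • (p - q) ∈ interior K :=
    hcont.continuousAt.eventually (by rw [h0]; exact isOpen_interior.mem_nhds hp)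
  have hev2 : ∀ᶠ t in 𝓝[>] (0 : ℝ), p + t • (p - q) ∈ interior K :=
    hev.filter_mono nhdsWithin_le_nhds
  obtain ⟨t, ht, ht0⟩ := (hev2.and self_mem_nhdsWithin).exists
  have ht0' : 0 < t := ht0
  refine ⟨_, interior_subset ht, ?_⟩
  have : p + t • (p - q) - q = (1 + t) • (p - q) := by module
  rw [dist_eq_norm, dist_eq_norm, this, norm_smul, Real.norm_of_nonneg (by positivity)]
  have : 0 < ‖p - q‖ := norm_pos_iff.2 (sub_ne_zero.2 hne)
  nlinarith

lemma pX_frontier : pX ∈ frontier penta := by
  refine ⟨subset_closure pX_mem, fun h => ?_⟩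
  obtain ⟨p', hp', hlt⟩ := exists_farther h XY_ne
  exact absurd (dist_penta_le hp' pY_mem) (not_le.2 hlt)

lemma pY_frontier : pY ∈ frontier penta := by
  refine ⟨subset_closure pY_mem, fun h => ?_⟩
  obtain ⟨p', hp', hlt⟩ := exists_farther h XY_ne.symm
  have := dist_penta_le hp' pX_mem
  rw [dist_comm pY pX] at hlt
  exact absurd this (not_le.2 hlt)

lemma split_XY : ChordSplits penta pX pY upU lowT :=
  ⟨pX_frontier, pY_frontier, XY_ne, sideL pX pY, sideL_ne XY_ne, sideL_eq _ _, upU_eq, lowT_eq'⟩

/-- The longest cut of the pentagon. -/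
lemma longest_XY : IsLongestCut penta (ENNReal.ofReal 3267420) pX pY upU lowT := by
  refine ⟨split_XY, volUp, ?_⟩
  rintro a b P K ⟨ha, hb, -⟩ -
  exact dist_penta_le (bodyC.1.isClosed.frontier_subset ha) (bodyC.1.isClosed.frontier_subset hb)

/-- The first greedy cut is forced. -/
lemma greedy_first {a b : Plane} {P K : Set Plane}
    (h : IsLongestCut penta (ENNReal.ofReal 3267420) a b P K) : P = upU ∧ K = lowT := by
  obtain ⟨⟨ha, hb, hab, f, hf, hfab, hP, hK⟩, hv, hmax⟩ := h
  have haC := bodyC.1.isClosed.frontier_subset ha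
  have hbC := bodyC.1.isClosed.frontier_subset hb
  have hlen := hmax pX pY upU lowT split_XY volUp
  have hfX : f a = f pX ∧ f pX = f pY := by
    rcases eq_of_dist_eq haC hbC hlen with ⟨rfl, rfl⟩ | ⟨rfl, rfl⟩
    · exact ⟨rfl, hfab⟩
    · exact ⟨hfab, hfab.symm⟩
  obtain ⟨κ, hκ, hκ0⟩ := functional_eq_side f XY_ne hfX.2
  have hP' : P = {x ∈ penta | 0 ≤ κ * side pX pY x} := by
    rw [hP]; ext x; simp only [mem_ofPred_eq, ← hκ x, hfX.1, sub_nonneg]
  have hK' : K = {x ∈ penta | κ * side pX pY x ≤ 0} := by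
    rw [hK]; ext x; simp only [mem_ofPred_eq, ← hκ x, hfX.1, sub_nonpos]
  rcases lt_or_gt_of_ne (hκ0 hf) with hneg | hpos
  · exfalso
    have : P = lowT := by
      rw [hP', lowT_eq]
      ext x
      simp only [mem_ofPred_eq, and_congr_right_iff]
      intro _
      constructor
      · intro h; by_contra h'; push Not at h'; nlinarith
      · intro h; nlinarith
    rw [this, volLow, ENNReal.ofReal_eq_ofReal_iff (by norm_num) (by norm_num)] at hv
    norm_num at hv
  · constructor
    · rw [hP', upU]
      ext x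
      simp only [mem_ofPred_eq, and_congr_right_iff]
      intro _
      constructor
      · intro h; by_contra h'; push Not at h'; nlinarith
      · intro h; positivity
    · rw [hK', lowT_eq]
      ext x
      simp only [mem_ofPred_eq, and_congr_right_iff]
      intro _
      constructor
      · intro h; by_contra h'; push Not at h'; nlinarith
      · intro h; nlinarith

lemma low_le {x : Plane} (hx : x ∈ lowT) : x 1 ≤ 3072 := by
  have h1 : lowT ⊆ {x : Plane | x 1 ≤ 3072} := by
    apply convexHull_min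
    · rintro y (rfl | rfl | rfl) <;> simp only [mem_ofPred_eq, pV1, pX1, pY1] <;> norm_num
    · intro a ha b hb s t hs ht hst
      simp only [mem_ofPred_eq, PiLp.add_apply, PiLp.smul_apply, smul_eq_mul] at *
      have hs' : s = 1 - t := by linarith
      subst hs'
      nlinarith
  exact h1 hx

/-- The second greedy cut is short. -/
lemma second_short {c d : Plane} {P K : Set Plane} (h : ChordSplits lowT c d P K)
    (hv : volume P = ENNReal.ofReal 3267420) : dist c d ≤ 4259 := by
  by_contra hcon
  push Not at hcon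
  obtain ⟨hc, hd, hcd, f, hf, hfcd, hP, hK⟩ := h
  have hcT := bodyLow.1.isClosed.frontier_subset hc
  have hdT := bodyLow.1.isClosed.frontier_subset hd
  have hsub : lowT ⊆ penta := tri_sub pV_mem pY_mem pX_mem
  have hn : NXY 30 c d := by
    rcases long_dichotomy (hsub hcT) (hsub hdT) hcon with h | ⟨h, -⟩
    · exact h.mono (by norm_num)
    · have h1 := low_le hcT
      have h2 := low_le hdT
      rcases h with ⟨h3, h4⟩ | ⟨h3, h4⟩ <;> linarith
  obtain ⟨κ, hκ, hκ0⟩ := functional_eq_side f hcd hfcd
  -- the sub-triangle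
  set Y' : Plane := !₂[0.95 * 2130, 0.95 * (79591 / 26)] with hY'
  set X' : Plane := !₂[-(0.95 * 2132), 0.95 * (46079 / 15)] with hX'
  have hY0 : Y' 0 = 0.95 * 2130 := by simp [hY']
  have hY1 : Y' 1 = 0.95 * (79591 / 26) := by simp [hY']
  have hX0 : X' 0 = -(0.95 * 2132) := by simp [hX']
  have hX1 : X' 1 = 0.95 * (46079 / 15) := by simp [hX']
  have hside : side pV Y' X' = 0.95 ^ 2 * 13069680 := by
    simp only [side, pV0, pV1, hY0, hY1, hX0, hX1]; norm_num
  have hvol : volume (tri pV Y' X') = ENNReal.ofReal (0.95 ^ 2 * 13069680 / 2) := by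
    rw [volume_tri (by rw [hside]; norm_num), hside]
  have hVT : pV ∈ lowT := subset_convexHull ℝ _ (by simp)
  have hYT : pY ∈ lowT := subset_convexHull ℝ _ (by simp)
  have hXT : pX ∈ lowT := subset_convexHull ℝ _ (by simp)
  have hY'T : Y' ∈ lowT := by
    have : Y' = (0.05 : ℝ) • pV + (0.95 : ℝ) • pY := by
      apply plane_ext
      · simp [hY0]
      · simp [hY1]
    rw [this]
    exact bodyLow.2.1 hVT hYT (by norm_num) (by norm_num) (by norm_num)
  have hX'T : X' ∈ lowT := by
    have : X' = (0.05 : ℝ) • pV + (0.95 : ℝ) • pX := by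
      apply plane_ext
      · simp [hX0]
      · simp [hX1]
    rw [this]
    exact bodyLow.2.1 hVT hXT (by norm_num) (by norm_num) (by norm_num)
  have htri : tri pV Y' X' ⊆ lowT := by
    apply convexHull_min _ bodyLow.2.1
    rintro y (rfl | rfl | rfl) <;> assumption
  -- a piece containing the sub-triangle is too big
  have big : ∀ {S : Set Plane}, tri pV Y' X' ⊆ S → S ⊆ lowT →
      ENNReal.ofReal (0.95 ^ 2 * 13069680 / 2) ≤ volume S := by
    intro S hS _
    rw [← hvol]; exact measure_mono hS
  have hsplit := split_volume bodyLow.1.measurableSet hf (f c)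
  rw [← hP, ← hK, volLow, hv] at hsplit
  have hvK : volume K = ENNReal.ofReal 3267420 := by
    have h2 : ENNReal.ofReal 6534840 = ENNReal.ofReal 3267420 + ENNReal.ofReal 3267420 := by
      rw [← ENNReal.ofReal_add (by norm_num) (by norm_num)]; norm_num
    rw [h2] at hsplit
    exact ((ENNReal.add_right_inj ENNReal.ofReal_ne_top).1 hsplit).symm
  have hPs : P ⊆ lowT := by rw [hP]; exact fun x hx => hx.1
  have hKs : K ⊆ lowT := by rw [hK]; exact fun x hx => hx.1
  have nP : ¬ tri pV Y' X' ⊆ P := by
    intro hS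
    have := big hS hPs
    rw [hv, ENNReal.ofReal_le_ofReal_iff (by norm_num)] at this
    norm_num at this
  have nK : ¬ tri pV Y' X' ⊆ K := by
    intro hS
    have := big hS hKs
    rw [hvK, ENNReal.ofReal_le_ofReal_iff (by norm_num)] at this
    norm_num at this
  -- sign of `side c d` on the sub-triangle
  have signs : ∀ {c d : Plane}, dist c pX ≤ 30 → dist d pY ≤ 30 →
      ∀ x ∈ tri pV Y' X', side c d x ≤ 0 := by
    intro c d hc hd
    obtain ⟨a1, a2, a3, a4⟩ := nearX hc
    obtain ⟨b1, b2, b3, b4⟩ := nearY hd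
    have : tri pV Y' X' ⊆ {x | side c d x ≤ 0} := by
      apply convexHull_min _ (convex_side_nonpos c d)
      have gen : ∀ y : Plane, y 1 ≤ 2920 → -2130 ≤ y 0 → y 0 ≤ 2130 → side c d y ≤ 0 := by
        intro y h1 h2 h3
        simp only [side]
        have e1 : (d 0 - c 0) * (y 1 - c 1) ≤ 4202 * (y 1 - c 1) :=
          mul_le_mul_of_nonpos_right (by linarith) (by linarith)
        have e2 : |(d 1 - c 1) * (y 0 - c 0)| ≤ 71 * 4300 := by
          rw [abs_mul]
          apply mul_le_mul _ _ (abs_nonneg _) (by norm_num)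
          · rw [abs_le]; constructor <;> linarith
          · rw [abs_le]; constructor <;> linarith
        rw [abs_le] at e2
        linarith [e2.1]
      rintro y (rfl | rfl | rfl)
      · exact gen _ (by rw [pV1]; norm_num) (by rw [pV0]; norm_num) (by rw [pV0]; norm_num)
      · exact gen _ (by rw [hY1]; norm_num) (by rw [hY0]; norm_num) (by rw [hY0]; norm_num)
      · exact gen _ (by rw [hX1]; norm_num) (by rw [hX0]; norm_num) (by rw [hX0]; norm_num)
    exact this
  have hsgn : (∀ x ∈ tri pV Y' X', side c d x ≤ 0) ∨ (∀ x ∈ tri pV Y' X', 0 ≤ side c d x) := by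
    rcases hn with ⟨h1, h2⟩ | ⟨h1, h2⟩
    · left; exact signs h1 h2
    · right
      intro x hx
      have := signs h2 h1 x hx
      rw [side_swap] at this
      linarith
  have hmem : ∀ x ∈ lowT, (x ∈ P ↔ 0 ≤ κ * side c d x) ∧ (x ∈ K ↔ κ * side c d x ≤ 0) := by
    intro x hx
    rw [hP, hK]
    simp only [mem_ofPred_eq, ← hκ x, sub_nonneg, sub_nonpos, hx, true_and, and_self]
  rcases lt_or_gt_of_ne (hκ0 hf) with hneg | hpos <;> rcases hsgn with hs | hs
  · apply nP; intro x hx
    rw [(hmem x (htri hx)).1]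
    have := hs x hx
    nlinarith
  · apply nK; intro x hx
    rw [(hmem x (htri hx)).2]
    have := hs x hx
    nlinarith
  · apply nK; intro x hx
    rw [(hmem x (htri hx)).2]
    have := hs x hx
    nlinarith
  · apply nP; intro x hx
    rw [(hmem x (htri hx)).1]
    have := hs x hx
    positivity

/-- The length of the second cut is the distance of its endpoints. -/
lemma cut_length {K P Q : Set Plane} (hK : IsConvexBody K) (hP : IsConvexBody P)
    (hQ : IsConvexBody Q) (hPK : P ⊆ K) (hQK : Q ⊆ K) (h : Disjoint (interior P) (interior Q))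
    {c d : Plane} (hc : c ∈ P ∩ Q) (hd : d ∈ P ∩ Q) (hcd : c ≠ d) (hcf : c ∈ frontier K)
    (hdf : d ∈ frontier K) : μH[1] (P ∩ Q) = ENNReal.ofReal (dist c d) := by
  obtain ⟨a, b, ha, hb, hab⟩ := inter_eq_segment hP hQ h ⟨c, hc⟩
  have key : ∀ x ∈ P ∩ Q, x ∈ frontier K → x = a ∨ x = b := by
    intro x hx hxf
    by_contra hcon
    push Not at hcon
    have hx2 : x ∈ segment ℝ a b := hab ▸ hx
    have hx4 : x ∈ openSegment ℝ a b :=
      mem_openSegment_of_ne_left_right (Ne.symm hcon.1) (Ne.symm hcon.2) hx2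
    have hne' : a ≠ b := by
      rintro rfl
      rw [segment_same] at hx2
      exact hcon.1 hx2
    exact hxf.2 (mem_interior_of_openSegment hK hP hQ hPK hQK h hne' ha hb hx4)
  rw [hab, hausdorffMeasure_segment, edist_dist]
  congr 1
  rcases key c hc hcf with h1 | h1 <;> rcases key d hd hdf with h2 | h2
  · exact absurd (h1.trans h2.symm) hcd
  · rw [h1, h2]
  · rw [h1, h2, dist_comm]
  · exact absurd (h1.trans h2.symm) hcd

lemma inter_pair_length {P Q : Set Plane} (hP : IsConvexBody P) (hQ : IsConvexBody Q)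
    (h : Disjoint (interior P) (interior Q)) (sP : P ⊆ penta) :
    μH[1] (P ∩ Q) ≤ ENNReal.ofReal 4262.02 := by
  rcases len_or hP hQ h with h1 | ⟨a, b, ha, hb, h1⟩
  · rw [h1]; simp
  · rw [h1]
    exact ENNReal.ofReal_le_ofReal (dist_lt_D (sP ha.1) (sP hb.1))

/-- Splitting the lower triangle into two halves gives a partition with short cuts. -/
lemma greedy_part {c d : Plane} {P K : Set Plane} (h : ChordSplits lowT c d P K)
    (hv : volume P = ENNReal.ofReal 3267420) :
    Part upU P K ∧
      μH[1] (upU ∩ P) + μH[1] (upU ∩ K) + μH[1] (P ∩ K) < ENNReal.ofReal 8522 := by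
  have hshort := second_short h hv
  obtain ⟨hc, hd, hcd, f, hf, hfcd, hP, hK⟩ := h
  have hcT := bodyLow.1.isClosed.frontier_subset hc
  have hdT := bodyLow.1.isClosed.frontier_subset hd
  have hsub : lowT ⊆ penta := tri_sub pV_mem pY_mem pX_mem
  have hPs : P ⊆ lowT := by rw [hP]; exact fun x hx => hx.1
  have hKs : K ⊆ lowT := by rw [hK]; exact fun x hx => hx.1
  have hsplit := split_volume bodyLow.1.measurableSet hf (f c)
  rw [← hP, ← hK, volLow, hv] at hsplit
  have hvK : volume K = ENNReal.ofReal 3267420 := by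
    have h2 : ENNReal.ofReal 6534840 = ENNReal.ofReal 3267420 + ENNReal.ofReal 3267420 := by
      rw [← ENNReal.ofReal_add (by norm_num) (by norm_num)]; norm_num
    rw [h2] at hsplit
    exact ((ENNReal.add_right_inj ENNReal.ofReal_ne_top).1 hsplit).symm
  have cP : IsCompact P := by
    rw [hP]; exact bodyLow.1.inter_right (isClosed_le continuous_const f.continuous)
  have cK : IsCompact K := by
    rw [hK]; exact bodyLow.1.inter_right (isClosed_le f.continuous continuous_const)
  have vP : Convex ℝ P := by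
    rw [hP]; exact bodyLow.2.1.inter (convex_halfSpace_ge f.isBoundedLinearMap.toIsLinearMap _)
  have vK : Convex ℝ K := by
    rw [hK]; exact bodyLow.2.1.inter (convex_halfSpace_le f.isBoundedLinearMap.toIsLinearMap _)
  have bP : IsConvexBody P := body_of_volume_pos cP vP (by rw [hv]; simp)
  have bK : IsConvexBody K := body_of_volume_pos cK vK (by rw [hvK]; simp)
  have dPK : Disjoint (interior P) (interior K) := by
    apply (disj_of_functional hf (P := K) (Q := P) (c := f c) _ _).symm
    · intro x hx; rw [hK] at hx; exact hx.2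
    · intro x hx; rw [hP] at hx; exact hx.2
  have dUP : Disjoint (interior upU) (interior P) := up_low_disj.mono_right (interior_mono hPs)
  have dUK : Disjoint (interior upU) (interior K) := up_low_disj.mono_right (interior_mono hKs)
  have hPK : P ∪ K = lowT := by
    rw [hP, hK]
    ext x
    simp only [mem_union, mem_ofPred_eq]
    constructor
    · rintro (h | h) <;> exact h.1
    · intro h
      rcases le_total (f c) (f x) with h' | h'
      · exact Or.inl ⟨h, h'⟩
      · exact Or.inr ⟨h, h'⟩
  have hpart : Part upU P K :=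
    ⟨bodyUp, bP, bK, dUP, dUK, dPK, by rw [union_assoc, hPK, up_union_low], volUp, hv, hvK⟩
  refine ⟨hpart, ?_⟩
  have hcP : c ∈ P := by rw [hP]; exact ⟨hcT, le_rfl⟩
  have hcK : c ∈ K := by rw [hK]; exact ⟨hcT, le_rfl⟩
  have hdP : d ∈ P := by rw [hP]; exact ⟨hdT, hfcd.le⟩
  have hdK : d ∈ K := by rw [hK]; exact ⟨hdT, hfcd.ge⟩
  have l1 : μH[1] (P ∩ K) ≤ ENNReal.ofReal 4259 := by
    rw [cut_length bodyLow bP bK hPs hKs dPK ⟨hcP, hcK⟩ ⟨hdP, hdK⟩ hcd hc hd]
    exact ENNReal.ofReal_le_ofReal hshort
  have l2 : μH[1] (upU ∩ P) + μH[1] (upU ∩ K) ≤ ENNReal.ofReal 4262.02 := by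
    have hnull : AEDisjoint μH[1] (upU ∩ P) (upU ∩ K) := by
      apply null_of_subsingleton
      apply (triple_subsingleton bodyUp bP bK dUP dUK dPK).anti
      rintro x ⟨hx1, hx2⟩
      exact ⟨hx1, hx2.2⟩
    have hm : NullMeasurableSet (upU ∩ K) μH[1] :=
      (bodyUp.1.inter bK.1).measurableSet.nullMeasurableSet
    rw [← measure_union₀ hm hnull, ← inter_union_distrib_left, hPK]
    exact inter_pair_length bodyUp bodyLow up_low_disj (fun x hx => hx.1)
  calc μH[1] (upU ∩ P) + μH[1] (upU ∩ K) + μH[1] (P ∩ K)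
      ≤ ENNReal.ofReal 4262.02 + ENNReal.ofReal 4259 := add_le_add l2 l1
    _ = ENNReal.ofReal 8521.02 := by
        rw [← ENNReal.ofReal_add (by norm_num) (by norm_num)]; norm_num
    _ < ENNReal.ofReal 8522 := by
        rw [ENNReal.ofReal_lt_ofReal_iff (by norm_num)]; norm_num

end Pool.Agent.Helper38.CP
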