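import Pool.Agent.Helper38.CP.Spec

open MeasureTheory Measure Set Metric Filter
open scoped ENNReal Topology

namespace Pool.Agent.Helper38.CP

/-- `x` and `y` are near the two endpoints of the long diagonal. -/
def NXY (ε : ℝ) (x y : Plane) : Prop :=
  (dist x pX ≤ ε ∧ dist y pY ≤ ε) ∨ (dist x pY ≤ ε ∧ dist y pX ≤ ε)

/-- one point is low and the other is high -/
def VAB (x y : Plane) : Prop := (x 1 ≤ 30 ∧ 4160 ≤ y 1) ∨ (y 1 ≤ 30 ∧ 4160 ≤ x 1)

lemma NXY.symm {ε : ℝ} {x y : Plane} (h : NXY ε x y) : NXY ε y x := by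
  rcases h with ⟨h1, h2⟩ | ⟨h1, h2⟩
  · exact Or.inr ⟨h2, h1⟩
  · exact Or.inl ⟨h2, h1⟩

lemma NXY.mono {ε δ : ℝ} {x y : Plane} (h : NXY ε x y) (hε : ε ≤ δ) : NXY δ x y := by
  rcases h with ⟨h1, h2⟩ | ⟨h1, h2⟩
  · exact Or.inl ⟨h1.trans hε, h2.trans hε⟩
  · exact Or.inr ⟨h1.trans hε, h2.trans hε⟩

lemma VAB.symm {x y : Plane} (h : VAB x y) : VAB y x := by
  rcases h with ⟨h1, h2⟩ | ⟨h1, h2⟩
  · exact Or.inr ⟨h1, h2⟩
  · exact Or.inl ⟨h1, h2⟩

/-- elementary inequality -/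
lemma two_types {p q η : ℝ} (hp0 : 0 ≤ p) (hp1 : p ≤ 1) (hq0 : 0 ≤ q) (hq1 : q ≤ 1)
    (hη : η = 0.0059) (h : 1 - η < p * q + (1 - p) * (1 - q)) :
    (p ≤ 0.006 ∧ q ≤ 0.006) ∨ (0.994 ≤ p ∧ 0.994 ≤ q) := by
  subst hη
  have h1 : p * (1 - q) + q * (1 - p) < 0.0059 := by nlinarith
  have h2 : 0 ≤ p * (1 - q) := mul_nonneg hp0 (by linarith)
  have h3 : 0 ≤ q * (1 - p) := mul_nonneg hq0 (by linarith)
  rcases le_or_gt p (1/2) with hp | hp
  · left
    have hq : q ≤ 0.0118 := by nlinarith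
    have hp' : p ≤ 0.006 := by nlinarith
    refine ⟨hp', by nlinarith⟩
  · right
    have hq : 1 - q ≤ 0.0118 := by nlinarith
    have hp' : 1 - p ≤ 0.006 := by nlinarith
    refine ⟨by linarith, by nlinarith⟩

lemma small_prod {x y : ℝ} (hx0 : 0 ≤ x) (hx : x ≤ 0.006) (hy : y ≤ 0.006) :
    x * y ≤ 0.00004 := by
  have h1 : x * y ≤ x * 0.006 := mul_le_mul_of_nonneg_left hy hx0
  have h2 : x * 0.006 ≤ 0.006 * 0.006 := mul_le_mul_of_nonneg_right hx (by norm_num)
  linarith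

lemma big_of_prod {x y : ℝ} (hx0 : 0 ≤ x) (hx : x ≤ 1) (hy0 : 0 ≤ y) (hy : y ≤ 1)
    (h : 0.9941 < x * y) : 0.994 ≤ x ∧ 0.994 ≤ y := by
  have h1 : x * y ≤ x * 1 := mul_le_mul_of_nonneg_left hy hx0
  have h2 : x * y ≤ 1 * y := mul_le_mul_of_nonneg_right hx hy0
  constructor <;> linarith

/-- Weights form of the dichotomy for long segments. -/
lemma long_weights {w w' : Fin 5 → ℝ} (hw : IsW w) (hw' : IsW w')
    (h : 4259 < 3740 + 521 * (w 0 * (w' 2 + w' 3) + (w 2 + w 3) * w' 0)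
        + (dist pX pY - 3740) * (w 1 * w' 4 + w 4 * w' 1)) :
    ((0.994 ≤ w 1 ∧ 0.994 ≤ w' 4) ∨ (0.994 ≤ w 4 ∧ 0.994 ≤ w' 1)) ∨
    (((0.994 ≤ w 0 ∧ 0.994 ≤ w' 2 + w' 3) ∨ (0.994 ≤ w' 0 ∧ 0.994 ≤ w 2 + w 3)) ∧
      3740 + 521 * (w 0 * (w' 2 + w' 3) + (w 2 + w 3) * w' 0)
        + (dist pX pY - 3740) * (w 1 * w' 4 + w 4 * w' 1) ≤ 4261) := by
  have hD := dXY_le
  have hD2 := le_dXY
  obtain ⟨n, s⟩ := hw
  obtain ⟨n', s'⟩ := hw'
  simp only [Fin.sum_univ_five] at s s'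
  have a0 := n 0; have a1 := n 1; have a2 := n 2; have a3 := n 3; have a4 := n 4
  have b0 := n' 0; have b1 := n' 1; have b2 := n' 2; have b3 := n' 3; have b4 := n' 4
  set x0 := w 0; set x1 := w 1; set x2 := w 2; set x3 := w 3; set x4 := w 4
  set y0 := w' 0; set y1 := w' 1; set y2 := w' 2; set y3 := w' 3; set y4 := w' 4
  set mV := x0 * (y2 + y3) + (x2 + x3) * y0 with hmV
  set mX := x1 * y4 + x4 * y1 with hmX
  set p := x0 + x2 + x3 with hp
  set q := y0 + y2 + y3 with hq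
  have hmV0 : 0 ≤ mV := by positivity
  have hmX0 : 0 ≤ mX := by positivity
  have hmVle : mV ≤ p * q := by
    have : p * q - mV = x0 * y0 + (x2 + x3) * (y2 + y3) := by rw [hmV, hp, hq]; ring
    have h2 : 0 ≤ x0 * y0 + (x2 + x3) * (y2 + y3) := by positivity
    linarith
  have e1 : 1 - p = x1 + x4 := by rw [hp]; linarith
  have e2 : 1 - q = y1 + y4 := by rw [hq]; linarith
  have hmXle : mX ≤ (1 - p) * (1 - q) := by
    have : (1 - p) * (1 - q) - mX = x1 * y1 + x4 * y4 := by rw [hmX, e1, e2]; ring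
    have h2 : 0 ≤ x1 * y1 + x4 * y4 := by positivity
    linarith
  have hp0 : 0 ≤ p := by positivity
  have hq0 : 0 ≤ q := by positivity
  have hp1 : p ≤ 1 := by linarith [e1]
  have hq1 : q ≤ 1 := by linarith [e2]
  have hDm : (dist pX pY - 3740) * mX ≤ 522.02 * mX :=
    mul_le_mul_of_nonneg_right (by linarith) hmX0
  have hsum : 0.9942 < mV + mX := by linarith
  rcases two_types hp0 hp1 hq0 hq1 rfl (by linarith) with ⟨c1, c2⟩ | ⟨c1, c2⟩
  · left
    have hmVs : mV ≤ 0.00004 := hmVle.trans (small_prod hp0 c1 c2)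
    have hmXs : 0.99415 < mX := by linarith
    have h1 : mX ≤ x1 * y4 + (1 - x1) * (1 - y4) := by
      have h3 : x4 ≤ 1 - x1 := by linarith
      have h4 : y1 ≤ 1 - y4 := by linarith
      have : x4 * y1 ≤ (1 - x1) * (1 - y4) := mul_le_mul h3 h4 b1 (by linarith)
      linarith
    rcases two_types a1 (by linarith) b4 (by linarith) rfl (by linarith) with ⟨d1, d2⟩ | ⟨d1, d2⟩
    · right
      have h5 : x1 * y4 ≤ 0.00004 := small_prod a1 d1 d2
      have h6 : 0.9941 < x4 * y1 := by linarith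
      have h7 : x4 ≤ 1 := by linarith
      have h8 : y1 ≤ 1 := by linarith
      exact big_of_prod a4 h7 b1 h8 h6
    · left; exact ⟨d1, d2⟩
  · right
    constructor
    · have hmXs : mX ≤ 0.00004 := hmXle.trans
        (small_prod (by linarith) (by linarith) (by linarith))
      have hmVs : 0.99415 < mV := by linarith
      have h1 : mV ≤ x0 * (y2 + y3) + (1 - x0) * (1 - (y2 + y3)) := by
        have h3 : x2 + x3 ≤ 1 - x0 := by linarith
        have h4 : y0 ≤ 1 - (y2 + y3) := by linarith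
        have : (x2 + x3) * y0 ≤ (1 - x0) * (1 - (y2 + y3)) := mul_le_mul h3 h4 b0 (by linarith)
        linarith
      rcases two_types a0 (by linarith) (show 0 ≤ y2 + y3 by positivity) (by linarith) rfl
        (by linarith) with ⟨d1, d2⟩ | ⟨d1, d2⟩
      · right
        have h5 : x0 * (y2 + y3) ≤ 0.00004 := small_prod a0 d1 d2
        have h6 : 0.9941 < (x2 + x3) * y0 := by linarith
        have h7 : x2 + x3 ≤ 1 := by linarith
        have h8 : y0 ≤ 1 := by linarith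
        have h9 : 0 ≤ x2 + x3 := by positivity
        exact (big_of_prod h9 h7 b0 h8 h6).symm
      · left; exact ⟨d1, d2⟩
    · -- the bound `≤ 4261`
      have h1 : 521 * mV ≤ 521 * (p * q) := by linarith
      have h2 : (dist pX pY - 3740) * mX ≤ 522.02 * ((1 - p) * (1 - q)) := by
        have h3 : (dist pX pY - 3740) * mX ≤ 522.02 * mX :=
          mul_le_mul_of_nonneg_right (by linarith) hmX0
        linarith
      have h3 : (1 - p) * (1 - q) ≤ 0.006 * (1 - p) := by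
        rw [mul_comm]
        exact mul_le_mul_of_nonneg_right (by linarith) (by linarith)
      have h4 : p * q = 1 - (1 - p) - (1 - q) + (1 - p) * (1 - q) := by ring
      rw [h4] at h1
      have h5 : 0 ≤ 1 - p := by linarith
      have h6 : 0 ≤ 1 - q := by linarith
      have h7 : 0 ≤ (1 - p) * (1 - q) := mul_nonneg h5 h6
      generalize (1 - p) * (1 - q) = uv at h1 h2 h3 h7
      generalize (1 - p) = u at h1 h3 h5
      generalize (1 - q) = v at h1 h6
      linarith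

lemma coord1_weights {w : Fin 5 → ℝ} (_hw : IsW w) :
    (∑ i, w i • pts i) 1 = w 1 * (46079 / 15) + (w 2 + w 3) * 4189 + w 4 * (79591 / 26) := by
  simp [Fin.sum_univ_five, pts]
  ring

lemma dist_single {w : Fin 5 → ℝ} (hw : IsW w) (k : Fin 5) (m : ℝ)
    (hm : ∀ i, dist (pts i) (pts k) ≤ m) :
    dist (∑ i, w i • pts i) (pts k) ≤ (1 - w k) * m := by
  have e : (∑ i, w i • pts i) - pts k = ∑ i ∈ Finset.univ.erase k, w i • (pts i - pts k) := by
    have h1 : ∑ i, w i • (pts i - pts k) = (∑ i, w i • pts i) - pts k := by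
      simp only [smul_sub, Finset.sum_sub_distrib]
      rw [← Finset.sum_smul, hw.2, one_smul]
    rw [← h1, ← Finset.add_sum_erase _ _ (Finset.mem_univ k)]
    simp
  rw [dist_eq_norm, e]
  refine (norm_sum_le _ _).trans ?_
  have h2 : ∑ i ∈ Finset.univ.erase k, w i = 1 - w k := by
    have := Finset.add_sum_erase Finset.univ w (Finset.mem_univ k)
    rw [hw.2] at this
    linarith
  rw [← h2, Finset.sum_mul]
  apply Finset.sum_le_sum
  intro i _
  rw [norm_smul, Real.norm_of_nonneg (hw.1 i)]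
  apply mul_le_mul_of_nonneg_left _ (hw.1 i)
  rw [← dist_eq_norm]
  exact hm i

lemma M_le (i j : Fin 5) : M i j ≤ 4262.02 := by
  have := dXY_le
  fin_cases i <;> fin_cases j <;> simp [M] <;> norm_num <;> linarith

lemma dist_pts_le (i j : Fin 5) : dist (pts i) (pts j) ≤ 4262.02 :=
  (dist_le_M i j).trans (M_le i j)

/-- Long segments are near the diagonal `XY` or go from the bottom to the top. -/
lemma long_dichotomy {x y : Plane} (hx : x ∈ penta) (hy : y ∈ penta) (h : 4259 < dist x y) :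
    NXY 26 x y ∨ (VAB x y ∧ dist x y ≤ 4261) := by
  obtain ⟨w, hw, rfl⟩ := exists_weights hx
  obtain ⟨w', hw', rfl⟩ := exists_weights hy
  have hb := dist_le_bound hw hw'
  have key : ∀ {w : Fin 5 → ℝ}, IsW w → ∀ k, 0.994 ≤ w k →
      dist (∑ i, w i • pts i) (pts k) ≤ 26 := by
    intro w hw k hk
    have := dist_single hw k 4262.02 (fun i => dist_pts_le i k)
    linarith
  rcases long_weights hw hw' (lt_of_lt_of_le h hb) with (⟨h1, h2⟩ | ⟨h1, h2⟩) | ⟨h1, h2⟩
  · left; left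
    exact ⟨key hw 1 h1, key hw' 4 h2⟩
  · left; right
    exact ⟨key hw 4 h1, key hw' 1 h2⟩
  · right
    refine ⟨?_, hb.trans h2⟩
    have s1 := hw.2
    have s2 := hw'.2
    simp only [Fin.sum_univ_five] at s1 s2
    have a0 := hw.1 0; have a1 := hw.1 1; have a2 := hw.1 2; have a3 := hw.1 3; have a4 := hw.1 4
    have b0 := hw'.1 0; have b1 := hw'.1 1; have b2 := hw'.1 2; have b3 := hw'.1 3
    have b4 := hw'.1 4
    simp only [VAB, coord1_weights hw, coord1_weights hw']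
    rcases h1 with ⟨h1, h3⟩ | ⟨h1, h3⟩
    · left; constructor <;> linarith
    · right; constructor <;> linarith

lemma very_long {x y : Plane} (hx : x ∈ penta) (hy : y ∈ penta) (h : 4261 < dist x y) :
    NXY 26 x y := by
  rcases long_dichotomy hx hy (by linarith) with h1 | ⟨-, h2⟩
  · exact h1
  · linarith

lemma dist_penta_le {x y : Plane} (hx : x ∈ penta) (hy : y ∈ penta) : dist x y ≤ dist pX pY := by
  obtain ⟨w, hw, rfl⟩ := exists_weights hx
  obtain ⟨w', hw', rfl⟩ := exists_weights hy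
  refine (dist_weights hw hw').trans ?_
  have hM : ∀ i j, dist (pts i) (pts j) ≤ dist pX pY := by
    intro i j
    refine (dist_le_M i j).trans ?_
    have := le_dXY
    fin_cases i <;> fin_cases j <;> simp [M] <;> linarith
  calc ∑ i, ∑ j, w i * w' j * dist (pts i) (pts j) ≤ ∑ i, ∑ j, w i * w' j * dist pX pY := by
        apply Finset.sum_le_sum; intro i _
        apply Finset.sum_le_sum; intro j _
        exact mul_le_mul_of_nonneg_left (hM i j) (mul_nonneg (hw.1 i) (hw'.1 j))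
    _ = dist pX pY := by
        simp only [← Finset.sum_mul, ← Finset.mul_sum]
        rw [hw'.2, mul_one, hw.2, one_mul]

/-- The diagonal `XY` is the unique diameter. -/
lemma eq_of_dist_eq {x y : Plane} (hx : x ∈ penta) (hy : y ∈ penta) (h : dist pX pY ≤ dist x y) :
    (x = pX ∧ y = pY) ∨ (x = pY ∧ y = pX) := by
  obtain ⟨w, hw, rfl⟩ := exists_weights hx
  obtain ⟨w', hw', rfl⟩ := exists_weights hy
  have hb := h.trans (dist_le_bound hw hw')
  have hD := dXY_le
  have hD2 := le_dXY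
  have s := hw.2
  have s' := hw'.2
  simp only [Fin.sum_univ_five] at s s'
  have a0 := hw.1 0; have a1 := hw.1 1; have a2 := hw.1 2; have a3 := hw.1 3; have a4 := hw.1 4
  have b0 := hw'.1 0; have b1 := hw'.1 1; have b2 := hw'.1 2; have b3 := hw'.1 3
  have b4 := hw'.1 4
  -- `mV + mX ≤ 1`
  have e : (w 0 + w 1 + w 2 + w 3 + w 4) * (w' 0 + w' 1 + w' 2 + w' 3 + w' 4) = 1 := by
    rw [s, s', one_mul]
  have hle : (w 0 * (w' 2 + w' 3) + (w 2 + w 3) * w' 0) + (w 1 * w' 4 + w 4 * w' 1) ≤ 1 := by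
    rw [← e]
    have : 0 ≤ w 0 * w' 0 + w 0 * w' 1 + w 0 * w' 4 + w 1 * w' 0 + w 1 * w' 1 + w 1 * w' 2
      + w 1 * w' 3 + w 2 * w' 1 + w 2 * w' 2 + w 2 * w' 3 + w 2 * w' 4 + w 3 * w' 1 + w 3 * w' 2
      + w 3 * w' 3 + w 3 * w' 4 + w 4 * w' 0 + w 4 * w' 2 + w 4 * w' 3 + w 4 * w' 4 := by positivity
    linarith
  have hmV0 : 0 ≤ w 0 * (w' 2 + w' 3) + (w 2 + w 3) * w' 0 := by positivity
  have hmX1 : 1 ≤ w 1 * w' 4 + w 4 * w' 1 := by
    generalize w 0 * (w' 2 + w' 3) + (w 2 + w 3) * w' 0 = mV at hb hle hmV0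
    generalize w 1 * w' 4 + w 4 * w' 1 = mX at hb hle
    generalize dist pX pY = D at hb hD hD2
    clear a0 a1 a2 a3 a4 b0 b1 b2 b3 b4 e s s' h hx hy hw hw'
    -- `D ≤ 3740 + 521 mV + (D - 3740) mX ≤ 3740 + 521 (1 - mX) + (D - 3740) mX`
    have h1 : (D - 4261) ≤ (D - 4261) * mX := by linarith
    have h2 : 0 < D - 4261 := by linarith
    exact le_of_mul_le_mul_left (by linarith) h2
  have h1 : w 1 + w 4 ≤ 1 := by linarith
  have h2 : w' 1 + w' 4 ≤ 1 := by linarith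
  have hpt : ∀ {w : Fin 5 → ℝ}, IsW w → ∀ k, 1 ≤ w k → ∑ i, w i • pts i = pts k := by
    intro w hw k hk
    have := dist_single hw k 4262.02 (fun i => dist_pts_le i k)
    have h0 : dist (∑ i, w i • pts i) (pts k) ≤ 0 := by linarith
    exact dist_le_zero.1 h0
  -- either `w 1 = 1 = w' 4` or `w 4 = 1 = w' 1`
  by_cases hc : w 1 = 0
  · right
    have h3 : 1 ≤ w 4 * w' 1 := by rw [hc] at hmX1; linarith
    have h31 : w 4 * w' 1 ≤ w 4 * 1 := mul_le_mul_of_nonneg_left (by linarith) a4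
    have h32 : w 4 * w' 1 ≤ 1 * w' 1 := mul_le_mul_of_nonneg_right (by linarith) b1
    have h4 : 1 ≤ w 4 := by linarith
    have h5 : 1 ≤ w' 1 := by linarith
    exact ⟨hpt hw 4 h4, hpt hw' 1 h5⟩
  · left
    have hc' : 0 < w 1 := lt_of_le_of_ne a1 (Ne.symm hc)
    have h6 : w 1 * w' 4 + w 4 * w' 1 ≤ w 1 * w' 4 + (1 - w 1) * (1 - w' 4) := by
      have : w 4 * w' 1 ≤ (1 - w 1) * (1 - w' 4) :=
        mul_le_mul (by linarith) (by linarith) b1 (by linarith)
      linarith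
    have h7 : w 1 * (1 - w' 4) + w' 4 * (1 - w 1) ≤ 0 := by linarith
    have h8 : 0 ≤ w' 4 * (1 - w 1) := mul_nonneg b4 (by linarith)
    have h9 : w' 4 = 1 := by
      by_contra hne
      have : 0 < 1 - w' 4 := by
        have : w' 4 ≤ 1 := by linarith
        rcases lt_or_eq_of_le this with h | h
        · linarith
        · exact absurd h hne
      have : 0 < w 1 * (1 - w' 4) := mul_pos hc' this
      linarith
    have h10 : 1 ≤ w 1 := by rw [h9] at h7; linarith
    exact ⟨hpt hw 1 h10, hpt hw' 4 h9.ge⟩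

end Pool.Agent.Helper38.CP
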