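import Pool.Agent.Helper38.CP.Near

open MeasureTheory Measure Set Metric Filter
open scoped ENNReal Topology

namespace Pool.Agent.Helper38.CP

lemma abs_coord_le {x y : Plane} {m : ℝ} (h : dist x y ≤ m) :
    |x 0 - y 0| ≤ m ∧ |x 1 - y 1| ≤ m := by
  have hm : 0 ≤ m := dist_nonneg.trans h
  have h2 : dist x y ^ 2 ≤ m ^ 2 := by gcongr
  rw [dist_sq] at h2
  constructor
  · exact abs_le_of_sq_le_sq (by nlinarith [sq_nonneg (x 1 - y 1)]) hm
  · exact abs_le_of_sq_le_sq (by nlinarith [sq_nonneg (x 0 - y 0)]) hm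

lemma nearX {a : Plane} (h : dist a pX ≤ 30) :
    -2162 ≤ a 0 ∧ a 0 ≤ -2102 ∧ 3041 ≤ a 1 ∧ a 1 ≤ 3102 := by
  obtain ⟨h1, h2⟩ := abs_coord_le h
  rw [pX0] at h1
  rw [pX1] at h2
  rw [abs_le] at h1 h2
  refine ⟨?_, ?_, ?_, ?_⟩ <;> linarith [h1.1, h1.2, h2.1, h2.2]

lemma nearY {a : Plane} (h : dist a pY ≤ 30) :
    2100 ≤ a 0 ∧ a 0 ≤ 2160 ∧ 3031 ≤ a 1 ∧ a 1 ≤ 3092 := by
  obtain ⟨h1, h2⟩ := abs_coord_le h
  rw [pY0] at h1
  rw [pY1] at h2
  rw [abs_le] at h1 h2
  refine ⟨?_, ?_, ?_, ?_⟩ <;> linarith [h1.1, h1.2, h2.1, h2.2]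

lemma penta_bounds {x : Plane} (hx : x ∈ penta) :
    -2132 ≤ x 0 ∧ x 0 ≤ 2130 ∧ 0 ≤ x 1 ∧ x 1 ≤ 4189 := by
  have h1 : penta ⊆ {x : Plane | -2132 ≤ x 0 ∧ x 0 ≤ 2130 ∧ 0 ≤ x 1 ∧ x 1 ≤ 4189} := by
    apply convexHull_min
    · rintro y (rfl | rfl | rfl | rfl | rfl) <;>
        simp only [mem_ofPred_eq, pV0, pV1, pA0, pA1, pB0, pB1, pX0, pX1, pY0, pY1] <;> norm_num
    · intro a ha b hb s t hs ht hst
      obtain ⟨a1, a2, a3, a4⟩ := ha
      obtain ⟨b1, b2, b3, b4⟩ := hb
      simp only [mem_ofPred_eq, PiLp.add_apply, PiLp.smul_apply, smul_eq_mul]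
      have hs' : s = 1 - t := by linarith
      subst hs'
      refine ⟨?_, ?_, ?_, ?_⟩ <;> nlinarith
  exact h1 hx

/-- A common interior point just below the middle of the diagonal. -/
lemma low_interior {P : Set Plane} (hP : Convex ℝ P) {a b z : Plane} (ha : a ∈ P) (hb : b ∈ P)
    (hz : z ∈ P) (haX : dist a pX ≤ 30) (hbY : dist b pY ≤ 30) (hzp : z ∈ penta)
    (hz1 : z 1 ≤ 2790) : (!₂[0, 2980] : Plane) ∈ interior P := by
  obtain ⟨a1, a2, a3, a4⟩ := nearX haX
  obtain ⟨b1, b2, b3, b4⟩ := nearY hbY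
  obtain ⟨z1, z2, z3, -⟩ := penta_bounds hzp
  have hsub : tri z b a ⊆ P := by
    apply convexHull_min _ hP
    rintro y (rfl | rfl | rfl) <;> assumption
  apply interior_mono hsub
  apply mem_interior_tri
  · have e : side z b (!₂[0, 2980] : Plane) = b 0 * (2980 - z 1) + z 0 * (b 1 - 2980) := by
      simp only [side]; simp; ring
    rw [e]
    have h1 : 2100 * 190 ≤ b 0 * (2980 - z 1) :=
      mul_le_mul b1 (by linarith) (by norm_num) (by linarith)
    have h2 : -2132 * 112 ≤ z 0 * (b 1 - 2980) := by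
      have h3 : -2132 * (b 1 - 2980) ≤ z 0 * (b 1 - 2980) :=
        mul_le_mul_of_nonneg_right z1 (by linarith)
      linarith
    linarith
  · have e : side b a (!₂[0, 2980] : Plane)
        = (b 0 - a 0) * (b 1 - 2980) + b 0 * (a 1 - b 1) := by
      simp only [side]; simp; ring
    rw [e]
    have h1 : 4202 * 51 ≤ (b 0 - a 0) * (b 1 - 2980) :=
      mul_le_mul (by linarith) (by linarith) (by norm_num) (by linarith)
    have h2 : - (2160 * 51) ≤ b 0 * (a 1 - b 1) := by
      have h3 : b 0 * (-51) ≤ b 0 * (a 1 - b 1) :=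
        mul_le_mul_of_nonneg_left (by linarith) (by linarith)
      linarith
    linarith
  · have e : side a z (!₂[0, 2980] : Plane) = (- a 0) * (2980 - z 1) - z 0 * (a 1 - 2980) := by
      simp only [side]; simp; ring
    rw [e]
    have h1 : 2102 * 190 ≤ (- a 0) * (2980 - z 1) :=
      mul_le_mul (by linarith) (by linarith) (by norm_num) (by linarith)
    have h2 : z 0 * (a 1 - 2980) ≤ 2132 * 122 := by
      have h3 : z 0 * (a 1 - 2980) ≤ 2132 * (a 1 - 2980) :=
        mul_le_mul_of_nonneg_right (by linarith) (by linarith)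
      linarith
    linarith

/-- A common interior point just above the middle of the diagonal. -/
lemma high_interior {P : Set Plane} (hP : Convex ℝ P) {a b z : Plane} (ha : a ∈ P) (hb : b ∈ P)
    (hz : z ∈ P) (haX : dist a pX ≤ 30) (hbY : dist b pY ≤ 30) (hzp : z ∈ penta)
    (hz1 : 3340 ≤ z 1) : (!₂[0, 3150] : Plane) ∈ interior P := by
  obtain ⟨a1, a2, a3, a4⟩ := nearX haX
  obtain ⟨b1, b2, b3, b4⟩ := nearY hbY
  obtain ⟨z1, z2, -, z4⟩ := penta_bounds hzp
  have hsub : tri a b z ⊆ P := by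
    apply convexHull_min _ hP
    rintro y (rfl | rfl | rfl) <;> assumption
  apply interior_mono hsub
  apply mem_interior_tri
  · have e : side a b (!₂[0, 3150] : Plane)
        = (b 0 - a 0) * (3150 - a 1) - (- a 0) * (b 1 - a 1) := by
      simp only [side]; simp; ring
    rw [e]
    have h1 : 4202 * 48 ≤ (b 0 - a 0) * (3150 - a 1) :=
      mul_le_mul (by linarith) (by linarith) (by norm_num) (by linarith)
    have h2 : (- a 0) * (b 1 - a 1) ≤ 2162 * 51 := by
      have h3 : (- a 0) * (b 1 - a 1) ≤ (- a 0) * 51 :=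
        mul_le_mul_of_nonneg_left (by linarith) (by linarith)
      linarith
    linarith
  · have e : side b z (!₂[0, 3150] : Plane) = b 0 * (z 1 - 3150) + z 0 * (3150 - b 1) := by
      simp only [side]; simp; ring
    rw [e]
    have h1 : 2100 * 190 ≤ b 0 * (z 1 - 3150) :=
      mul_le_mul b1 (by linarith) (by norm_num) (by linarith)
    have h2 : -2132 * 119 ≤ z 0 * (3150 - b 1) := by
      have h3 : -2132 * (3150 - b 1) ≤ z 0 * (3150 - b 1) :=
        mul_le_mul_of_nonneg_right z1 (by linarith)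
      linarith
    linarith
  · have e : side z a (!₂[0, 3150] : Plane) = (- a 0) * (z 1 - 3150) - z 0 * (3150 - a 1) := by
      simp only [side]; simp; ring
    rw [e]
    have h1 : 2102 * 190 ≤ (- a 0) * (z 1 - 3150) :=
      mul_le_mul (by linarith) (by linarith) (by norm_num) (by linarith)
    have h2 : z 0 * (3150 - a 1) ≤ 2132 * 109 := by
      have h3 : z 0 * (3150 - a 1) ≤ 2132 * (3150 - a 1) :=
        mul_le_mul_of_nonneg_right (by linarith) (by linarith)
      linarith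
    linarith

/-- A piece of a third of the area reaches out of the strip. -/
lemma exists_out {P : Set Plane} (hP : P ⊆ penta) (hv : volume P = ENNReal.ofReal 3267420) :
    ∃ z ∈ P, z 1 ≤ 2790 ∨ 3340 ≤ z 1 := by
  by_contra hcon
  push Not at hcon
  set a : Plane := !₂[-2132, 2790] with ha
  set b : Plane := !₂[2130, 2790] with hb
  set c : Plane := !₂[-2132, 3340] with hc
  have ha0 : a 0 = -2132 := by simp [ha]
  have ha1 : a 1 = 2790 := by simp [ha]
  have hb0 : b 0 = 2130 := by simp [hb]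
  have hb1 : b 1 = 2790 := by simp [hb]
  have hc0 : c 0 = -2132 := by simp [hc]
  have hc1 : c 1 = 3340 := by simp [hc]
  have hs : side a b c = 2344100 := by
    simp only [side, ha0, ha1, hb0, hb1, hc0, hc1]; norm_num
  have hpar := volume_par (a := a) (b := b) (c := c) (by rw [hs]; norm_num)
  rw [hs] at hpar
  have hsub : P ⊆ {x : Plane | (0 ≤ side a b x ∧ side a b x ≤ 2344100) ∧
      (0 ≤ side c a x ∧ side c a x ≤ 2344100)} := by
    intro x hx
    obtain ⟨x1, x2, -, -⟩ := penta_bounds (hP hx)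
    obtain ⟨x3, x4⟩ := hcon x hx
    have e1 : side a b x = 4262 * (x 1 - 2790) := by
      simp only [side, ha0, ha1, hb0, hb1]; ring
    have e2 : side c a x = 550 * (x 0 + 2132) := by
      simp only [side, ha0, ha1, hc0, hc1]; ring
    simp only [mem_ofPred_eq, e1, e2]
    refine ⟨⟨?_, ?_⟩, ?_, ?_⟩ <;> linarith
  have h1 := measure_mono (μ := volume) hsub
  rw [hpar, hv, ENNReal.ofReal_le_ofReal_iff (by norm_num)] at h1
  norm_num at h1

/-- Three pieces with pairwise disjoint interiors, each a third of the area, cannot all contain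
points near both ends of the diagonal. -/
lemma three_contra {P Q R : Set Plane} (hP : IsConvexBody P) (hQ : IsConvexBody Q)
    (hR : IsConvexBody R) (hPQ : Disjoint (interior P) (interior Q))
    (hPR : Disjoint (interior P) (interior R)) (hQR : Disjoint (interior Q) (interior R))
    (sP : P ⊆ penta) (sQ : Q ⊆ penta) (sR : R ⊆ penta)
    (vP : volume P = ENNReal.ofReal 3267420) (vQ : volume Q = ENNReal.ofReal 3267420)
    (vR : volume R = ENNReal.ofReal 3267420)
    (nP : ∃ a ∈ P, ∃ b ∈ P, NXY 30 a b) (nQ : ∃ a ∈ Q, ∃ b ∈ Q, NXY 30 a b)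
    (nR : ∃ a ∈ R, ∃ b ∈ R, NXY 30 a b) : False := by
  have key : ∀ {P : Set Plane}, IsConvexBody P → P ⊆ penta →
      volume P = ENNReal.ofReal 3267420 → (∃ a ∈ P, ∃ b ∈ P, NXY 30 a b) →
      (!₂[0, 2980] : Plane) ∈ interior P ∨ (!₂[0, 3150] : Plane) ∈ interior P := by
    intro P hP sP vP nP
    obtain ⟨z, hz, hz1⟩ := exists_out sP vP
    have : ∃ a ∈ P, ∃ b ∈ P, dist a pX ≤ 30 ∧ dist b pY ≤ 30 := by
      obtain ⟨a, ha, b, hb, h | h⟩ := nP
      · exact ⟨a, ha, b, hb, h⟩
      · exact ⟨b, hb, a, ha, h.2, h.1⟩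
    obtain ⟨a, ha, b, hb, haX, hbY⟩ := this
    rcases hz1 with h | h
    · left; exact low_interior hP.2.1 ha hb hz haX hbY (sP hz) h
    · right; exact high_interior hP.2.1 ha hb hz haX hbY (sP hz) h
  rw [disjoint_left] at hPQ hPR hQR
  rcases key hP sP vP nP with h1 | h1 <;> rcases key hQ sQ vQ nQ with h2 | h2 <;>
    rcases key hR sR vR nR with h3 | h3
  · exact hPQ h1 h2
  · exact hPQ h1 h2
  · exact hPR h1 h3
  · exact hQR h2 h3
  · exact hQR h2 h3
  · exact hPR h1 h3
  · exact hPQ h1 h2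
  · exact hPQ h1 h2

/-- A near diagonal common segment separates, so no bottom-to-top segment lies in one piece. -/
lemma no_cross {P Q : Set Plane} (hP : IsConvexBody P) (hQ : IsConvexBody Q)
    (hPQ : Disjoint (interior P) (interior Q)) (sP : P ⊆ penta)
    {a b c d : Plane} (ha : a ∈ P ∩ Q) (hb : b ∈ P ∩ Q) (hab : NXY 30 a b)
    (hc : c ∈ P) (hd : d ∈ P) (hcd : VAB c d) : False := by
  -- reduce to `a` near `X`, `b` near `Y`, `c` low, `d` high
  have main : ∀ {a b c d : Plane}, a ∈ P ∩ Q → b ∈ P ∩ Q → dist a pX ≤ 30 → dist b pY ≤ 30 →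
      c ∈ P → d ∈ P → c 1 ≤ 30 → 4160 ≤ d 1 → False := by
    intro a b c d ha hb haX hbY hc hd hc1 hd1
    obtain ⟨a1, a2, a3, a4⟩ := nearX haX
    obtain ⟨b1, b2, b3, b4⟩ := nearY hbY
    obtain ⟨c1, c2, c3, c4⟩ := penta_bounds (sP hc)
    obtain ⟨d1, d2, d3, d4⟩ := penta_bounds (sP hd)
    have hab : a ≠ b := by
      rintro rfl
      linarith
    have hsc : side a b c < 0 := by
      simp only [side]
      have h1 : (b 0 - a 0) * (c 1 - a 1) ≤ 4202 * (c 1 - a 1) :=
        mul_le_mul_of_nonpos_right (by linarith) (by linarith)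
      have h2 : |(b 1 - a 1) * (c 0 - a 0)| ≤ 71 * 4300 := by
        rw [abs_mul]
        apply mul_le_mul _ _ (abs_nonneg _) (by norm_num)
        · rw [abs_le]; constructor <;> linarith
        · rw [abs_le]; constructor <;> linarith
      rw [abs_le] at h2
      linarith [h2.1]
    have hsd : 0 < side a b d := by
      simp only [side]
      have h1 : 4202 * (d 1 - a 1) ≤ (b 0 - a 0) * (d 1 - a 1) :=
        mul_le_mul_of_nonneg_right (by linarith) (by linarith)
      have h2 : |(b 1 - a 1) * (d 0 - a 0)| ≤ 71 * 4300 := by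
        rw [abs_mul]
        apply mul_le_mul _ _ (abs_nonneg _) (by norm_num)
        · rw [abs_le]; constructor <;> linarith
        · rw [abs_le]; constructor <;> linarith
      rw [abs_le] at h2
      linarith [h2.2]
    rcases sep hP hQ hPQ hab ha hb with ⟨h1, -⟩ | ⟨h1, -⟩
    · linarith [h1 d hd]
    · linarith [h1 c hc]
  rcases hab with ⟨h1, h2⟩ | ⟨h1, h2⟩ <;> rcases hcd with ⟨h3, h4⟩ | ⟨h3, h4⟩
  · exact main ha hb h1 h2 hc hd h3 h4
  · exact main ha hb h1 h2 hd hc h3 h4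
  · exact main hb ha h2 h1 hc hd h3 h4
  · exact main hb ha h2 h1 hd hc h3 h4

end Pool.Agent.Helper38.CP
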