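import Pool.Agent.Helper38.CP.Basic

open MeasureTheory Measure Set Metric
open scoped ENNReal Topology

namespace Pool.Agent.Helper38.CP

lemma null_of_finite {S : Set Plane} (h : S.Finite) : μH[1] S = 0 := by
  have := nullSingletonClass_hausdorff Plane (d := 1) one_pos
  exact h.measure_zero _

lemma not_mem_openSegment_of_frontier {C P Q : Set Plane} (hC : IsConvexBody C)
    (hP : IsConvexBody P) (hQ : IsConvexBody Q) (hPC : P ⊆ C) (hQC : Q ⊆ C)
    (h : Disjoint (interior P) (interior Q)) : (frontier C ∩ (P ∩ Q)).Finite := by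
  rcases (P ∩ Q).eq_empty_or_nonempty with he | hne
  · rw [he]; simp
  · obtain ⟨a, b, ha, hb, hab⟩ := inter_eq_segment hP hQ h hne
    apply Set.Finite.subset (Set.toFinite {a, b})
    rintro x ⟨hx1, hx2⟩
    rw [hab] at hx2
    by_contra hx3
    simp only [mem_insert_iff, mem_singleton_iff, not_or] at hx3
    have hx4 : x ∈ openSegment ℝ a b :=
      mem_openSegment_of_ne_left_right (Ne.symm hx3.1) (Ne.symm hx3.2) hx2
    have hne' : a ≠ b := by
      rintro rfl
      rw [segment_same] at hx2
      exact hx3.1 hx2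
    have := mem_interior_of_openSegment hC hP hQ hPC hQC h hne' ha hb hx4
    exact hx1.2 this

/-- The frontier of a piece: its part on the frontier of `C` and the common parts. -/
lemma frontier_piece {C P Q R : Set Plane} (hC : IsConvexBody C)
    (hP : IsConvexBody P) (hQ : IsConvexBody Q) (hR : IsConvexBody R)
    (hPQ : Disjoint (interior P) (interior Q)) (hPR : Disjoint (interior P) (interior R))
    (hcov : P ∪ Q ∪ R = C) :
    frontier P = (frontier C ∩ P) ∪ (P ∩ Q) ∪ (P ∩ R) := by
  have hPC : P ⊆ C := by rw [← hcov]; intro x hx; exact Or.inl (Or.inl hx)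
  have hdQ := disjoint_interior_left hQ hPQ
  have hdR := disjoint_interior_left hR hPR
  apply Subset.antisymm
  · intro x hx
    have hxP : x ∈ P := hP.1.isClosed.frontier_subset hx
    by_cases h1 : x ∈ frontier C
    · exact Or.inl (Or.inl ⟨h1, hxP⟩)
    by_cases h2 : x ∈ Q
    · exact Or.inl (Or.inr ⟨hxP, h2⟩)
    by_cases h3 : x ∈ R
    · exact Or.inr ⟨hxP, h3⟩
    exfalso
    have h4 : x ∈ interior C := by
      by_contra h5
      exact h1 ⟨subset_closure (hPC hxP), h5⟩
    have h6 : interior C ∩ (Qᶜ ∩ Rᶜ) ⊆ P := by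
      rintro y ⟨hy1, hy2, hy3⟩
      have := interior_subset hy1
      rw [← hcov] at this
      rcases this with (h | h) | h
      · exact h
      · exact absurd h hy2
      · exact absurd h hy3
    have h7 : IsOpen (interior C ∩ (Qᶜ ∩ Rᶜ)) :=
      isOpen_interior.inter (hQ.1.isClosed.isOpen_compl.inter hR.1.isClosed.isOpen_compl)
    have h8 : x ∈ interior P := interior_maximal h6 h7 ⟨h4, h2, h3⟩
    exact hx.2 h8
  · rintro x ((⟨hx1, hx2⟩ | ⟨hx1, hx2⟩) | ⟨hx1, hx2⟩)
    · refine ⟨subset_closure hx2, fun h => hx1.2 (interior_mono hPC h)⟩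
    · exact ⟨subset_closure hx1, fun h => (disjoint_left.1 hdQ) h hx2⟩
    · exact ⟨subset_closure hx1, fun h => (disjoint_left.1 hdR) h hx2⟩

/-- The perimeter of a piece. -/
lemma perimeter_piece {C P Q R : Set Plane} (hC : IsConvexBody C)
    (hP : IsConvexBody P) (hQ : IsConvexBody Q) (hR : IsConvexBody R)
    (hPQ : Disjoint (interior P) (interior Q)) (hPR : Disjoint (interior P) (interior R))
    (hQR : Disjoint (interior Q) (interior R)) (hcov : P ∪ Q ∪ R = C) :
    μH[1] (frontier P) = μH[1] (frontier C ∩ P) + μH[1] (P ∩ Q) + μH[1] (P ∩ R) := by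
  have hPC : P ⊆ C := by rw [← hcov]; intro x hx; exact Or.inl (Or.inl hx)
  have hQC : Q ⊆ C := by rw [← hcov]; intro x hx; exact Or.inl (Or.inr hx)
  have hRC : R ⊆ C := by rw [← hcov]; intro x hx; exact Or.inr hx
  rw [frontier_piece hC hP hQ hR hPQ hPR hcov]
  have m1 : MeasurableSet (P ∩ R) := (hP.1.inter hR.1).measurableSet
  have m2 : MeasurableSet (P ∩ Q) := (hP.1.inter hQ.1).measurableSet
  rw [measure_union₀ m1.nullMeasurableSet, measure_union₀ m2.nullMeasurableSet]
  · -- `∂C ∩ P` and `P ∩ Q`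
    apply null_of_finite
    apply (not_mem_openSegment_of_frontier hC hP hQ hPC hQC hPQ).subset
    rintro x ⟨hx1, hx2⟩
    exact ⟨hx1.1, hx2⟩
  · apply null_of_finite
    apply Set.Finite.subset (s := (frontier C ∩ (P ∩ R)) ∪ (P ∩ Q ∩ R))
    · apply Set.Finite.union (not_mem_openSegment_of_frontier hC hP hR hPC hRC hPR)
      exact (triple_subsingleton hP hQ hR hPQ hPR hQR).finite
    · rintro x ⟨hx1 | hx1, hx2⟩
      · exact Or.inl ⟨hx1.1, hx2⟩
      · exact Or.inr ⟨hx1, hx2.2⟩

/-- **Total perimeter formula** for a partition of a convex body into three convex bodies. -/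
theorem total_perimeter {C P Q R : Set Plane} (hC : IsConvexBody C)
    (hP : IsConvexBody P) (hQ : IsConvexBody Q) (hR : IsConvexBody R)
    (hPQ : Disjoint (interior P) (interior Q)) (hPR : Disjoint (interior P) (interior R))
    (hQR : Disjoint (interior Q) (interior R)) (hcov : P ∪ Q ∪ R = C) :
    μH[1] (frontier P) + μH[1] (frontier Q) + μH[1] (frontier R) =
      μH[1] (frontier C) + 2 * (μH[1] (P ∩ Q) + μH[1] (P ∩ R) + μH[1] (Q ∩ R)) := by
  have hPC : P ⊆ C := by rw [← hcov]; intro x hx; exact Or.inl (Or.inl hx)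
  have hQC : Q ⊆ C := by rw [← hcov]; intro x hx; exact Or.inl (Or.inr hx)
  have hRC : R ⊆ C := by rw [← hcov]; intro x hx; exact Or.inr hx
  have hcov2 : Q ∪ P ∪ R = C := by rw [union_comm Q P]; exact hcov
  have hcov3 : R ∪ P ∪ Q = C := by rw [union_assoc, union_comm]; exact hcov
  rw [perimeter_piece hC hP hQ hR hPQ hPR hQR hcov,
    perimeter_piece hC hQ hP hR hPQ.symm hQR hPR hcov2,
    perimeter_piece hC hR hP hQ hPR.symm hQR.symm hPQ hcov3]
  have hsum : μH[1] (frontier C) =
      μH[1] (frontier C ∩ P) + μH[1] (frontier C ∩ Q) + μH[1] (frontier C ∩ R) := by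
    have e : frontier C = (frontier C ∩ P) ∪ (frontier C ∩ Q) ∪ (frontier C ∩ R) := by
      rw [← inter_union_distrib_left, ← inter_union_distrib_left, hcov]
      exact (inter_eq_left.2 hC.1.isClosed.frontier_subset).symm
    have m0 : MeasurableSet (frontier C) := isClosed_frontier.measurableSet
    have m1 : MeasurableSet (frontier C ∩ R) := m0.inter hR.1.measurableSet
    have m2 : MeasurableSet (frontier C ∩ Q) := m0.inter hQ.1.measurableSet
    conv_lhs => rw [e]
    rw [measure_union₀ m1.nullMeasurableSet, measure_union₀ m2.nullMeasurableSet]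
    · apply null_of_finite
      apply (not_mem_openSegment_of_frontier hC hP hQ hPC hQC hPQ).subset
      rintro x ⟨hx1, hx2⟩
      exact ⟨hx1.1, hx1.2, hx2.2⟩
    · apply null_of_finite
      apply Set.Finite.subset (s := (frontier C ∩ (P ∩ R)) ∪ (frontier C ∩ (Q ∩ R)))
      · exact Set.Finite.union (not_mem_openSegment_of_frontier hC hP hR hPC hRC hPR)
          (not_mem_openSegment_of_frontier hC hQ hR hQC hRC hQR)
      · rintro x ⟨hx1 | hx1, hx2⟩
        · exact Or.inl ⟨hx1.1, hx1.2, hx2.2⟩
        · exact Or.inr ⟨hx1.1, hx1.2, hx2.2⟩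
  rw [hsum, inter_comm Q P, inter_comm R P, inter_comm R Q]
  ring

/-- Nerve lemma for three pieces: if each pair of pieces shares a nondegenerate segment, there is a
common interior point. -/
theorem exists_triple_point {C P Q R : Set Plane} (hC : IsConvexBody C)
    (hP : IsConvexBody P) (hQ : IsConvexBody Q) (hR : IsConvexBody R)
    (hPQ : Disjoint (interior P) (interior Q)) (hPR : Disjoint (interior P) (interior R))
    (hQR : Disjoint (interior Q) (interior R)) (hcov : P ∪ Q ∪ R = C)
    (n1 : (P ∩ Q).Nontrivial) (n2 : (P ∩ R).Nontrivial) (n3 : (Q ∩ R).Nontrivial) :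
    ∃ x ∈ interior C, x ∈ P ∧ x ∈ Q ∧ x ∈ R := by
  have hPC : P ⊆ C := by rw [← hcov]; intro x hx; exact Or.inl (Or.inl hx)
  have hQC : Q ⊆ C := by rw [← hcov]; intro x hx; exact Or.inl (Or.inr hx)
  have hRC : R ⊆ C := by rw [← hcov]; intro x hx; exact Or.inr hx
  -- an interior point of each common segment
  have mid : ∀ {A B : Set Plane}, IsConvexBody A → IsConvexBody B → A ⊆ C → B ⊆ C →
      Disjoint (interior A) (interior B) → (A ∩ B).Nontrivial →
      ∃ x ∈ interior C, x ∈ A ∧ x ∈ B := by
    intro A B hA hB hAC hBC hAB ⟨u, hu, v, hv, huv⟩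
    refine ⟨(1/2 : ℝ) • u + (1/2 : ℝ) • v, ?_, ?_, ?_⟩
    · apply mem_interior_of_openSegment hC hA hB hAC hBC hAB huv hu hv
      exact ⟨1/2, 1/2, by norm_num, by norm_num, by norm_num, rfl⟩
    · exact hA.2.1 hu.1 hv.1 (by norm_num) (by norm_num) (by norm_num)
    · exact hB.2.1 hu.2 hv.2 (by norm_num) (by norm_num) (by norm_num)
  obtain ⟨x, hx, hxP, hxQ⟩ := mid hP hQ hPC hQC hPQ n1
  obtain ⟨y, hy, hyP, hyR⟩ := mid hP hR hPC hRC hPR n2
  obtain ⟨z, hz, hzQ, hzR⟩ := mid hQ hR hQC hRC hQR n3
  set T : Set Plane := convexHull ℝ {x, y, z} with hT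
  have hTc : IsCompact T := (Set.toFinite _).isCompact_convexHull ℝ
  have hTv : Convex ℝ T := convex_convexHull ℝ _
  have hTC : T ⊆ interior C := by
    apply convexHull_min _ hC.2.1.interior
    rintro w (rfl | rfl | rfl) <;> assumption
  have hxT : x ∈ T := subset_convexHull ℝ _ (by simp)
  have hyT : y ∈ T := subset_convexHull ℝ _ (by simp)
  have hzT : z ∈ T := subset_convexHull ℝ _ (by simp)
  by_contra hcon
  push Not at hcon
  -- separate `P ∩ Q ∩ T` from `R ∩ T`
  have hdisj : Disjoint (P ∩ Q ∩ T) (R ∩ T) := by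
    rw [disjoint_left]
    rintro w ⟨⟨h1, h2⟩, h3⟩ ⟨h4, -⟩
    exact hcon w (hTC h3) h1 h2 h4
  obtain ⟨f, u, v, hf1, huv, hf2⟩ := geometric_hahn_banach_compact_closed
    ((hP.2.1.inter hQ.2.1).inter hTv) ((hP.1.inter hQ.1).inter hTc)
    (hR.2.1.inter hTv) (hR.1.inter hTc).isClosed hdisj
  -- the line `f = u`
  set H : Set Plane := T ∩ {w | f w = u} with hH
  have hHconv : Convex ℝ H := by
    apply hTv.inter
    intro a ha b hb s t _ _ hst
    simp only [mem_ofPred_eq] at *
    rw [map_add, map_smul, map_smul, ha, hb, smul_eq_mul, smul_eq_mul, ← add_mul, hst, one_mul]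
  have hHpre : IsPreconnected H := hHconv.isPreconnected
  have hsub : H ⊆ P ∪ Q := by
    rintro w ⟨hw1, hw2⟩
    have := interior_subset (hTC hw1)
    rw [← hcov] at this
    rcases this with h | h
    · exact h
    · exfalso
      have h1 := hf2 w ⟨h, hw1⟩
      have h2 : f w = u := hw2
      linarith
  -- crossing points
  have cross : ∀ {A : Set Plane}, Convex ℝ A → ∀ {a b : Plane}, a ∈ A → b ∈ A → a ∈ T → b ∈ T →
      f a < u → u < f b → (H ∩ A).Nonempty := by
    intro A hA a b ha hb haT hbT h1 h2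
    have hd : 0 < f b - f a := by linarith
    set t := (u - f a) / (f b - f a) with ht
    have ht0 : 0 ≤ t := div_nonneg (by linarith) hd.le
    have ht1 : t ≤ 1 := by rw [ht, div_le_one hd]; linarith
    refine ⟨(1 - t) • a + t • b, ⟨?_, ?_⟩, ?_⟩
    · exact hTv haT hbT (by linarith) ht0 (by ring)
    · show f ((1 - t) • a + t • b) = u
      rw [map_add, map_smul, map_smul, smul_eq_mul, smul_eq_mul]
      have : t * (f b - f a) = u - f a := by rw [ht]; field_simp
      linarith
    · exact hA ha hb (by linarith) ht0 (by ring)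
  have hx1 : f x < u := hf1 x ⟨⟨hxP, hxQ⟩, hxT⟩
  have hy1 : v < f y := hf2 y ⟨hyR, hyT⟩
  have hz1 : v < f z := hf2 z ⟨hzR, hzT⟩
  have c1 := cross hP.2.1 hxP hyP hxT hyT hx1 (huv.trans hy1)
  have c2 := cross hQ.2.1 hxQ hzQ hxT hzT hx1 (huv.trans hz1)
  obtain ⟨w, hw1, hw2⟩ := isPreconnected_closed_iff.1 hHpre P Q hP.1.isClosed hQ.1.isClosed hsub c1 c2
  have := hf1 w ⟨hw2, hw1.1⟩
  have h3 : f w = u := hw1.2
  linarith

/-- At a triple point, the common part of two pieces is a segment emanating from that point. -/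
lemma inter_eq_segment_of_triple {P Q R : Set Plane} (hP : IsConvexBody P) (hQ : IsConvexBody Q)
    (hR : IsConvexBody R) (hPQ : Disjoint (interior P) (interior Q))
    (hPR : Disjoint (interior P) (interior R)) (hQR : Disjoint (interior Q) (interior R))
    {p : Plane} (h1 : p ∈ P) (h2 : p ∈ Q) (h3 : p ∈ R) :
    ∃ q, q ∈ P ∧ q ∈ Q ∧ P ∩ Q = segment ℝ p q := by
  obtain ⟨a, b, ha, hb, hab⟩ := inter_eq_segment hP hQ hPQ ⟨p, h1, h2⟩
  by_cases hpa : p = a
  · exact ⟨b, hb.1, hb.2, by rw [hab, hpa]⟩
  by_cases hpb : p = b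
  · exact ⟨a, ha.1, ha.2, by rw [hab, hpb, segment_symm]⟩
  exfalso
  have hp : p ∈ openSegment ℝ a b :=
    mem_openSegment_of_ne_left_right (Ne.symm hpa) (Ne.symm hpb) (hab ▸ ⟨h1, h2⟩)
  have hne : a ≠ b := by
    rintro rfl
    have : p ∈ P ∩ Q := ⟨h1, h2⟩
    rw [hab, segment_same] at this
    exact hpa this
  -- a separating functional at `p` between a piece containing `a, b` and `R`
  have key : ∀ {A : Set Plane}, IsConvexBody A → Disjoint (interior A) (interior R) → p ∈ A →
      a ∈ A → b ∈ A → ∃ κ : ℝ, κ ≠ 0 ∧ (∀ x ∈ A, κ * side a b x ≤ 0) ∧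
        (∀ x ∈ R, 0 ≤ κ * side a b x) := by
    intro A hA hAR hpA haA hbA
    obtain ⟨f, c, hf, hfA, hfR⟩ := geometric_hahn_banach_of_nonempty_interior hA.2.1 hR.2.1
      (disjoint_interior_left hR hAR) hA.2.2 ⟨p, h3⟩
    have hfp : f p = c := le_antisymm (hfA p hpA) (hfR p h3)
    obtain ⟨s, t, hs, ht, hst, hp'⟩ := hp
    have e1 := hfA a haA
    have e2 := hfA b hbA
    have e3 : s * f a + t * f b = c := by
      rw [← hfp, ← hp', map_add, map_smul, map_smul, smul_eq_mul, smul_eq_mul]
    have hs' : s = 1 - t := by linarith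
    have ea : f a = c := by
      apply le_antisymm e1
      by_contra hcon
      push Not at hcon
      have : s * f a + t * f b < s * c + t * c := by
        have h1 : s * f a < s * c := by exact mul_lt_mul_of_pos_left hcon hs
        have h2 : t * f b ≤ t * c := by exact mul_le_mul_of_nonneg_left e2 ht.le
        linarith
      rw [← add_mul, hst, one_mul, e3] at this
      exact lt_irrefl _ this
    have eb : f b = c := by
      apply le_antisymm e2
      by_contra hcon
      push Not at hcon
      have : s * f a + t * f b < s * c + t * c := by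
        have h1 : t * f b < t * c := by exact mul_lt_mul_of_pos_left hcon ht
        have h2 : s * f a ≤ s * c := by exact mul_le_mul_of_nonneg_left e1 hs.le
        linarith
      rw [← add_mul, hst, one_mul, e3] at this
      exact lt_irrefl _ this
    obtain ⟨κ, hκ, hκ0⟩ := functional_eq_side f hne (ea.trans eb.symm)
    refine ⟨κ, hκ0 hf, ?_, ?_⟩
    · intro x hx
      rw [← hκ x, ea]
      have := hfA x hx
      linarith
    · intro x hx
      rw [← hκ x, ea]
      have := hfR x hx
      linarith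
  obtain ⟨κ, hκ, k1, k2⟩ := key hP hPR h1 ha.1 hb.1
  obtain ⟨τ, hτ, t1, t2⟩ := key hQ hQR h2 ha.2 hb.2
  obtain ⟨x, hx, hx'⟩ := exists_side_ne hP.2.2 hne
  obtain ⟨y, hy, hy'⟩ := exists_side_ne hQ.2.2 hne
  obtain ⟨z, hz, hz'⟩ := exists_side_ne hR.2.2 hne
  have a1 := k1 x hx
  have a2 := k2 z hz
  have a3 := t1 y hy
  have a4 := t2 z hz
  have hz2 : 0 < side a b z ^ 2 := by positivity
  -- `κ` and `τ` have the same sign, forced by `z`
  rcases sep hP hQ hPQ hne ha hb with ⟨b1, b2⟩ | ⟨b1, b2⟩
  · have c1 := lt_of_le_of_ne (b1 x hx) hx'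
    have c2 := lt_of_le_of_ne (b2 y hy) (Ne.symm hy')
    have c3 : 0 < κ := by
      rcases lt_or_gt_of_ne hκ with h | h
      · nlinarith
      · exact h
    have c4 : τ < 0 := by
      rcases lt_or_gt_of_ne hτ with h | h
      · exact h
      · nlinarith
    rcases lt_or_gt_of_ne hz' with h | h
    · nlinarith
    · nlinarith
  · have c1 := lt_of_le_of_ne (b1 x hx) (Ne.symm hx')
    have c2 := lt_of_le_of_ne (b2 y hy) hy'
    have c3 : κ < 0 := by
      rcases lt_or_gt_of_ne hκ with h | h
      · exact h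
      · nlinarith
    have c4 : 0 < τ := by
      rcases lt_or_gt_of_ne hτ with h | h
      · nlinarith
      · exact h
    rcases lt_or_gt_of_ne hz' with h | h
    · nlinarith
    · nlinarith

/-- At an interior triple point `p`, the point `p` lies in the convex hull of the other endpoints
of the three common segments. -/
lemma triple_mem_convexHull {C P Q R : Set Plane}
    (hP : IsConvexBody P) (hQ : IsConvexBody Q) (hR : IsConvexBody R)
    (hPQ : Disjoint (interior P) (interior Q)) (hPR : Disjoint (interior P) (interior R))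
    (hQR : Disjoint (interior Q) (interior R)) (hcov : P ∪ Q ∪ R = C)
    {p : Plane} (hp : p ∈ interior C) (h1 : p ∈ P) (h2 : p ∈ Q) (h3 : p ∈ R) {q r s : Plane}
    (hq : P ∩ Q = segment ℝ p q) (hr : P ∩ R = segment ℝ p r) (hs : Q ∩ R = segment ℝ p s) :
    p ∈ convexHull ℝ {q, r, s} := by
  by_contra hcon
  obtain ⟨f, u, hfp, hf⟩ := geometric_hahn_banach_point_closed (convex_convexHull ℝ _)
    ((Set.toFinite ({q, r, s} : Set Plane)).isCompact_convexHull ℝ).isClosed hcon
  have hfq : f p < f q := hfp.trans (hf q (subset_convexHull ℝ _ (by simp)))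
  have hfr : f p < f r := hfp.trans (hf r (subset_convexHull ℝ _ (by simp)))
  have hfs : f p < f s := hfp.trans (hf s (subset_convexHull ℝ _ (by simp)))
  -- a small half disc
  obtain ⟨ε, hε, hball⟩ := Metric.isOpen_iff.1 isOpen_interior p hp
  set D : Set Plane := ball p ε ∩ {x | f x < f p} with hD
  have hDconv : Convex ℝ D := (convex_ball p ε).inter
    (convex_halfSpace_lt f.isBoundedLinearMap.toIsLinearMap _)
  have hDopen : IsOpen D := isOpen_ball.inter (isOpen_lt f.continuous continuous_const)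
  have hseg : ∀ {q : Plane}, f p < f q → ∀ x ∈ segment ℝ p q, f p ≤ f x := by
    rintro q hq x ⟨a, b, ha, hb, hab, rfl⟩
    rw [map_add, map_smul, map_smul, smul_eq_mul, smul_eq_mul]
    have : a = 1 - b := by linarith
    subst this
    nlinarith
  have hDcov : D ⊆ P ∪ (Q ∪ R) := by
    intro x hx
    have := interior_subset (hball hx.1)
    rw [← hcov, union_assoc] at this
    exact this
  -- near `p`, in every direction with smaller `f`
  have hnear : ∀ {q : Plane}, f p < f q → ∃ d ∈ D, p ∈ openSegment ℝ d q := by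
    intro q hq
    have hcont : Continuous (fun t : ℝ => p + t • (p - q)) := by fun_prop
    have h0 : (fun t : ℝ => p + t • (p - q)) 0 ∈ ball p ε := by simpa using hε
    have hev : ∀ᶠ t in 𝓝 (0 : ℝ), p + t • (p - q) ∈ ball p ε :=
      hcont.continuousAt.eventually (isOpen_ball.mem_nhds h0)
    have hev2 : ∀ᶠ t in 𝓝[>] (0 : ℝ), p + t • (p - q) ∈ ball p ε :=
      hev.filter_mono nhdsWithin_le_nhds
    obtain ⟨t, ht, ht0⟩ := (hev2.and self_mem_nhdsWithin).exists
    have ht0' : 0 < t := ht0
    refine ⟨p + t • (p - q), ⟨ht, ?_⟩, ?_⟩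
    · show f (p + t • (p - q)) < f p
      rw [map_add, map_smul, map_sub, smul_eq_mul]
      nlinarith
    · refine ⟨1 / (1 + t), t / (1 + t), by positivity, by positivity, by field_simp, ?_⟩
      have : (1 + t) ≠ 0 := by positivity
      rw [smul_add, smul_smul, smul_sub]
      apply plane_ext
      · simp only [PiLp.add_apply, PiLp.sub_apply, PiLp.smul_apply, smul_eq_mul]
        field_simp
        ring
      · simp only [PiLp.add_apply, PiLp.sub_apply, PiLp.smul_apply, smul_eq_mul]
        field_simp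
        ring
  obtain ⟨d0, hd0, -⟩ := hnear hfq
  have hDne : D.Nonempty := ⟨d0, hd0⟩
  have hDpre : IsPreconnected D := hDconv.isPreconnected
  -- `D` is contained in one of the pieces
  have hone : D ⊆ P ∨ D ⊆ Q ∨ D ⊆ R := by
    by_cases hDP : (D ∩ P).Nonempty
    · by_cases hDQR : (D ∩ (Q ∪ R)).Nonempty
      · exfalso
        obtain ⟨w, hw1, hw2, hw3⟩ := isPreconnected_closed_iff.1 hDpre P (Q ∪ R) hP.1.isClosed
          (hQ.1.isClosed.union hR.1.isClosed) hDcov hDP hDQR
        have hlt : f w < f p := hw1.2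
        rcases hw3 with hw3 | hw3
        · have := hseg hfq w (hq ▸ ⟨hw2, hw3⟩)
          linarith
        · have := hseg hfr w (hr ▸ ⟨hw2, hw3⟩)
          linarith
      · left
        intro x hx
        rcases hDcov hx with h | h
        · exact h
        · exact absurd ⟨x, hx, h⟩ hDQR
    · have hDQR : D ⊆ Q ∪ R := by
        intro x hx
        rcases hDcov hx with h | h
        · exact absurd ⟨x, hx, h⟩ hDP
        · exact h
      by_cases hDQ : (D ∩ Q).Nonempty
      · by_cases hDR : (D ∩ R).Nonempty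
        · exfalso
          obtain ⟨w, hw1, hw2, hw3⟩ := isPreconnected_closed_iff.1 hDpre Q R hQ.1.isClosed
            hR.1.isClosed hDQR hDQ hDR
          have hlt : f w < f p := hw1.2
          have := hseg hfs w (hs ▸ ⟨hw2, hw3⟩)
          linarith
        · right; left
          intro x hx
          rcases hDQR hx with h | h
          · exact h
          · exact absurd ⟨x, hx, h⟩ hDR
      · right; right
        intro x hx
        rcases hDQR hx with h | h
        · exact absurd ⟨x, hx, h⟩ hDQ
        · exact h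
  -- each case is contradictory
  have key : ∀ {A B : Set Plane}, IsConvexBody A → IsConvexBody B →
      Disjoint (interior A) (interior B) → p ∈ B → ∀ {q : Plane}, q ∈ A → f p < f q → D ⊆ A →
      False := by
    intro A B hA hB hAB hpB q hqA hfq hDA
    obtain ⟨d, hd, hpd⟩ := hnear hfq
    have hdA : d ∈ interior A := interior_maximal hDA hDopen hd
    have hpA : p ∈ interior A := hA.2.1.openSegment_interior_self_subset_interior hdA hqA hpd
    exact disjoint_left.1 (disjoint_interior_left hB hAB) hpA hpB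
  have hqm : q ∈ P ∩ Q := hq ▸ right_mem_segment ℝ p q
  have hrm : r ∈ P ∩ R := hr ▸ right_mem_segment ℝ p r
  rcases hone with h | h | h
  · exact key hP hQ hPQ h2 hqm.1 hfq h
  · exact key hQ hP hPQ.symm h1 hqm.2 hfq h
  · exact key hR hP hPR.symm h1 hrm.2 hfr h

end Pool.Agent.Helper38.CP
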