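import Pool.Agent.Helper38.CP.Cut

open MeasureTheory Measure Set Metric Filter
open scoped ENNReal Topology

namespace Pool.Agent.Helper38.CP

noncomputable def pV : Plane := !₂[0, 0]
noncomputable def pA : Plane := !₂[-780, 4189]
noncomputable def pB : Plane := !₂[780, 4189]
noncomputable def pX : Plane := !₂[-2132, 46079 / 15]
noncomputable def pY : Plane := !₂[2130, 79591 / 26]

@[simp] lemma pV0 : pV 0 = 0 := by simp [pV]
@[simp] lemma pV1 : pV 1 = 0 := by simp [pV]
@[simp] lemma pA0 : pA 0 = -780 := by simp [pA]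
@[simp] lemma pA1 : pA 1 = 4189 := by simp [pA]
@[simp] lemma pB0 : pB 0 = 780 := by simp [pB]
@[simp] lemma pB1 : pB 1 = 4189 := by simp [pB]
@[simp] lemma pX0 : pX 0 = -2132 := by simp [pX]
@[simp] lemma pX1 : pX 1 = 46079 / 15 := by simp [pX]
@[simp] lemma pY0 : pY 0 = 2130 := by simp [pY]
@[simp] lemma pY1 : pY 1 = 79591 / 26 := by simp [pY]

/-- The five vertices. -/
noncomputable def pts : Fin 5 → Plane := ![pV, pX, pA, pB, pY]

/-- The pentagon. -/
noncomputable def penta : Set Plane := convexHull ℝ {pV, pX, pA, pB, pY}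

/-- weights -/
def IsW (w : Fin 5 → ℝ) : Prop := (∀ i, 0 ≤ w i) ∧ ∑ i, w i = 1

lemma exists_weights {x : Plane} (hx : x ∈ penta) : ∃ w, IsW w ∧ x = ∑ i, w i • pts i := by
  have h1 : penta ⊆ (Fintype.linearCombination ℝ pts) '' stdSimplex ℝ (Fin 5) := by
    apply convexHull_min
    · have : ∀ i : Fin 5, pts i ∈ (Fintype.linearCombination ℝ pts) '' stdSimplex ℝ (Fin 5) := by
        intro i
        refine ⟨Pi.single i 1, single_mem_stdSimplex ℝ i, ?_⟩
        rw [Fintype.linearCombination_apply_single, one_smul]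
      rintro y (rfl | rfl | rfl | rfl | rfl)
      · exact this 0
      · exact this 1
      · exact this 2
      · exact this 3
      · exact this 4
    · exact (convex_stdSimplex ℝ (Fin 5)).linear_image _
  obtain ⟨w, hw, rfl⟩ := h1 hx
  exact ⟨w, ⟨hw.1, hw.2⟩, by rw [Fintype.linearCombination_apply]⟩

lemma dist_weights {w w' : Fin 5 → ℝ} (hw : IsW w) (hw' : IsW w') :
    dist (∑ i, w i • pts i) (∑ i, w' i • pts i) ≤ ∑ i, ∑ j, w i * w' j * dist (pts i) (pts j) := by
  have e : (∑ i, w i • pts i) - (∑ i, w' i • pts i)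
      = ∑ i, ∑ j, (w i * w' j) • (pts i - pts j) := by
    simp only [smul_sub, Finset.sum_sub_distrib]
    congr 1
    · apply Finset.sum_congr rfl
      intro i _
      rw [← Finset.sum_smul, ← Finset.mul_sum, hw'.2, mul_one]
    · rw [Finset.sum_comm]
      apply Finset.sum_congr rfl
      intro i _
      rw [← Finset.sum_smul, ← Finset.sum_mul, hw.2, one_mul]
  rw [dist_eq_norm, e]
  refine (norm_sum_le _ _).trans ?_
  apply Finset.sum_le_sum
  intro i _
  refine (norm_sum_le _ _).trans ?_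
  apply Finset.sum_le_sum
  intro j _
  rw [norm_smul, Real.norm_of_nonneg (mul_nonneg (hw.1 i) (hw'.1 j)), dist_eq_norm]

lemma dist_le_of_sq {x y : Plane} {m : ℝ} (hm : 0 ≤ m)
    (h : (x 0 - y 0) ^ 2 + (x 1 - y 1) ^ 2 ≤ m ^ 2) : dist x y ≤ m := by
  rw [← dist_sq] at h
  exact abs_le_of_sq_le_sq' h hm |>.2

lemma le_dist_of_sq {x y : Plane} {m : ℝ}
    (h : m ^ 2 ≤ (x 0 - y 0) ^ 2 + (x 1 - y 1) ^ 2) : m ≤ dist x y := by
  rw [← dist_sq] at h
  exact abs_le_of_sq_le_sq' h dist_nonneg |>.2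

lemma dXY_le : dist pX pY ≤ 4262.02 := by
  apply dist_le_of_sq (by norm_num)
  simp only [pX0, pX1, pY0, pY1]; norm_num

lemma le_dXY : 4262 ≤ dist pX pY := by
  apply le_dist_of_sq
  simp only [pX0, pX1, pY0, pY1]; norm_num

/-- bounds of all distances between vertices -/
noncomputable def M : Fin 5 → Fin 5 → ℝ :=
  ![![3740, 3740, 4261, 4261, 3740],
    ![3740, 3740, 3740, 3740, dist pX pY],
    ![4261, 3740, 3740, 3740, 3740],
    ![4261, 3740, 3740, 3740, 3740],
    ![3740, dist pX pY, 3740, 3740, 3740]]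

lemma dist_le_M (i j : Fin 5) : dist (pts i) (pts j) ≤ M i j := by
  fin_cases i <;> fin_cases j <;> simp [pts, M] <;>
    first
    | (rw [dist_comm pY pX])
    | (apply dist_le_of_sq (by norm_num); simp; norm_num)

lemma dist_le_bound {w w' : Fin 5 → ℝ} (hw : IsW w) (hw' : IsW w') :
    dist (∑ i, w i • pts i) (∑ i, w' i • pts i) ≤
      3740 + 521 * (w 0 * (w' 2 + w' 3) + (w 2 + w 3) * w' 0)
        + (dist pX pY - 3740) * (w 1 * w' 4 + w 4 * w' 1) := by
  refine (dist_weights hw hw').trans ?_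
  have h1 : ∑ i, ∑ j, w i * w' j * dist (pts i) (pts j) ≤ ∑ i, ∑ j, w i * w' j * M i j := by
    apply Finset.sum_le_sum; intro i _
    apply Finset.sum_le_sum; intro j _
    exact mul_le_mul_of_nonneg_left (dist_le_M i j) (mul_nonneg (hw.1 i) (hw'.1 j))
  refine h1.trans (le_of_eq ?_)
  have s1 := hw.2
  have s2 := hw'.2
  simp only [Fin.sum_univ_five] at s1 s2 ⊢
  simp [M]
  have e : (w 0 + w 1 + w 2 + w 3 + w 4) * (w' 0 + w' 1 + w' 2 + w' 3 + w' 4) = 1 := by
    rw [s1, s2, one_mul]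
  linear_combination 3740 * e

end Pool.Agent.Helper38.CP
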