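import Pool.Agent.Helper38.CP.Per

open MeasureTheory Measure Set Metric
open scoped ENNReal Topology

namespace Pool.Agent.Helper38.CP

lemma side_sum (a b c x : Plane) : side a b x + side b c x + side c a x = side a b c := by
  simp only [side]; ring

/-- The closed triangle. -/
def tri (a b c : Plane) : Set Plane := convexHull ℝ {a, b, c}

lemma bary (a b c x : Plane) (h : side a b c ≠ 0) :
    x = (side b c x / side a b c) • a + (side c a x / side a b c) • b
      + (side a b x / side a b c) • c := by
  apply plane_ext
  · simp only [PiLp.add_apply, PiLp.smul_apply, smul_eq_mul]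
    field_simp
    simp only [side]
    ring
  · simp only [PiLp.add_apply, PiLp.smul_apply, smul_eq_mul]
    field_simp
    simp only [side]
    ring

lemma mem_tri {a b c x : Plane} (h : 0 < side a b c) :
    x ∈ tri a b c ↔ 0 ≤ side a b x ∧ 0 ≤ side b c x ∧ 0 ≤ side c a x := by
  constructor
  · intro hx
    have h1 : side b c a = side a b c := by simp only [side]; ring
    have h2 : side c a b = side a b c := by simp only [side]; ring
    refine ⟨?_, ?_, ?_⟩
    · have : tri a b c ⊆ {x | 0 ≤ side a b x} := by
        apply convexHull_min _ (convex_side_nonneg a b)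
        rintro y (rfl | rfl | rfl)
        · simp
        · simp
        · exact h.le
      exact this hx
    · have : tri a b c ⊆ {x | 0 ≤ side b c x} := by
        apply convexHull_min _ (convex_side_nonneg b c)
        rintro y (rfl | rfl | rfl)
        · show 0 ≤ side b c y; rw [h1]; exact h.le
        · simp
        · simp
      exact this hx
    · have : tri a b c ⊆ {x | 0 ≤ side c a x} := by
        apply convexHull_min _ (convex_side_nonneg c a)
        rintro y (rfl | rfl | rfl)
        · simp
        · show 0 ≤ side c a y; rw [h2]; exact h.le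
        · simp
      exact this hx
  · rintro ⟨h1, h2, h3⟩
    have hs := side_sum a b c x
    rw [bary a b c x h.ne']
    have hT : Convex ℝ (tri a b c) := convex_convexHull ℝ _
    have ha : a ∈ tri a b c := subset_convexHull ℝ _ (by simp)
    have hb : b ∈ tri a b c := subset_convexHull ℝ _ (by simp)
    have hc : c ∈ tri a b c := subset_convexHull ℝ _ (by simp)
    have key : ∀ {w0 w1 w2 : ℝ}, 0 ≤ w0 → 0 ≤ w1 → 0 ≤ w2 → w0 + w1 + w2 = 1 →
        w0 • a + w1 • b + w2 • c ∈ tri a b c := by
      intro w0 w1 w2 h0 h1 h2 hsum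
      have := hT.sum_mem (t := (Finset.univ : Finset (Fin 3))) (w := ![w0, w1, w2])
        (z := ![a, b, c]) (by intro i _; fin_cases i <;> assumption)
        (by simp [Fin.sum_univ_three, hsum]) (by intro i _; fin_cases i <;> assumption)
      simpa [Fin.sum_univ_three] using this
    apply key (div_nonneg h2 h.le) (div_nonneg h3 h.le) (div_nonneg h1 h.le)
    field_simp
    linarith

lemma mem_interior_tri {a b c x : Plane} (h1 : 0 < side a b x) (h2 : 0 < side b c x)
    (h3 : 0 < side c a x) : x ∈ interior (tri a b c) := by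
  have h : 0 < side a b c := by rw [← side_sum a b c x]; positivity
  apply interior_maximal (s := tri a b c) (t := {x | 0 < side a b x} ∩ ({x | 0 < side b c x} ∩
    {x | 0 < side c a x}))
  · rintro y ⟨y1, y2, y3⟩
    rw [mem_tri h]
    exact ⟨le_of_lt y1, le_of_lt y2, le_of_lt y3⟩
  · exact (isOpen_lt continuous_const (continuous_side a b)).inter
      ((isOpen_lt continuous_const (continuous_side b c)).inter
      (isOpen_lt continuous_const (continuous_side c a)))
  · exact ⟨h1, h2, h3⟩

lemma isConvexBody_tri {a b c : Plane} (h : 0 < side a b c) : IsConvexBody (tri a b c) := by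
  refine ⟨(Set.toFinite _).isCompact_convexHull ℝ, convex_convexHull ℝ _, ?_⟩
  refine ⟨(1/3 : ℝ) • a + (1/3 : ℝ) • b + (1/3 : ℝ) • c, ?_⟩
  apply mem_interior_tri
  · have : side a b ((1/3 : ℝ) • a + (1/3 : ℝ) • b + (1/3 : ℝ) • c) = side a b c / 3 := by
      simp only [side, PiLp.add_apply, PiLp.smul_apply, smul_eq_mul]; ring
    rw [this]; positivity
  · have : side b c ((1/3 : ℝ) • a + (1/3 : ℝ) • b + (1/3 : ℝ) • c) = side a b c / 3 := by
      simp only [side, PiLp.add_apply, PiLp.smul_apply, smul_eq_mul]; ring
    rw [this]; positivity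
  · have : side c a ((1/3 : ℝ) • a + (1/3 : ℝ) • b + (1/3 : ℝ) • c) = side a b c / 3 := by
      simp only [side, PiLp.add_apply, PiLp.smul_apply, smul_eq_mul]; ring
    rw [this]; positivity

lemma frontier_tri_subset {a b c : Plane} (h : 0 < side a b c) :
    frontier (tri a b c) ⊆ segment ℝ a b ∪ segment ℝ b c ∪ segment ℝ c a := by
  intro x hx
  have hcl : IsClosed (tri a b c) := (isConvexBody_tri h).1.isClosed
  have hxT : x ∈ tri a b c := hcl.frontier_subset hx
  obtain ⟨h1, h2, h3⟩ := (mem_tri h).1 hxT
  have hsum := side_sum a b c x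
  have hb := bary a b c x h.ne'
  by_cases e1 : side a b x = 0
  · left; left
    refine ⟨side b c x / side a b c, side c a x / side a b c, div_nonneg h2 h.le,
      div_nonneg h3 h.le, by field_simp; linarith, ?_⟩
    rw [e1, zero_div, zero_smul, add_zero] at hb
    exact hb.symm
  by_cases e2 : side b c x = 0
  · left; right
    refine ⟨side c a x / side a b c, side a b x / side a b c, div_nonneg h3 h.le,
      div_nonneg h1 h.le, by field_simp; linarith, ?_⟩
    rw [e2, zero_div, zero_smul, zero_add] at hb
    exact hb.symm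
  by_cases e3 : side c a x = 0
  · right
    refine ⟨side a b x / side a b c, side b c x / side a b c, div_nonneg h1 h.le,
      div_nonneg h2 h.le, by field_simp; linarith, ?_⟩
    rw [e3, zero_div, zero_smul, add_zero] at hb
    rw [add_comm]
    exact hb.symm
  exfalso
  apply hx.2
  exact mem_interior_tri (lt_of_le_of_ne h1 (Ne.symm e1)) (lt_of_le_of_ne h2 (Ne.symm e2))
    (lt_of_le_of_ne h3 (Ne.symm e3))

lemma perimeter_tri_lt_top {a b c : Plane} (h : 0 < side a b c) :
    μH[1] (frontier (tri a b c)) < ∞ := by
  refine lt_of_le_of_lt (measure_mono (frontier_tri_subset h)) ?_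
  refine lt_of_le_of_lt (measure_union_le _ _) ?_
  refine lt_of_le_of_lt (add_le_add_left (measure_union_le _ _) _) ?_
  rw [hausdorffMeasure_segment, hausdorffMeasure_segment, hausdorffMeasure_segment]
  simp only [ENNReal.add_lt_top]
  exact ⟨⟨edist_lt_top _ _, edist_lt_top _ _⟩, edist_lt_top _ _⟩

/-- Lines are null sets. -/
lemma null_line {b c : Plane} (hbc : b ≠ c) : volume {x | side b c x = 0} = 0 := by
  set S : Set Plane := {x | side b c x = 0} with hS
  have hconv : Convex ℝ S := by
    have : S = {x | 0 ≤ side b c x} ∩ {x | side b c x ≤ 0} := by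
      ext x
      simp only [hS, mem_ofPred_eq, mem_inter_iff]
      constructor
      · intro h; rw [h]; exact ⟨le_rfl, le_rfl⟩
      · rintro ⟨h1, h2⟩; exact le_antisymm h2 h1
    rw [this]
    exact (convex_side_nonneg b c).inter (convex_side_nonpos b c)
  have hcl : IsClosed S := isClosed_eq (continuous_side b c) continuous_const
  have hint : interior S = ∅ := by
    by_contra hne
    obtain ⟨x, hx, hx'⟩ := exists_side_ne (nonempty_iff_ne_empty.2 hne) hbc
    exact hx' hx
  have hf : S = frontier S := by
    rw [frontier, hcl.closure_eq, hint, diff_empty]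
  rw [hf]
  exact hconv.addHaar_frontier volume

/-- The area of a parallelogram. -/
lemma volume_par {a b c : Plane} (h : 0 < side a b c) :
    volume {x : Plane | (0 ≤ side a b x ∧ side a b x ≤ side a b c) ∧
      (0 ≤ side c a x ∧ side c a x ≤ side a b c)} = ENNReal.ofReal (side a b c) := by
  set v : Fin 2 → Plane := ![b - a, c - a] with hv
  have hpar : volume (parallelepiped v) = ENNReal.ofReal (side a b c) := by
    have hb := (EuclideanSpace.basisFun (Fin 2) ℝ).addHaar_eq_volume
    rw [← hb, addHaar_parallelepiped]
    congr 1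
    have : (EuclideanSpace.basisFun (Fin 2) ℝ).toBasis.det v = side a b c := by
      rw [Module.Basis.det_apply, Matrix.det_fin_two]
      simp [Module.Basis.toMatrix_apply, hv, side]
      ring
    rw [this, abs_of_pos h]
  rw [← hpar, ← measure_preimage_add volume a]
  congr 1
  ext x
  rw [mem_parallelepiped_iff]
  simp only [mem_preimage, mem_ofPred_eq, Fin.sum_univ_two, hv]
  set S := side a b c with hS
  constructor
  · rintro ⟨⟨h1, h2⟩, ⟨h3, h4⟩⟩
    refine ⟨![side c a (a + x) / S, side a b (a + x) / S], ?_, ?_⟩
    · simp only [mem_Icc, Pi.le_def, Fin.forall_fin_two]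
      refine ⟨⟨div_nonneg h3 h.le, div_nonneg h1 h.le⟩, ?_, ?_⟩
      · simp; rw [div_le_one h]; exact h4
      · simp; rw [div_le_one h]; exact h2
    · have hne : S ≠ 0 := h.ne'
      apply plane_ext
      · simp
        field_simp
        simp only [hS, side, PiLp.add_apply]
        ring
      · simp
        field_simp
        simp only [hS, side, PiLp.add_apply]
        ring
  · rintro ⟨t, ht, rfl⟩
    simp only [mem_Icc, Pi.le_def, Fin.forall_fin_two] at ht
    obtain ⟨⟨t0, t1⟩, t2, t3⟩ := ht
    simp only [Pi.zero_apply, Pi.one_apply] at t0 t1 t2 t3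
    have e1 : side a b (a + (t 0 • (![b - a, c - a] : Fin 2 → Plane) 0
        + t 1 • (![b - a, c - a] : Fin 2 → Plane) 1)) = t 1 * S := by
      simp [hS, side]; ring
    have e2 : side c a (a + (t 0 • (![b - a, c - a] : Fin 2 → Plane) 0
        + t 1 • (![b - a, c - a] : Fin 2 → Plane) 1)) = t 0 * S := by
      simp [hS, side]; ring
    rw [e1, e2]
    refine ⟨⟨by positivity, ?_⟩, by positivity, ?_⟩
    · nlinarith
    · nlinarith

/-- The area of a triangle. -/
lemma volume_tri {a b c : Plane} (h : 0 < side a b c) :
    volume (tri a b c) = ENNReal.ofReal (side a b c / 2) := by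
  set S := side a b c with hS
  set P : Set Plane := {x : Plane | (0 ≤ side a b x ∧ side a b x ≤ S) ∧
      (0 ≤ side c a x ∧ side c a x ≤ S)} with hP
  have hvol : volume P = ENNReal.ofReal S := volume_par h
  set T' : Set Plane := (fun x => (b + c) - x) ⁻¹' (tri a b c) with hT'
  have hmeas : MeasurableSet (tri a b c) := (isConvexBody_tri h).1.measurableSet
  have hvT' : volume T' = volume (tri a b c) :=
    (measurePreserving_sub_left volume (b + c)).measure_preimage hmeas.nullMeasurableSet
  have hmem : ∀ x, x ∈ tri a b c ↔ 0 ≤ side a b x ∧ 0 ≤ side b c x ∧ 0 ≤ side c a x :=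
    fun x => mem_tri h
  have hmem' : ∀ x, x ∈ T' ↔ side a b x ≤ S ∧ side b c x ≤ 0 ∧ side c a x ≤ S := by
    intro x
    have e1 : side a b (b + c - x) = S - side a b x := by
      simp only [hS, side, PiLp.add_apply, PiLp.sub_apply]; ring
    have e2 : side b c (b + c - x) = - side b c x := by
      simp only [side, PiLp.add_apply, PiLp.sub_apply]; ring
    have e3 : side c a (b + c - x) = S - side c a x := by
      simp only [hS, side, PiLp.add_apply, PiLp.sub_apply]; ring
    rw [hT', mem_preimage, hmem, e1, e2, e3]
    constructor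
    · rintro ⟨h1, h2, h3⟩; exact ⟨by linarith, by linarith, by linarith⟩
    · rintro ⟨h1, h2, h3⟩; exact ⟨by linarith, by linarith, by linarith⟩
  have hunion : P = tri a b c ∪ T' := by
    ext x
    have hsum := side_sum a b c x
    rw [← hS] at hsum
    simp only [mem_union, hmem, hmem', hP, mem_ofPred_eq]
    constructor
    · rintro ⟨⟨h1, h2⟩, h3, h4⟩
      by_cases h5 : 0 ≤ side b c x
      · exact Or.inl ⟨h1, h5, h3⟩
      · push Not at h5
        exact Or.inr ⟨h2, h5.le, h4⟩
    · rintro (⟨h1, h2, h3⟩ | ⟨h1, h2, h3⟩)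
      · exact ⟨⟨h1, by linarith⟩, h3, by linarith⟩
      · exact ⟨⟨by linarith, h1⟩, by linarith, h3⟩
  have hbc : b ≠ c := by
    rintro rfl
    simp at hS
    rw [hS] at h
    exact lt_irrefl _ h
  have hdisj : AEDisjoint volume (tri a b c) T' := by
    apply measure_mono_null _ (null_line hbc)
    rintro x ⟨hx1, hx2⟩
    rw [hmem] at hx1
    rw [hmem'] at hx2
    exact le_antisymm hx2.2.1 hx1.2.1
  have hT'meas : NullMeasurableSet T' volume :=
    (hmeas.preimage (by fun_prop)).nullMeasurableSet
  rw [hunion, measure_union₀ hT'meas hdisj, hvT', ← two_mul] at hvol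
  have h2 : ENNReal.ofReal S = 2 * ENNReal.ofReal (S / 2) := by
    rw [← ENNReal.ofReal_ofNat, ← ENNReal.ofReal_mul (by norm_num)]
    congr 1; ring
  rw [h2] at hvol
  exact (ENNReal.mul_right_inj (by norm_num) (by norm_num)).1 hvol

end Pool.Agent.Helper38.CP
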